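import Pool.Agent.J4.H53.Col.PrimeSide

/-!
# Linked points and groups which contain the alternating group
-/

set_option autoImplicit false

open scoped Classical

namespace Pool.Agent.J4.H53.Col

open Pool.Agent.Q11.CZ Pool.Agent.N770.CP

variable {G : Type} [Group G] {X Y : Type} [MulAction G X] [MulAction G Y] {c : G} {r : X → Y}

/-- the situation: `Y` is the set of the pairs `{x, c x}`. -/
structure Cover (c : G) (r : X → Y) : Prop where
  hc : ∀ g, c * g = g * c
  hc2 : c * c = 1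
  free : ∀ x : X, c • x ≠ x
  eqv : ∀ (g : G) (x : X), r (g • x) = g • r x
  rc : ∀ x : X, r (c • x) = r x
  fib : ∀ x y : X, r x = r y → y = x ∨ y = c • x
  surj : Function.Surjective r

/-- `t` acts on `Y` as the cycle `(i j k)` and has trivial cube on `X`. -/
structure Lift3 (X : Type) [MulAction G X] (t : G) (i j k : Y) : Prop where
  h1 : t • i = j
  h2 : t • j = k
  h3 : t • k = i
  rest : ∀ l, l ≠ i → l ≠ j → l ≠ k → t • l = l
  cube : ∀ x : X, t • t • t • x = x

/-- every cycle of length three is induced by the group. -/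
def Has3 (G : Type) [Group G] (Y : Type) [MulAction G Y] : Prop :=
  ∀ i j k : Y, i ≠ j → j ≠ k → i ≠ k → ∃ g : G, g • i = j ∧ g • j = k ∧ g • k = i ∧
    ∀ l, l ≠ i → l ≠ j → l ≠ k → g • l = l

/-- any two points which are not related by `c` are linked. -/
def AllLinked (c : G) (X : Type) [MulAction G X] : Prop :=
  ∀ x y : X, y ≠ x → y ≠ c • x → ¬ ∃ k : G, k • x = x ∧ k • y = c • y

section

variable (C : Cover c r)

include C

lemma Cover.cc (x : X) : c • c • x = x := by rw [← mul_smul, C.hc2, one_smul]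

lemma Cover.cg (g : G) (x : X) : g • c • x = c • g • x := by
  rw [← mul_smul, ← C.hc, mul_smul]

lemma Cover.cY (y : Y) : c • y = y := by
  obtain ⟨x, rfl⟩ := C.surj y
  rw [← C.eqv, C.rc]

/-- elements which act trivially on `Y` and fix a point of `X`. -/
lemma Cover.triv (hL : AllLinked c X) {g : G} (hg : ∀ y : Y, g • y = y) {x : X} (hx : g • x = x)
    (y : X) : g • y = y := by
  have h1 : r (g • y) = r y := by rw [C.eqv, hg]
  rcases C.fib _ _ h1.symm with h2 | h2
  · exact h2
  · exfalso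
    by_cases h3 : y = x
    · rw [h3, hx] at h2
      exact C.free x h2.symm
    by_cases h4 : y = c • x
    · rw [h4, C.cg, hx, C.cc] at h2
      apply C.free x
      exact h2
    exact hL x y h3 h4 ⟨g, hx, h2⟩

/-- the lift of a cycle. -/
lemma Cover.exists_lift (hL : AllLinked c X) (h3 : Has3 G Y) {i j k : Y} (hij : i ≠ j)
    (hjk : j ≠ k) (hik : i ≠ k) : ∃ t : G, Lift3 X t i j k := by
  obtain ⟨g, g1, g2, g3, g4⟩ := h3 i j k hij hjk hik
  have hY : ∀ y : Y, (g * g * g) • y = y := by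
    intro y
    rw [mul_smul, mul_smul]
    by_cases h1 : y = i
    · rw [h1, g1, g2, g3]
    by_cases h2 : y = j
    · rw [h2, g2, g3, g1]
    by_cases h3 : y = k
    · rw [h3, g3, g1, g2]
    · rw [g4 y h1 h2 h3, g4 y h1 h2 h3, g4 y h1 h2 h3]
  obtain ⟨x, hx⟩ := C.surj i
  have h1 : r ((g * g * g) • x) = r x := by rw [C.eqv, hY]
  rcases C.fib _ _ h1.symm with h2 | h2
  · refine ⟨g, g1, g2, g3, g4, fun y => ?_⟩
    have h4 := C.triv hL hY h2 y
    rwa [mul_smul, mul_smul] at h4
  · have hY' : ∀ y : Y, (c * g * (c * g) * (c * g)) • y = y := by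
      intro y
      have e := hY y
      simp only [mul_smul, C.cY] at e ⊢
      exact e
    have h3 : (c * g * (c * g) * (c * g)) • x = x := by
      have e : (c * g * (c * g) * (c * g)) • x = c • ((g * g * g) • x) := by
        simp only [mul_smul, C.cg]
        rw [C.cc]
      rw [e, h2, C.cc]
    refine ⟨c * g, ?_, ?_, ?_, ?_, fun y => ?_⟩
    · rw [mul_smul, g1, C.cY]
    · rw [mul_smul, g2, C.cY]
    · rw [mul_smul, g3, C.cY]
    · intro l h1 h2 h3
      rw [mul_smul, g4 l h1 h2 h3, C.cY]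
    · have h4 := C.triv hL hY' h3 y
      rwa [mul_smul, mul_smul] at h4

/-- a lift fixes the points over the fixed indices. -/
lemma Cover.lift_fix {t : G} {i j k : Y} (ht : Lift3 X t i j k) {x : X} (h1 : r x ≠ i)
    (h2 : r x ≠ j) (h3 : r x ≠ k) : t • x = x := by
  have h4 : r (t • x) = r x := by rw [C.eqv, ht.rest _ h1 h2 h3]
  rcases C.fib _ _ h4.symm with h5 | h5
  · exact h5
  · exfalso
    have h6 := ht.cube x
    rw [h5, C.cg, h5, C.cg, C.cg, h5, C.cc] at h6
    exact C.free x h6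

end

lemma Lift3.inv {t : G} {i j k : Y} (ht : Lift3 X t i j k) : Lift3 X t⁻¹ j i k := by
  refine ⟨?_, ?_, ?_, ?_, ?_⟩
  · rw [inv_smul_eq_iff, ht.h1]
  · rw [inv_smul_eq_iff, ht.h3]
  · rw [inv_smul_eq_iff, ht.h2]
  · intro l h1 h2 h3
    rw [inv_smul_eq_iff, ht.rest l h2 h1 h3]
  · intro x
    rw [inv_smul_eq_iff, inv_smul_eq_iff, inv_smul_eq_iff, ht.cube]

lemma Lift3.rot {t : G} {i j k : Y} (ht : Lift3 X t i j k) : Lift3 X t j k i :=
  ⟨ht.h2, ht.h3, ht.h1, fun l h1 h2 h3 => ht.rest l h3 h1 h2, ht.cube⟩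

lemma Lift3.conj {t : G} {i j k : Y} (ht : Lift3 X t i j k) (g : G) :
    Lift3 X (g * t * g⁻¹) (g • i) (g • j) (g • k) := by
  refine ⟨?_, ?_, ?_, ?_, ?_⟩
  · rw [mul_smul, inv_smul_smul, mul_smul, ht.h1]
  · rw [mul_smul, inv_smul_smul, mul_smul, ht.h2]
  · rw [mul_smul, inv_smul_smul, mul_smul, ht.h3]
  · intro l h1 h2 h3
    rw [mul_smul, mul_smul, ht.rest, smul_inv_smul]
    · intro h; apply h1; rw [← h, smul_inv_smul]
    · intro h; apply h2; rw [← h, smul_inv_smul]
    · intro h; apply h3; rw [← h, smul_inv_smul]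
  · intro x
    simp only [mul_smul, inv_smul_smul]
    rw [ht.cube, smul_inv_smul]

lemma exists_out {Y : Type} [Fintype Y] (s : Finset Y) (h : s.card < Fintype.card Y) :
    ∃ m, m ∉ s := by
  by_contra hcon
  push Not at hcon
  have : s = Finset.univ := Finset.eq_univ_of_forall hcon
  rw [this, Finset.card_univ] at h
  exact lt_irrefl _ h

section

variable (C : Cover c r) (hL : AllLinked c X) (h3 : Has3 G Y) [Fintype Y] (hY : 5 ≤ Fintype.card Y)

include C hL h3 hY

/-- **Independence of the third index.** -/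
lemma Cover.indep {t t' : G} {i j k l : Y} (ht : Lift3 X t i j k) (ht' : Lift3 X t' i j l)
    (hij : i ≠ j) (hik : i ≠ k) (hjk : j ≠ k) (hil : i ≠ l) (hjl : j ≠ l) {x : X} (hx : r x = i) :
    t • x = t' • x := by
  by_cases hkl : k = l
  · -- the same cycle
    subst hkl
    have h1 : ∀ y : Y, (t'⁻¹ * t) • y = y := by
      intro y
      rw [mul_smul, inv_smul_eq_iff]
      by_cases e1 : y = i
      · rw [e1, ht.h1, ht'.h1]
      by_cases e2 : y = j
      · rw [e2, ht.h2, ht'.h2]
      by_cases e3 : y = k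
      · rw [e3, ht.h3, ht'.h3]
      · rw [ht.rest y e1 e2 e3, ht'.rest y e1 e2 e3]
    obtain ⟨m, hm⟩ := exists_out ({i, j, k} : Finset Y) (lt_of_le_of_lt Finset.card_le_three
      (by omega))
    simp only [Finset.mem_insert, Finset.mem_singleton, not_or] at hm
    obtain ⟨xm, hxm⟩ := C.surj m
    have h2 : (t'⁻¹ * t) • xm = xm := by
      rw [mul_smul, inv_smul_eq_iff, C.lift_fix ht (by rw [hxm]; exact hm.1)
        (by rw [hxm]; exact hm.2.1) (by rw [hxm]; exact hm.2.2),
        C.lift_fix ht' (by rw [hxm]; exact hm.1) (by rw [hxm]; exact hm.2.1)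
        (by rw [hxm]; exact hm.2.2)]
    have h4 := C.triv hL h1 h2 x
    rwa [mul_smul, inv_smul_eq_iff] at h4
  · obtain ⟨s, hs⟩ := C.exists_lift hL h3 hjk hkl hjl
    have h1 : ∀ y : Y, (s⁻¹ * (t'⁻¹ * t)) • y = y := by
      intro y
      rw [mul_smul, inv_smul_eq_iff, mul_smul, inv_smul_eq_iff]
      by_cases e1 : y = i
      · rw [e1, ht.h1, hs.rest i hij hik hil, ht'.h1]
      by_cases e2 : y = j
      · rw [e2, ht.h2, hs.h1, ht'.rest k (Ne.symm hik) (Ne.symm hjk) hkl]
      by_cases e3 : y = k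
      · rw [e3, ht.h3, hs.h2, ht'.h3]
      by_cases e4 : y = l
      · rw [e4, ht.rest l (Ne.symm hil) (Ne.symm hjl) (Ne.symm hkl), hs.h3, ht'.h2]
      · rw [ht.rest y e1 e2 e3, hs.rest y e2 e3 e4, ht'.rest y e1 e2 e4]
    obtain ⟨m, hm⟩ := exists_out ({i, j, k, l} : Finset Y) (lt_of_le_of_lt Finset.card_le_four
      (by omega))
    simp only [Finset.mem_insert, Finset.mem_singleton, not_or] at hm
    obtain ⟨xm, hxm⟩ := C.surj m
    have h2 : (s⁻¹ * (t'⁻¹ * t)) • xm = xm := by
      rw [mul_smul, inv_smul_eq_iff, mul_smul, inv_smul_eq_iff,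
        C.lift_fix ht (by rw [hxm]; exact hm.1) (by rw [hxm]; exact hm.2.1)
          (by rw [hxm]; exact hm.2.2.1),
        C.lift_fix hs (by rw [hxm]; exact hm.2.1) (by rw [hxm]; exact hm.2.2.1)
          (by rw [hxm]; exact hm.2.2.2),
        C.lift_fix ht' (by rw [hxm]; exact hm.1) (by rw [hxm]; exact hm.2.1)
          (by rw [hxm]; exact hm.2.2.2)]
    have h4 := C.triv hL h1 h2 x
    rw [mul_smul, inv_smul_eq_iff, mul_smul, inv_smul_eq_iff,
      C.lift_fix hs (by rw [hx]; exact hij) (by rw [hx]; exact hik) (by rw [hx]; exact hil)] at h4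
    exact h4

end

/-- the relation `same side`. -/
def Same (G : Type) [Group G] {X Y : Type} [MulAction G X] [MulAction G Y] (r : X → Y)
    (x y : X) : Prop :=
  r x ≠ r y ∧ ∃ (k : Y) (t : G), r x ≠ k ∧ r y ≠ k ∧ Lift3 X t (r x) (r y) k ∧ t • x = y

section

variable (C : Cover c r) (hL : AllLinked c X) (h3 : Has3 G Y) [Fintype Y] (hY : 5 ≤ Fintype.card Y)

omit [Fintype Y] in
include C in
lemma Cover.same_smul {x y : X} (h : Same G r x y) (g : G) : Same G r (g • x) (g • y) := by
  obtain ⟨h1, k, t, h2, h3, h4, h5⟩ := h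
  refine ⟨?_, g • k, g * t * g⁻¹, ?_, ?_, ?_, ?_⟩
  · rw [C.eqv, C.eqv]; exact fun h => h1 (MulAction.injective g h)
  · rw [C.eqv]; exact fun h => h2 (MulAction.injective g h)
  · rw [C.eqv]; exact fun h => h3 (MulAction.injective g h)
  · rw [C.eqv, C.eqv]; exact h4.conj g
  · rw [mul_smul, inv_smul_smul, mul_smul, h5]

omit [Fintype Y] in
lemma same_symm {x y : X} (h : Same G r x y) : Same G r y x := by
  obtain ⟨h1, k, t, h2, h3, h4, h5⟩ := h
  exact ⟨h1.symm, k, t⁻¹, h3, h2, h4.inv, by rw [← h5, inv_smul_smul]⟩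

include C hL h3 hY

lemma Cover.same_uniq {x y z : X} (h : Same G r x y) (h' : Same G r x z) (hyz : r y = r z) :
    y = z := by
  obtain ⟨h1, k, t, h2, h3', h4, h5⟩ := h
  obtain ⟨g1, l, s, g2, g3, g4, g5⟩ := h'
  rw [← hyz] at g3 g4
  rw [← h5, ← g5]
  exact C.indep hL h3 hY h4 g4 h1 h2 h3' g2 g3 rfl

lemma Cover.same_or {x y : X} (hxy : r x ≠ r y) : Same G r x y ∨ Same G r x (c • y) := by
  obtain ⟨k, hk⟩ := exists_out ({r x, r y} : Finset Y) (lt_of_le_of_lt Finset.card_le_two
      (by omega))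
  simp only [Finset.mem_insert, Finset.mem_singleton, not_or] at hk
  obtain ⟨t, ht⟩ := C.exists_lift hL h3 hxy (Ne.symm hk.2) (Ne.symm hk.1)
  have h1 : r (t • x) = r y := by rw [C.eqv, ht.h1]
  rcases C.fib _ _ h1.symm with h2 | h2
  · left
    exact ⟨hxy, k, t, Ne.symm hk.1, Ne.symm hk.2, ht, h2⟩
  · right
    refine ⟨by rw [C.rc]; exact hxy, k, t, Ne.symm hk.1, by rw [C.rc]; exact Ne.symm hk.2, ?_, h2⟩
    rw [C.rc]
    exact ht

lemma Cover.same_not {x y : X} (h : Same G r x y) : ¬ Same G r x (c • y) := by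
  intro h'
  have h1 := C.same_uniq hL h3 hY h h' (C.rc y).symm
  exact C.free y h1.symm

lemma Cover.same_trans {x y z : X} (h : Same G r x y) (h' : Same G r y z) (hxz : r x ≠ r z) :
    Same G r x z := by
  have hxy := h.1
  have hyz := h'.1
  obtain ⟨t, ht⟩ := C.exists_lift hL h3 hxy hyz hxz
  have h1 : Same G r x (t • x) := by
    have e : r (t • x) = r y := by rw [C.eqv, ht.h1]
    exact ⟨by rw [e]; exact hxy, r z, t, hxz, by rw [e]; exact hyz, by rw [e]; exact ht, rfl⟩
  have h2 : y = t • x := C.same_uniq hL h3 hY h h1 (by rw [C.eqv, ht.h1])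
  have h4 : Same G r y (t • y) := by
    have e : r (t • y) = r z := by rw [C.eqv, ht.h2]
    exact ⟨by rw [e]; exact hyz, r x, t, Ne.symm hxy, by rw [e]; exact Ne.symm hxz,
      by rw [e]; exact ht.rot, rfl⟩
  have h5 : z = t • y := C.same_uniq hL h3 hY h' h4 (by rw [C.eqv, ht.h2])
  have h6 : t⁻¹ • x = z := by
    rw [inv_smul_eq_iff, h5, h2, ht.cube]
  refine ⟨hxz, r y, t⁻¹, hxy, Ne.symm hyz, ?_, h6⟩
  exact ht.rot.rot.inv

/-- **The invariant half-system.** -/
theorem Cover.exists_side [Fintype X] : ∃ O : Finset X, IsHalf c O ∧ Side G O := by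
  have hne : Nonempty Y := by
    rw [← Fintype.card_pos_iff]; omega
  obtain ⟨i0⟩ := hne
  obtain ⟨x0, hx0⟩ := C.surj i0
  set O : Finset X := Finset.univ.filter fun x => x = x0 ∨ Same G r x0 x with hO
  have hmem : ∀ x, x ∈ O ↔ (x = x0 ∨ Same G r x0 x) := fun x => by simp [hO]
  have hhalf : IsHalf c O := by
    intro x
    rw [hmem, hmem]
    by_cases h : r x = r x0
    · have hn1 : ¬ Same G r x0 x := fun h1 => h1.1 h.symm
      have hn2 : ¬ Same G r x0 (c • x) := fun h1 => h1.1 (by rw [C.rc, h])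
      rcases C.fib _ _ h with h1 | h1
      · subst h1
        have := C.free x0
        tauto
      · have h2 : c • x = x0 := h1.symm
        have h3 : x ≠ x0 := by
          intro h4
          rw [h4] at h2
          exact C.free x0 h2
        tauto
    · have h0 : r x0 ≠ r x := fun h1 => h h1.symm
      have h1 : x ≠ x0 := fun h1 => h (by rw [h1])
      have h2 : c • x ≠ x0 := fun h1 => h (by rw [← h1, C.rc])
      have h4 := C.same_or hL h3 hY h0
      have h5 : Same G r x0 x → ¬ Same G r x0 (c • x) := fun h => C.same_not hL h3 hY h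
      tauto
  have key : ∀ g : G, g • x0 ∈ O → ∀ u ∈ O, g • u ∈ O := by
    intro g hg u hu
    rw [hmem] at hg hu ⊢
    rcases hu with rfl | hu
    · exact hg
    have h1 := C.same_smul hu g
    rcases hg with hg | hg
    · rw [hg] at h1
      exact Or.inr h1
    · by_cases h2 : r x0 = r (g • u)
      · left
        have h4 := same_symm hg
        exact (C.same_uniq hL h3 hY h1 h4 h2.symm)
      · exact Or.inr (C.same_trans hL h3 hY hg h1 h2)
  refine ⟨O, hhalf, fun g => ?_⟩
  by_cases hg : g • x0 ∈ O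
  · exact Or.inl (key g hg)
  · right
    intro u hu hgu
    have h1 : (c * g) • x0 ∈ O := by
      rw [mul_smul]
      exact (hhalf _).mpr hg
    have h2 := key _ h1 u hu
    rw [mul_smul] at h2
    exact (hhalf _).mp h2 hgu

end

end Pool.Agent.J4.H53.Col
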