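import Pool.Agent.J4.H53.Col.PrimeConv
import Pool.Agent.N770.CP.Fields2

/-!
# CM fields whose maximal real subfield has prime degree
-/

set_option autoImplicit false

open scoped Classical
open NumberField

namespace Pool.Agent.J4.H53.Col

open Pool.Agent.Q11.CZ Pool.Agent.N770.CP
open Pool.Agent.Results.MP_a2beea_nt.AveragedAndAbelian (conjugation act IsCMType)

variable {E K : Type} [Field E] [NumberField E] [Field K] [NumberField K]

/-- the restriction to the maximal real subfield. -/
noncomputable def res (x : E →ₐ[ℚ] K) : maximalRealSubfield E →ₐ[ℚ] K :=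
  x.comp (IsScalarTower.toAlgHom ℚ (maximalRealSubfield E) E)

lemma res_apply (x : E →ₐ[ℚ] K) (e : maximalRealSubfield E) : res x e = x (e : E) := rfl

lemma res_smul (g : K ≃ₐ[ℚ] K) (x : E →ₐ[ℚ] K) : res (g • x) = g • res x := rfl

section cm

variable [IsGalois ℚ K] [IsCMField E] [IsCMField K]

lemma res_c (x : E →ₐ[ℚ] K) : res (conjugation K • x) = res x := by
  apply AlgHom.ext
  intro e
  rw [← rr_conj]
  change x ((conjugation E)⁻¹ (e : E)) = x (e : E)
  have h1 : (conjugation E)⁻¹ = conjugation E := by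
    rw [inv_eq_iff_mul_eq_one]
    exact conj_mul_self
  rw [h1, (conj_fix_iff (e : E)).mpr e.2]

lemma res_eq {x y : E →ₐ[ℚ] K} (h : res x = res y) : y = x ∨ y = conjugation K • x := by
  have hfix : ∀ e : E, e ∈ maximalRealSubfield E → y e = x e := fun e he =>
    (congrArg (fun f : maximalRealSubfield E →ₐ[ℚ] K => f ⟨e, he⟩) h).symm
  have htwo : ∀ e : E, y e = x e ∨ y e = x (conjugation E e) := by
    intro e
    have h1 : y (e + conjugation E e) = x (e + conjugation E e) := by
      refine hfix _ ((conj_fix_iff _).mp ?_)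
      rw [map_add, conj_conj, add_comm]
    have h2 : y (e * conjugation E e) = x (e * conjugation E e) := by
      refine hfix _ ((conj_fix_iff _).mp ?_)
      rw [map_mul, conj_conj, mul_comm]
    rw [map_add, map_add] at h1
    rw [map_mul, map_mul] at h2
    have h3 : (y e - x e) * (y e - x (conjugation E e)) = 0 := by
      have h4 : y (conjugation E e) = x e + x (conjugation E e) - y e := by
        rw [← h1]; ring
      rw [h4] at h2
      linear_combination -h2
    rcases mul_eq_zero.mp h3 with h | h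
    · exact Or.inl (sub_eq_zero.mp h)
    · exact Or.inr (sub_eq_zero.mp h)
  by_cases hall : ∀ e, y e = x e
  · left
    exact AlgHom.ext hall
  · right
    push Not at hall
    obtain ⟨e0, he0⟩ := hall
    have h0 : y e0 = x (conjugation E e0) := (htwo e0).resolve_left he0
    rw [← rr_conj]
    apply AlgHom.ext
    intro e
    change y e = x ((conjugation E)⁻¹ e)
    have h1 : (conjugation E)⁻¹ = conjugation E := by
      rw [inv_eq_iff_mul_eq_one]
      exact conj_mul_self
    rw [h1]
    rcases htwo e with h2 | h2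
    · rcases htwo (e + e0) with h3 | h3
      · exfalso
        apply he0
        rw [map_add, map_add, h2] at h3
        exact add_left_cancel h3
      · rw [map_add, map_add, map_add, h0] at h3
        exact add_right_cancel h3
    · exact h2

omit [IsCMField E] [IsCMField K] in
lemma res_surj (hne : Nonempty (E →ₐ[ℚ] K)) (f : maximalRealSubfield E →ₐ[ℚ] K) :
    ∃ x : E →ₐ[ℚ] K, res x = f := by
  obtain ⟨x⟩ := hne
  obtain ⟨g, hg⟩ := exists_lift (res x) f
  exact ⟨g • x, hg⟩

omit [IsCMField E] [IsCMField K] in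
lemma card_emb (F : Type) [Field F] [NumberField F] (hne : Nonempty (F →ₐ[ℚ] K)) :
    Fintype.card (F →ₐ[ℚ] K) = Module.finrank ℚ F := by
  obtain ⟨x⟩ := hne
  refine AlgHom.card_of_splits ℚ F K (fun e => ?_)
  have h1 : minpoly ℚ e = minpoly ℚ (x e) :=
    (minpoly.algHom_eq x (x : F →+* K).injective e).symm
  rw [h1]
  exact (inferInstance : Normal ℚ K).splits (x e)

omit [IsGalois ℚ K] [IsCMField K] in
lemma finrank_cm : Module.finrank ℚ E = 2 * Module.finrank ℚ (maximalRealSubfield E) := by
  have h1 := Module.finrank_mul_finrank ℚ (maximalRealSubfield E) E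
  rw [← h1, Algebra.IsQuadraticExtension.finrank_eq_two (maximalRealSubfield E) E, mul_comm]

omit [IsCMField E] in
/-- **A subfield of degree two from an invariant half-system.** -/
theorem quadratic_of_side {O : Finset (E →ₐ[ℚ] K)} (hO : IsHalf (conjugation K) O)
    (hS : Side (K ≃ₐ[ℚ] K) O) {x : E →ₐ[ℚ] K} (hx : x ∈ O) :
    ∃ k : IntermediateField ℚ E, Module.finrank ℚ k = 2 := by
  set S : Subgroup (K ≃ₐ[ℚ] K) := NN conj_comm hO hS hx with hSdef
  have hmem : ∀ g, g ∈ S ↔ inN O g := fun g => Iff.rfl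
  set F := IntermediateField.fixedField S with hF
  have hind : S.index = 2 := by
    rw [Subgroup.index_eq_two_iff]
    refine ⟨conjugation K, fun g => ?_⟩
    rw [hmem, hmem, inN_mul conj_comm hO hS hx]
    have := inN_c hO hx
    by_cases h : inN O g
    · right
      exact ⟨h, by tauto⟩
    · left
      exact ⟨by tauto, h⟩
  have hfin : Module.finrank ℚ F = 2 := by
    rw [IntermediateField.finrank_eq_fixingSubgroup_index, hF,
      IntermediateField.fixingSubgroup_fixedField, hind]
  have hle : F ≤ x.fieldRange := by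
    have h1 : x.fieldRange.fixingSubgroup ≤ S := by
      intro g hg
      rw [hmem, inN_iff hS hx]
      have h2 : g • x = x := by
        apply AlgHom.ext
        intro e
        rw [IntermediateField.mem_fixingSubgroup_iff] at hg
        exact hg (x e) ⟨e, rfl⟩
      rw [h2]
      exact hx
    have h2 := IntermediateField.fixedField_antitone h1
    rwa [IsGalois.fixedField_fixingSubgroup] at h2
  refine ⟨F.comap x, ?_⟩
  have h3 : (F.comap x).map x = F := by
    rw [IntermediateField.map_comap_eq, inf_eq_left]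
    exact hle
  have h4 := LinearEquiv.finrank_eq ((F.comap x).equivMap x).toLinearEquiv
  rw [h4, h3, hfin]

/-- **An invariant half-system from a subfield of degree two.** -/
theorem side_of_quadratic (hne : Nonempty (E →ₐ[ℚ] K))
    (hp : (Module.finrank ℚ (maximalRealSubfield E)).Prime)
    (hp2 : Module.finrank ℚ (maximalRealSubfield E) ≠ 2) {k : IntermediateField ℚ E}
    (hk : Module.finrank ℚ k = 2) :
    ∃ O : Finset (E →ₐ[ℚ] K), IsHalf (conjugation K) O ∧ Side (K ≃ₐ[ℚ] K) O ∧ O.Nonempty := by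
  obtain ⟨x0⟩ := hne
  let r : (E →ₐ[ℚ] K) → (k →ₐ[ℚ] K) := fun x => x.comp k.val
  have hr : ∀ (g : K ≃ₐ[ℚ] K) (x : E →ₐ[ℚ] K), r (g • x) = g • r x := fun _ _ => rfl
  -- complex conjugation acts without fixed points
  have hcr : ∀ x : E →ₐ[ℚ] K, conjugation K • r x ≠ r x := by
    intro x hx
    have h1 : ∀ e : k, (e : E) ∈ maximalRealSubfield E := by
      intro e
      rw [← conj_fix_iff]
      apply (x : E →+* K).injective
      have h2 := congrArg (fun f : k →ₐ[ℚ] K => f e) hx
      have h3 : conjugation K (x (e : E)) = x (e : E) := h2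
      rw [← emb_conj'] at h3
      exact h3
    let f : k →ₐ[ℚ] maximalRealSubfield E :=
      { toFun := fun e => ⟨(e : E), h1 e⟩
        map_one' := rfl
        map_mul' := fun _ _ => rfl
        map_zero' := rfl
        map_add' := fun _ _ => rfl
        commutes' := fun _ => rfl }
    let _ : Algebra k (maximalRealSubfield E) := f.toRingHom.toAlgebra
    have _ : IsScalarTower ℚ k (maximalRealSubfield E) := IsScalarTower.of_algHom f
    have h4 := Module.finrank_mul_finrank ℚ k (maximalRealSubfield E)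
    rw [hk] at h4
    have h5 : 2 ∣ Module.finrank ℚ (maximalRealSubfield E) := Dvd.intro _ h4
    exact hp2 ((Nat.prime_dvd_prime_iff_eq Nat.prime_two hp).mp h5).symm
  have hcard : Fintype.card (k →ₐ[ℚ] K) = 2 := by
    rw [card_emb k ⟨r x0⟩, hk]
  have htwo : ∀ f : k →ₐ[ℚ] K, f = r x0 ∨ f = conjugation K • r x0 := by
    intro f
    by_contra h
    push Not at h
    have h1 : ({f, r x0, conjugation K • r x0} : Finset (k →ₐ[ℚ] K)).card ≤ 2 := by
      rw [← hcard]
      exact Finset.card_le_univ _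
    rw [Finset.card_insert_of_notMem, Finset.card_insert_of_notMem, Finset.card_singleton] at h1
    · omega
    · rw [Finset.mem_singleton]
      exact fun h2 => hcr x0 h2.symm
    · rw [Finset.mem_insert, Finset.mem_singleton]
      push Not
      exact h
  refine ⟨Finset.univ.filter fun x => r x = r x0, ?_, ?_, ⟨x0, by simp⟩⟩
  · intro x
    simp only [Finset.mem_filter, Finset.mem_univ, true_and]
    rw [hr]
    constructor
    · intro h1 h2
      rw [h2] at h1
      exact hcr x0 h1
    · intro h1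
      rcases htwo (r x) with h2 | h2
      · exact absurd h2 h1
      · rw [h2]
        exact smul_smul_c conj_mul_self (r x0)
  · intro g
    simp only [Finset.mem_filter, Finset.mem_univ, true_and]
    by_cases h : g • r x0 = r x0
    · left
      intro x hx
      rw [hr, hx, h]
    · right
      intro x hx
      rw [hr, hx]
      exact h

/-- **The commutator subgroup acts on the embeddings of the maximal real subfield.** -/
theorem comm_moves (hne : Nonempty (E →ₐ[ℚ] K)) (hgal : ¬ IsGalois ℚ (maximalRealSubfield E)) :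
    ∃ z ∈ commutator (K ≃ₐ[ℚ] K), ∃ x : E →ₐ[ℚ] K, z • x ≠ x ∧ z • x ≠ conjugation K • x := by
  by_contra hcon
  push Not at hcon
  apply hgal
  obtain ⟨x⟩ := hne
  have hfix : ∀ z ∈ commutator (K ≃ₐ[ℚ] K), z • res x = res x := by
    intro z hz
    rw [← res_smul]
    by_cases h : z • x = x
    · rw [h]
    · rw [hcon z hz x h, res_c]
  set A := IntermediateField.fixedField (commutator (K ≃ₐ[ℚ] K)) with hA
  have hab : IsAbelianGalois ℚ A := by
    have key := abelian_fixed (F := ℚ) (K := K)
    convert key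
    exact Subsingleton.elim _ _
  have hmem : ∀ e, res x e ∈ A := by
    intro e
    rw [hA, IntermediateField.mem_fixedField_iff]
    intro z hz
    exact congrArg (fun f : maximalRealSubfield E →ₐ[ℚ] K => f e) (hfix z hz)
  let f : maximalRealSubfield E →ₐ[ℚ] A :=
    { toFun := fun e => ⟨res x e, hmem e⟩
      map_one' := Subtype.ext (map_one (res x))
      map_mul' := fun a b => Subtype.ext (map_mul (res x) a b)
      map_zero' := Subtype.ext (map_zero (res x))
      map_add' := fun a b => Subtype.ext (map_add (res x) a b)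
      commutes' := fun a => Subtype.ext ((res x).commutes a) }
  have h1 : IsAbelianGalois ℚ (maximalRealSubfield E) := IsAbelianGalois.of_algHom f
  exact h1.toIsGalois

/-- transitivity on the two-element sets of embeddings. -/
def Hom2F (F K : Type) [Field F] [NumberField F] [Field K] [NumberField K] : Prop :=
  ∀ a b a' b' : F →ₐ[ℚ] K, a ≠ b → a' ≠ b' → ∃ g : K ≃ₐ[ℚ] K,
    (act g a = a' ∧ act g b = b') ∨ (act g a = b' ∧ act g b = a')

/-- transitivity on the pairs of different embeddings. -/
def Trans2F (F K : Type) [Field F] [NumberField F] [Field K] [NumberField K] : Prop :=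
  ∀ a b a' b' : F →ₐ[ℚ] K, a ≠ b → a' ≠ b' → ∃ g : K ≃ₐ[ℚ] K, act g a = a' ∧ act g b = b'

/-- the translation of the action on pairs. -/
lemma lift_pair {O : Finset (E →ₐ[ℚ] K)} (hO : IsHalf (conjugation K) O)
    (hS : Side (K ≃ₐ[ℚ] K) O) {x y x' y' : E →ₐ[ℚ] K} (hx : x ∈ O) (hy : y ∈ O) (hx' : x' ∈ O)
    (hy' : y' ∈ O) {g : K ≃ₐ[ℚ] K} (h1 : g • res x = res x') (h2 : g • res y = res y') :
    ∃ k : K ≃ₐ[ℚ] K, k • x = x' ∧ k • y = y' := by
  have hcc : ∀ v : E →ₐ[ℚ] K, conjugation K • (conjugation K • v) = v :=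
    smul_smul_c conj_mul_self
  have key : ∀ g : K ≃ₐ[ℚ] K, g • x = x' → g • res y = res y' → g • y = y' := by
    intro g h1 h2
    have hN : inN O g := by
      rw [inN_iff hS hx, h1]
      exact hx'
    rw [← res_smul] at h2
    rcases res_eq h2.symm with h3 | h3
    · exact h3
    · exfalso
      have h4 := hN y hy
      rw [h3] at h4
      exact (hO y').mp h4 hy'
  rw [← res_smul] at h1
  rcases res_eq h1.symm with h3 | h3
  · exact ⟨g, h3, key g h3 h2⟩
  · have h4 : (conjugation K * g) • x = x' := by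
      rw [mul_smul, h3, hcc]
    refine ⟨conjugation K * g, h4, key _ h4 ?_⟩
    rw [mul_smul, h2, ← res_smul, res_c]

lemma hom2_iff (hne : Nonempty (E →ₐ[ℚ] K)) {O : Finset (E →ₐ[ℚ] K)}
    (hO : IsHalf (conjugation K) O) (hS : Side (K ≃ₐ[ℚ] K) O) :
    Hom2 (K ≃ₐ[ℚ] K) O ↔ Hom2F (maximalRealSubfield E) K := by
  have hrep : ∀ f : maximalRealSubfield E →ₐ[ℚ] K, ∃ x ∈ O, res x = f := by
    intro f
    obtain ⟨x, hx⟩ := res_surj hne f
    by_cases h : x ∈ O
    · exact ⟨x, h, hx⟩
    · exact ⟨conjugation K • x, (hO x).mpr h, by rw [res_c, hx]⟩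
  have hinj : ∀ x ∈ O, ∀ y ∈ O, x ≠ y → res x ≠ res y := by
    intro x hx y hy hxy h
    rcases res_eq h with h1 | h1
    · exact hxy h1.symm
    · rw [h1] at hy
      exact (hO x).mp hy hx
  constructor
  · intro h a b a' b' hab hab'
    obtain ⟨x, hx, rfl⟩ := hrep a
    obtain ⟨y, hy, rfl⟩ := hrep b
    obtain ⟨x', hx', rfl⟩ := hrep a'
    obtain ⟨y', hy', rfl⟩ := hrep b'
    obtain ⟨g, hg⟩ := h x hx y hy x' hx' y' hy' (fun h => hab (by rw [h])) (fun h => hab' (by rw [h]))
    refine ⟨g, ?_⟩
    rcases hg with ⟨h1, h2⟩ | ⟨h1, h2⟩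
    · left
      rw [← h1, ← h2]
      exact ⟨rfl, rfl⟩
    · right
      rw [← h1, ← h2]
      exact ⟨rfl, rfl⟩
  · intro h x hx y hy x' hx' y' hy' hxy hxy'
    obtain ⟨g, hg⟩ := h _ _ _ _ (hinj x hx y hy hxy) (hinj x' hx' y' hy' hxy')
    rcases hg with ⟨h1, h2⟩ | ⟨h1, h2⟩
    · obtain ⟨k, hk⟩ := lift_pair hO hS hx hy hx' hy' h1 h2
      exact ⟨k, Or.inl hk⟩
    · obtain ⟨k, hk⟩ := lift_pair hO hS hx hy hy' hx' h1 h2
      exact ⟨k, Or.inr hk⟩

lemma trans2_iff (hne : Nonempty (E →ₐ[ℚ] K)) {O : Finset (E →ₐ[ℚ] K)}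
    (hO : IsHalf (conjugation K) O) (hS : Side (K ≃ₐ[ℚ] K) O) :
    Trans2 (K ≃ₐ[ℚ] K) O ↔ Trans2F (maximalRealSubfield E) K := by
  have hrep : ∀ f : maximalRealSubfield E →ₐ[ℚ] K, ∃ x ∈ O, res x = f := by
    intro f
    obtain ⟨x, hx⟩ := res_surj hne f
    by_cases h : x ∈ O
    · exact ⟨x, h, hx⟩
    · exact ⟨conjugation K • x, (hO x).mpr h, by rw [res_c, hx]⟩
  have hinj : ∀ x ∈ O, ∀ y ∈ O, x ≠ y → res x ≠ res y := by
    intro x hx y hy hxy h
    rcases res_eq h with h1 | h1
    · exact hxy h1.symm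
    · rw [h1] at hy
      exact (hO x).mp hy hx
  constructor
  · intro h a b a' b' hab hab'
    obtain ⟨x, hx, rfl⟩ := hrep a
    obtain ⟨y, hy, rfl⟩ := hrep b
    obtain ⟨x', hx', rfl⟩ := hrep a'
    obtain ⟨y', hy', rfl⟩ := hrep b'
    obtain ⟨g, h1, h2⟩ := h x hx y hy x' hx' y' hy' (fun h => hab (by rw [h]))
      (fun h => hab' (by rw [h]))
    refine ⟨g, ?_⟩
    rw [← h1, ← h2]
    exact ⟨rfl, rfl⟩
  · intro h x hx y hy x' hx' y' hy' hxy hxy'
    obtain ⟨g, h1, h2⟩ := h _ _ _ _ (hinj x hx y hy hxy) (hinj x' hx' y' hy' hxy')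
    exact lift_pair hO hS hx hy hx' hy' h1 h2

end cm

end Pool.Agent.J4.H53.Col
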