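import Pool.Agent.J4.H53.Col.AltGrp
import Pool.Agent.J4.H53.Col.PrimeField

/-!
# Groups which contain the alternating group
-/

set_option autoImplicit false

open scoped Classical
open NumberField

namespace Pool.Agent.J4.H53.Col

open Pool.Agent.Q11.CZ Pool.Agent.N770.CP

section grp

variable {G : Type} [Group G] {X Y : Type} [MulAction G X] [MulAction G Y] {c : G} {r : X → Y}

lemma two_trans [Fintype Y] (h3 : Has3 G Y) (hY : 4 ≤ Fintype.card Y) (i j i' j' : Y) (hij : i ≠ j)
    (hij' : i' ≠ j') : ∃ g : G, g • i = i' ∧ g • j = j' := by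
  have step1 : ∃ g : G, g • i = i' := by
    by_cases h : i = i'
    · exact ⟨1, by rw [one_smul, h]⟩
    · obtain ⟨k, hk⟩ := exists_out ({i, i'} : Finset Y) (lt_of_le_of_lt Finset.card_le_two
        (by omega))
      simp only [Finset.mem_insert, Finset.mem_singleton, not_or] at hk
      obtain ⟨g, hg, -⟩ := h3 i i' k h (Ne.symm hk.2) (Ne.symm hk.1)
      exact ⟨g, hg⟩
  obtain ⟨g, hg⟩ := step1
  have h1 : g • j ≠ i' := by
    intro h
    rw [← hg] at h
    exact hij (MulAction.injective g h).symm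
  by_cases h : g • j = j'
  · exact ⟨g, hg, h⟩
  · obtain ⟨k, hk⟩ := exists_out ({i', g • j, j'} : Finset Y) (lt_of_le_of_lt Finset.card_le_three
        (by omega))
    simp only [Finset.mem_insert, Finset.mem_singleton, not_or] at hk
    obtain ⟨s, s1, s2, s3, s4⟩ := h3 (g • j) j' k h (Ne.symm hk.2.2) (Ne.symm hk.2.1)
    refine ⟨s * g, ?_, ?_⟩
    · rw [mul_smul, hg]
      exact s4 i' (Ne.symm h1) hij' (Ne.symm hk.1)
    · rw [mul_smul, s1]

variable (C : Cover c r)

include C

/-- the translation of the action on pairs. -/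
lemma Cover.lift_pair {O : Finset X} (hO : IsHalf c O) (hS : Side G O) {x y x' y' : X}
    (hx : x ∈ O) (hy : y ∈ O) (hx' : x' ∈ O) (hy' : y' ∈ O) {g : G} (h1 : g • r x = r x')
    (h2 : g • r y = r y') : ∃ k : G, k • x = x' ∧ k • y = y' := by
  have key : ∀ g : G, g • x = x' → g • r y = r y' → g • y = y' := by
    intro g h1 h2
    have hN : inN O g := by
      rw [inN_iff hS hx, h1]
      exact hx'
    rw [← C.eqv] at h2
    rcases C.fib _ _ h2.symm with h3 | h3
    · exact h3
    · exfalso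
      have h4 := hN y hy
      rw [h3] at h4
      exact (hO y').mp h4 hy'
  rw [← C.eqv] at h1
  rcases C.fib _ _ h1.symm with h3 | h3
  · exact ⟨g, h3, key g h3 h2⟩
  · have h4 : (c * g) • x = x' := by
      rw [mul_smul, h3, C.cc]
    refine ⟨c * g, h4, key _ h4 ?_⟩
    rw [mul_smul, h2, C.cY]

lemma Cover.ne_of {x y : X} (h1 : y ≠ x) (h2 : y ≠ c • x) : r x ≠ r y := by
  intro h
  rcases C.fib _ _ h with h3 | h3
  · exact h1 h3
  · exact h2 h3

/-- if some pair is linked, all pairs are. -/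
lemma Cover.all_linked [Fintype Y] (h3 : Has3 G Y) (hY : 4 ≤ Fintype.card Y) {x y : X}
    (h1 : y ≠ x) (h2 : y ≠ c • x) (hl : ¬ ∃ k : G, k • x = x ∧ k • y = c • y) :
    AllLinked c X := by
  rintro x' y' h1' h2' ⟨k, hk1, hk2⟩
  obtain ⟨g, g1, g2⟩ := two_trans h3 hY _ _ _ _ (C.ne_of h1 h2) (C.ne_of h1' h2')
  apply hl
  refine ⟨g⁻¹ * k * g, ?_, ?_⟩
  · rw [mul_smul, mul_smul, inv_smul_eq_iff]
    rw [← C.eqv] at g1
    rcases C.fib _ _ g1.symm with h | h
    · rw [h, hk1]
    · rw [h, C.cg, hk1]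
  · rw [mul_smul, mul_smul, inv_smul_eq_iff, C.cg]
    rw [← C.eqv] at g2
    rcases C.fib _ _ g2.symm with h | h
    · rw [h, hk2]
    · rw [h, C.cg, hk2]

/-- **The main theorem, group theory.** -/
theorem Cover.df_eq [Fintype G] [Fintype X] [Fintype Y] (h3 : Has3 G Y) (hY : 5 ≤ Fintype.card Y)
    (x y : X) (g g' : G) (hgg : Subgroup.zpowers g = Subgroup.zpowers g') :
    df c x y g = df c x y g' := by
  by_cases h1 : y = x
  · rw [h1, df_self C.hc C.hc2 hgg]
  by_cases h2 : y = c • x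
  · rw [h2, df_c_right C.hc2, df_c_right C.hc2, df_self C.hc C.hc2 hgg]
  by_cases hl : ∃ k : G, k • x = x ∧ k • y = c • y
  · obtain ⟨k, h4, h5⟩ := hl
    rw [df_unlinked h4 h5, df_unlinked h4 h5]
  · have hL := C.all_linked h3 (by omega) h1 h2 hl
    obtain ⟨O, hO, hS⟩ := C.exists_side hL h3 hY
    refine single_of_trans2 C.hc C.hc2 hO hS ?_ x y g g' hgg
    intro a ha b hb a' ha' b' hb' hab hab'
    have hn : ∀ {u v : X}, u ∈ O → v ∈ O → u ≠ v → r u ≠ r v := by
      intro u v hu hv huv h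
      rcases C.fib _ _ h with h4 | h4
      · exact huv h4.symm
      · rw [h4] at hv
        exact (hO u).mp hv hu
    obtain ⟨k, k1, k2⟩ := two_trans h3 (by omega) _ _ _ _ (hn ha hb hab) (hn ha' hb' hab')
    exact C.lift_pair hO hS ha hb ha' hb' k1 k2

end grp

section field

variable {E K : Type} [Field E] [NumberField E] [Field K] [NumberField K]

open Pool.Agent.Results.MP_a2beea_nt.AveragedAndAbelian (conjugation act IsCMType)

/-- the embeddings of `E` cover those of the maximal real subfield. -/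
lemma cover_res [IsGalois ℚ K] [IsCMField E] [IsCMField K] (hne : Nonempty (E →ₐ[ℚ] K)) :
    Cover (G := K ≃ₐ[ℚ] K) (conjugation K) (res : (E →ₐ[ℚ] K) → _) where
  hc := conj_comm
  hc2 := conj_mul_self
  free := conj_free
  eqv := res_smul
  rc := res_c
  fib := fun _ _ h => res_eq h
  surj := fun f => res_surj hne f

end field

end Pool.Agent.J4.H53.Col
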