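import Pool.Agent.J4.H53.Col.AltMain

/-!
# Colmez's product formula for the CM extensions of the generic totally real fields

`E` is a CM field, `E⁺` its maximal real subfield, `n = [E⁺ : ℚ]`, and `K` a CM field, Galois over `ℚ`,
which contains the conjugates of `E`.  The notions `conjugation`, `act`, `IsCMType`, `a0` (Colmez's
function `a⁰_{E,ψ,Φ}`) and `avgSpan` (the span of `1` and of the sums of the functions
`A_Φ = ∑_{ψ ∈ Φ} a⁰_{E,ψ,Φ}` over all CM types of a field, for which the formula is the averaged formula of
Andreatta, Goren, Howard, Madapusi Pera and of Yuan, Zhang) are those of the starting file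
`AveragedAndAbelian`.

Theorem.  If `n ≥ 5` and the Galois group of the Galois closure of `E⁺`, as a group of permutations of
the `n` embeddings of `E⁺`, contains the alternating group, then `a⁰_{E,ψ,Φ}` is in `avgSpan` for ALL CM
types `Φ` of `E` and ALL embeddings `ψ`.

So Colmez's formula holds for all CM abelian varieties and all `ψ` if the maximal real subfield is
generic: there is no condition on the CM extension `E` of `E⁺`.  (Known were the `E` whose Galois group is
the full group of signed permutations.)  For `n = 4` this is false, for the field `E` with Galois group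
`SL₂(𝔽₃)`; for the heights `A_Φ` and `n = 4` see `OcticFields`, and for prime `n` see `PrimeDegree`.  The
alternating group cannot be replaced by a doubly transitive group: the group of the icosahedron has a
doubly transitive action of degree `6` and the corresponding CM fields of degree `12` have heights outside
of `avgSpan`.

The proof.  Two embeddings `x`, `y` of `E` with different restrictions to `E⁺` are linked if no element of
`G = Gal(K/ℚ)` fixes `x` and maps `y` to `c y`.  If there is no linked pair the numbers of the conjugates
of `g` which map `x` to `y` and to `c y` are equal.  If there is one, all pairs are linked, since the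
alternating group is doubly transitive, and an element which fixes the embeddings of `E⁺` acts as `1` or
`c`.  A cycle `(i j k)` has a lift to `G` whose cube is trivial on the embeddings of `E`; the lift fixes all
embeddings over the other indices, and for embeddings `x` over `i` and `y` over `j` the relation that the
lift of `(i j k)` maps `x` to `y` does not depend on `k`, because a fifth index exists.  The relation is an
equivalence relation which is invariant under `G` and has two classes, exchanged by `c`.  So the group of
`K` acts on the two classes (`E` contains an imaginary quadratic field), and the numbers above are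
determined by the numbers of the fixed points.
-/

set_option autoImplicit false

open NumberField
open Pool.Agent.Results.MP_a2beea_nt.AveragedAndAbelian

namespace Pool.Agent.J4.H53.Col.AltResult

open scoped Classical in
/-- **Main result.** -/
theorem result (E : Type) [Field E] [NumberField E] [IsCMField E]
    (hn : 5 ≤ Module.finrank ℚ (maximalRealSubfield E))
    (K : Type) [Field K] [NumberField K] [IsGalois ℚ K] [IsCMField K]
    (hK : Nonempty (E →ₐ[ℚ] K))
    (hA : ∀ σ ∈ alternatingGroup (maximalRealSubfield E →ₐ[ℚ] K),
      ∃ g : K ≃ₐ[ℚ] K, ∀ a, act g a = σ a) :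
    ∀ Φ : Finset (E →ₐ[ℚ] K), IsCMType Φ → ∀ ψ : E →ₐ[ℚ] K, a0 ψ Φ ∈ avgSpan K := by
  intro Φ hΦ ψ
  rw [avgSpan_eq, Pool.Agent.Q11.CZ.mem_avgSpan_iff]
  refine ⟨(a0_cm ψ hΦ).1, (a0_cm ψ hΦ).2, ?_⟩
  rw [a0_eq]
  have C := Pool.Agent.J4.H53.Col.cover_res hK
  have hne : Nonempty (maximalRealSubfield E →ₐ[ℚ] K) := by
    obtain ⟨x⟩ := hK
    exact ⟨Pool.Agent.J4.H53.Col.res x⟩
  have hcard : Fintype.card (maximalRealSubfield E →ₐ[ℚ] K) =
      Module.finrank ℚ (maximalRealSubfield E) :=
    Pool.Agent.J4.H53.Col.card_emb (maximalRealSubfield E) hne
  have h3 : Pool.Agent.J4.H53.Col.Has3 (K ≃ₐ[ℚ] K) (maximalRealSubfield E →ₐ[ℚ] K) := by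
    intro i j k hij hjk hik
    have h1 : Equiv.swap i j * Equiv.swap j k ∈
        alternatingGroup (maximalRealSubfield E →ₐ[ℚ] K) := by
      rw [Equiv.Perm.mem_alternatingGroup, map_mul, Equiv.Perm.sign_swap hij,
        Equiv.Perm.sign_swap hjk]
      rfl
    obtain ⟨g, hg⟩ := hA _ h1
    refine ⟨g, ?_, ?_, ?_, ?_⟩
    · refine (hg i).trans ?_
      rw [Equiv.Perm.mul_apply, Equiv.swap_apply_of_ne_of_ne hij hik, Equiv.swap_apply_left]
    · refine (hg j).trans ?_
      rw [Equiv.Perm.mul_apply, Equiv.swap_apply_left,
        Equiv.swap_apply_of_ne_of_ne (Ne.symm hik) (Ne.symm hjk)]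
    · refine (hg k).trans ?_
      rw [Equiv.Perm.mul_apply, Equiv.swap_apply_right, Equiv.swap_apply_right]
    · intro l h1 h2 h3
      refine (hg l).trans ?_
      rw [Equiv.Perm.mul_apply, Equiv.swap_apply_of_ne_of_ne h2 h3,
        Equiv.swap_apply_of_ne_of_ne h1 h2]
  refine Pool.Agent.J4.H53.Col.zinv_a0_of C.hc C.hc2 (isHalf hΦ) (fun y g g' hgg => ?_)
  exact C.df_eq h3 (by rw [hcard]; exact hn) ψ y g g' hgg

end Pool.Agent.J4.H53.Col.AltResult
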