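import Mathlib

/-!
# Eigenvectors of circulant matrices of prime order
-/

set_option autoImplicit false

namespace Pool.Agent.J4.H53.Col

open Polynomial

variable {p : ℕ} [hp : Fact p.Prime]

/-- a primitive root of unity -/
noncomputable def zt (p : ℕ) : ℂ := Complex.exp (2 * Real.pi * Complex.I / p)

lemma zt_prim : IsPrimitiveRoot (zt p) p := Complex.isPrimitiveRoot_exp p hp.out.ne_zero

/-- the powers. -/
noncomputable def ch (i : ZMod p) : ℂ := zt p ^ i.val

lemma ch_add (i j : ZMod p) : ch (i + j) = ch i * ch j := by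
  unfold ch
  rw [ZMod.val_add, ← pow_add]
  conv_rhs => rw [← Nat.div_add_mod (i.val + j.val) p, pow_add, pow_mul, zt_prim.pow_eq_one,
    one_pow, one_mul]

lemma ch_ne (i : ZMod p) : ch i ≠ 0 := pow_ne_zero _ (zt_prim.ne_zero hp.out.ne_zero)

/-- **Rational linear relations between the powers.** -/
theorem rel_const (a : ZMod p → ℚ) (h : ∑ i, (a i : ℂ) * ch i = 0) (i j : ZMod p) : a i = a j := by
  set P : ℚ[X] := ∑ i ∈ Finset.range p, C (a (i : ZMod p)) * X ^ i with hP
  have hcoeff : ∀ n, P.coeff n = if n < p then a (n : ZMod p) else 0 := by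
    intro n
    rw [hP, finsetSum_coeff]
    simp only [coeff_C_mul, coeff_X_pow, mul_ite, mul_one, mul_zero]
    rw [Finset.sum_ite_eq]
    simp only [Finset.mem_range]
  have hev : aeval (zt p) P = 0 := by
    rw [hP, map_sum, ← h]
    rw [← Fin.sum_univ_eq_sum_range
      (fun i => aeval (zt p) (C (a (i : ZMod p)) * X ^ i : ℚ[X])) p]
    obtain ⟨q, hq⟩ : ∃ q, p = q + 1 := ⟨p - 1, by have := hp.out.pos; omega⟩
    subst hq
    refine Finset.sum_congr rfl (fun x _ => ?_)
    rw [map_mul, map_pow, aeval_X, aeval_C]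
    unfold ch
    have h1 : ((x : ℕ) : ZMod (q + 1)) = x := Fin.cast_val_eq_self x
    rw [h1]
    rfl
  have hdvd : cyclotomic p ℚ ∣ P := by
    rw [cyclotomic_eq_minpoly_rat zt_prim hp.out.pos]
    exact minpoly.dvd ℚ _ hev
  obtain ⟨Q, hQ⟩ := hdvd
  have hdeg : (cyclotomic p ℚ).natDegree = p - 1 := by
    rw [natDegree_cyclotomic, Nat.totient_prime hp.out]
  have hQc : ∃ q : ℚ, Q = C q := by
    by_cases hQ0 : Q = 0
    · exact ⟨0, by rw [hQ0, C_0]⟩
    · refine ⟨Q.coeff 0, eq_C_of_natDegree_eq_zero ?_⟩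
      have h1 : P.natDegree = (p - 1) + Q.natDegree := by
        rw [hQ, natDegree_mul (cyclotomic_ne_zero p ℚ) hQ0, hdeg]
      have h2 : P.natDegree ≤ p - 1 := by
        rw [natDegree_le_iff_coeff_eq_zero]
        intro n hn
        rw [hcoeff, if_neg (by omega)]
      omega
  obtain ⟨q, rfl⟩ := hQc
  have hall : ∀ i : ZMod p, a i = q := by
    intro i
    have h1 := hcoeff i.val
    rw [if_pos (ZMod.val_lt i), ZMod.natCast_zmod_val] at h1
    rw [← h1, hQ, coeff_mul_C, cyclotomic_prime, finsetSum_coeff]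
    simp only [coeff_X_pow]
    rw [Finset.sum_ite_eq, if_pos (Finset.mem_range.mpr (ZMod.val_lt i)), one_mul]
  rw [hall, hall]

/-- **Eigenvectors of circulant matrices.** -/
theorem circ_const (s w : ZMod p → ℚ) (hs0 : s 0 = 0) {m : ZMod p} (hm : s m ≠ 0)
    (h : ∀ i, ∑ k, s k * w (i + k) = (∑ k, s k) * w i) (i j : ZMod p) : w i = w j := by
  set lam : ℚ := ∑ k, s k with hlam
  have h1 : (∑ k, (s k : ℂ) * ch (-k) - lam) * ∑ i, (w i : ℂ) * ch i = 0 := by
    rw [sub_mul, sub_eq_zero, Finset.sum_mul, Finset.mul_sum]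
    have e1 : ∀ k : ZMod p, (s k : ℂ) * ch (-k) * ∑ i, (w i : ℂ) * ch i =
        ∑ i, (s k : ℂ) * (w (i + k) : ℂ) * ch i := by
      intro k
      rw [Finset.mul_sum]
      refine (Fintype.sum_equiv (Equiv.addRight k) _ _ (fun i => ?_)).symm
      simp only [Equiv.coe_addRight]
      rw [ch_add]
      have : ch k * ch (-k) = 1 := by
        rw [← ch_add, add_neg_cancel]
        unfold ch
        rw [ZMod.val_zero, pow_zero]
      linear_combination (-(s k : ℂ) * (w (i + k) : ℂ) * ch i) * this
    rw [Finset.sum_congr rfl (fun k _ => e1 k), Finset.sum_comm]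
    refine Finset.sum_congr rfl (fun i _ => ?_)
    rw [← Finset.sum_mul, ← mul_assoc]
    congr 1
    have := h i
    exact_mod_cast this
  have h2 : ∑ k, (s k : ℂ) * ch (-k) - lam ≠ 0 := by
    intro h3
    have h4 : ∑ k, ((s (-k) - if k = 0 then lam else 0 : ℚ) : ℂ) * ch k = 0 := by
      rw [← h3]
      push_cast
      simp only [sub_mul]
      rw [Finset.sum_sub_distrib]
      congr 1
      · refine Fintype.sum_equiv (Equiv.neg (ZMod p)) _ _ (fun k => ?_)
        simp only [Equiv.neg_apply, neg_neg]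
      · rw [Finset.sum_eq_single (0 : ZMod p)]
        · simp [ch]
        · intro b _ hb
          simp [hb]
        · intro h; exact absurd (Finset.mem_univ _) h
    have h5 := rel_const _ h4
    have hall : ∀ k : ZMod p, k ≠ 0 → s k = - lam := by
      intro k hk
      have h6 := h5 (-k) 0
      rw [if_neg (neg_ne_zero.mpr hk), if_pos rfl, neg_neg, neg_zero, hs0] at h6
      linarith
    have hcard : lam = - (p - 1) * lam := by
      conv_lhs => rw [hlam, ← Finset.add_sum_erase _ _ (Finset.mem_univ (0 : ZMod p)), hs0]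
      rw [Finset.sum_congr rfl (fun k hk => hall k (Finset.ne_of_mem_erase hk)), Finset.sum_const,
        Finset.card_erase_of_mem (Finset.mem_univ _), Finset.card_univ, ZMod.card, nsmul_eq_mul,
        Nat.cast_sub hp.out.one_le]
      push_cast
      ring
    have hp0 : (p : ℚ) ≠ 0 := by exact_mod_cast hp.out.ne_zero
    have hl0 : lam = 0 := by
      have : (p : ℚ) * lam = 0 := by linear_combination hcard
      exact (mul_eq_zero.mp this).resolve_left hp0
    have hm0 : m ≠ 0 := fun h => hm (h ▸ hs0)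
    apply hm
    rw [hall m hm0, hl0, neg_zero]
  exact rel_const w ((mul_eq_zero.mp h1).resolve_left h2) i j

end Pool.Agent.J4.H53.Col
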