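import Mathlib

/-!
# Integral matrices with integral eigenvalues and Frobenius
-/

set_option autoImplicit false

open scoped Classical

namespace Pool.Agent.J4.H53.Col

open Polynomial

variable {X : Type} [Fintype X]

/-- a matrix over `ZMod p` with distinct eigenvalues `0`, `a`, `b` is equal to its `p`-th power. -/
lemma pow_prime_eq {p : ℕ} [Fact p.Prime] (M : Matrix X X (ZMod p)) {a b : ZMod p} (ha : a ≠ 0)
    (hb : b ≠ 0) (hab : a ≠ b)
    (h : M * (M - Matrix.scalar X a) * (M - Matrix.scalar X b) = 0) : M ^ p = M := by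
  have h1 : ∀ u : ZMod p, (Polynomial.X - C u : (ZMod p)[X]) ∣ Polynomial.X ^ p - Polynomial.X := by
    intro u
    rw [dvd_iff_isRoot, IsRoot, eval_sub, eval_pow, eval_X, ZMod.pow_card, sub_self]
  have hco : ∀ {u v : ZMod p}, u ≠ v → IsCoprime (Polynomial.X - C u : (ZMod p)[X])
      (Polynomial.X - C v) := by
    intro u v huv
    exact isCoprime_X_sub_C_of_isUnit_sub (sub_ne_zero.mpr huv).isUnit
  have h2 : ((Polynomial.X - C 0) * (Polynomial.X - C a) * (Polynomial.X - C b) : (ZMod p)[X]) ∣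
      Polynomial.X ^ p - Polynomial.X := by
    refine IsCoprime.mul_dvd ?_ (IsCoprime.mul_dvd (hco (Ne.symm ha)) (h1 0) (h1 a)) (h1 b)
    exact IsCoprime.mul_left (hco (Ne.symm hb)) (hco hab)
  obtain ⟨q, hq⟩ := h2
  have h3 := congrArg (aeval M) hq
  rw [map_sub, map_pow, aeval_X, map_mul, map_mul, map_mul, map_sub, map_sub, map_sub, aeval_X,
    aeval_C, aeval_C, aeval_C, map_zero, sub_zero] at h3
  have h4 : M * (M - algebraMap (ZMod p) (Matrix X X (ZMod p)) a) *
      (M - algebraMap (ZMod p) (Matrix X X (ZMod p)) b) = 0 := h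
  rw [h4, zero_mul, sub_eq_zero] at h3
  exact h3

/-- **Frobenius.**  `M` is an integral matrix with eigenvalues `0`, `a`, `b`, and `Q` a matrix which
commutes with `M`.  Then `tr (M Q ^ p) = tr (M Q)` modulo `p` for almost all primes `p`. -/
theorem trace_frob (M Q : Matrix X X ℤ) (hMQ : Commute M Q) {a b : ℤ}
    (h : M * (M - Matrix.scalar X a) * (M - Matrix.scalar X b) = 0) {p : ℕ} (hp : p.Prime)
    (hpa : ¬ (p : ℤ) ∣ a) (hpb : ¬ (p : ℤ) ∣ b) (hpab : ¬ (p : ℤ) ∣ a - b) :
    (p : ℤ) ∣ (M * Q ^ p).trace - (M * Q).trace := by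
  have hfact : Fact p.Prime := ⟨hp⟩
  set φ : Matrix X X ℤ →+* Matrix X X (ZMod p) := (Int.castRingHom (ZMod p)).mapMatrix with hφ
  have hφa : ∀ N : Matrix X X ℤ, φ N = N.map (Int.castRingHom (ZMod p)) := fun _ => rfl
  have hsc : ∀ u : ℤ, φ (Matrix.scalar X u) = Matrix.scalar X (u : ZMod p) := by
    intro u
    ext i j
    rw [hφa, Matrix.map_apply, Matrix.scalar_apply, Matrix.scalar_apply, Matrix.diagonal_apply,
      Matrix.diagonal_apply]
    split_ifs
    · simp
    · simp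
  have htr : ∀ N : Matrix X X ℤ, (φ N).trace = ((N.trace : ℤ) : ZMod p) := by
    intro N
    rw [Matrix.trace, Matrix.trace, Int.cast_sum]
    rfl
  have h1 : φ M * (φ M - Matrix.scalar X (a : ZMod p)) * (φ M - Matrix.scalar X (b : ZMod p)) = 0 := by
    rw [← hsc, ← hsc, ← map_sub, ← map_sub, ← map_mul, ← map_mul, h, map_zero]
  have ha : (a : ZMod p) ≠ 0 := by rwa [Ne, ZMod.intCast_zmod_eq_zero_iff_dvd]
  have hb : (b : ZMod p) ≠ 0 := by rwa [Ne, ZMod.intCast_zmod_eq_zero_iff_dvd]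
  have hab : (a : ZMod p) ≠ (b : ZMod p) := by
    intro h
    apply hpab
    rw [← ZMod.intCast_zmod_eq_zero_iff_dvd, Int.cast_sub, h, sub_self]
  have h2 := pow_prime_eq (φ M) ha hb hab h1
  have h3 : (φ (M * Q)) ^ p = φ (M * Q ^ p) := by
    rw [← map_pow, hMQ.mul_pow, map_mul, map_mul, map_pow, h2]
  have h4 := ZMod.trace_pow_card (φ (M * Q))
  rw [h3, htr, htr, ZMod.pow_card] at h4
  rw [← ZMod.intCast_zmod_eq_zero_iff_dvd, Int.cast_sub, h4, sub_self]

/-- traces of idempotent real matrices. -/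
lemma trace_idem (P : Matrix X X ℝ) (hP : P * P = P) : ∃ k : ℕ, P.trace = k := by
  set f := Matrix.toLin' P with hf
  have h1 : IsIdempotentElem f := by
    unfold IsIdempotentElem
    rw [hf, Module.End.mul_eq_comp, ← Matrix.toLin'_mul, hP]
  have h2 := (LinearMap.IsIdempotentElem.isProj_range f h1).trace
  refine ⟨Module.finrank ℝ f.range, ?_⟩
  rw [← h2, hf, Matrix.trace_toLin'_eq]

end Pool.Agent.J4.H53.Col
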