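import Mathlib

/-!
# Finite checks on signed permutations of four points

Signed permutations of four points are maps `Fin 8 → Fin 8` which commute with `x ↦ x + 4`.
-/

set_option autoImplicit false

namespace Pool.Agent.J4.H53.Col

/-- the map with `f (x + 4) = f x + 4` and the given values at `0, 1, 2, 3`. -/
def sp (a b c d : Fin 8) : Fin 8 → Fin 8 := ![a, b, c, d, a + 4, b + 4, c + 4, d + 4]

/-- no two of `a, b, c, d` are equal modulo `4`. -/
def valid (a b c d : Fin 8) : Prop :=
  a ≠ b ∧ a ≠ b + 4 ∧ a ≠ c ∧ a ≠ c + 4 ∧ a ≠ d ∧ a ≠ d + 4 ∧ b ≠ c ∧ b ≠ c + 4 ∧ b ≠ d ∧ b ≠ d + 4 ∧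
    c ≠ d ∧ c ≠ d + 4

instance (a b c d : Fin 8) : Decidable (valid a b c d) := by unfold valid; infer_instance

set_option maxRecDepth 100000 in
theorem orders : ∀ a b c d : Fin 8, valid a b c d →
    (∀ x, (sp a b c d)^[4] x = x) ∨ (∀ x, (sp a b c d)^[6] x = x) ∨
      ∀ x, (sp a b c d)^[4] x = x + 4 := by
  decide +kernel

/-- the value of a word in `x ↦ x + 1` (`false`) and `k` (`true`). -/
def ev (k : Fin 8 → Fin 8) : List Bool → Fin 8 → Fin 8
  | [], x => x
  | true :: w, x => k (ev k w x)
  | false :: w, x => ev k w x + 1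

/-- some words. -/
def wordList : List (List Bool) :=
  [[true], [true, true], [true, false, true], [true, false, false, true],
    [true, false, false, false, true], [true, true, false, true, true],
    [true, true, false, false, true], [true, true, false, false, false, true, true],
    [true, false, true, true, false, true],
    [true, false, false, true, false, true, false, false, true],
    [true, true, true, true, false, false, true, true]]

set_option maxRecDepth 100000 in
theorem words : ∀ b c d : Fin 8, valid 0 b c d →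
    (∀ x, sp 0 b c d x = x) ∨ (∀ x, sp 0 b c d x = -x) ∨
      ∃ w ∈ wordList, (∀ x, ev (sp 0 b c d) w (x + 1) = ev (sp 0 b c d) w x + 3) ∨
        ∀ x, ev (sp 0 b c d) w (x + 1) = ev (sp 0 b c d) w x + 5 := by
  decide +kernel

/-- the number of the steps inside a half-system is odd. -/
theorem steps : ∀ S : Finset (Fin 8), (∀ x, x + 4 ∈ S ↔ x ∉ S) →
    ((S.filter fun x => x + 1 ∈ S).card = 1 ∨ (S.filter fun x => x + 1 ∈ S).card = 3) := by
  decide +kernel

end Pool.Agent.J4.H53.Col
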