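import Pool.Agent.J4.H53.Col.OctFin
import Pool.Agent.N770.CP.Fields2

/-!
# Groups of signed permutations of four points
-/

set_option autoImplicit false

open scoped Classical

namespace Pool.Agent.J4.H53.Col

open Pool.Agent.Q11.CZ

lemma eq_sp {f : Fin 8 → Fin 8} (h : ∀ x, f (x + 4) = f x + 4) :
    f = sp (f 0) (f 1) (f 2) (f 3) := by
  have h4 : f 4 = f 0 + 4 := by rw [← h]; rfl
  have h5 : f 5 = f 1 + 4 := by rw [← h]; rfl
  have h6 : f 6 = f 2 + 4 := by rw [← h]; rfl
  have h7 : f 7 = f 3 + 4 := by rw [← h]; rfl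
  funext x
  fin_cases x
  · rfl
  · rfl
  · rfl
  · rfl
  · exact h4
  · exact h5
  · exact h6
  · exact h7

lemma valid_of_inj {f : Fin 8 → Fin 8} (hf : Function.Injective f) (h : ∀ x, f (x + 4) = f x + 4) :
    valid (f 0) (f 1) (f 2) (f 3) := by
  unfold valid
  rw [← h 1, ← h 2, ← h 3]
  refine ⟨?_, ?_, ?_, ?_, ?_, ?_, ?_, ?_, ?_, ?_, ?_, ?_⟩ <;>
  · intro h1
    have h2 := hf h1
    revert h2
    decide

section

variable {G : Type} [Group G] {X : Type} [MulAction G X] {c : G}

/-- A labelling of the points by `Fin 8`. -/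
structure Lab (c : G) (X : Type) [MulAction G X] where
  /-- the labelling -/
  e : Fin 8 ≃ X
  add4 : ∀ i, e (i + 4) = c • e i

variable (L : Lab c X)

/-- the map on the labels. -/
def Lab.f (g : G) (i : Fin 8) : Fin 8 := L.e.symm (g • L.e i)

lemma Lab.e_f (g : G) (i : Fin 8) : L.e (L.f g i) = g • L.e i := by
  unfold Lab.f
  rw [Equiv.apply_symm_apply]

lemma Lab.f_inj (g : G) : Function.Injective (L.f g) := by
  intro i j h
  have h1 := congrArg L.e h
  rw [L.e_f, L.e_f] at h1
  exact L.e.injective (MulAction.injective g h1)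

lemma Lab.f_add (hc : ∀ g, c * g = g * c) (g : G) (i : Fin 8) : L.f g (i + 4) = L.f g i + 4 := by
  apply L.e.injective
  rw [L.e_f, L.add4, L.add4, L.e_f, ← mul_smul, ← mul_smul, hc]

lemma Lab.f_one (i : Fin 8) : L.f 1 i = i := by
  apply L.e.injective
  rw [L.e_f, one_smul]

lemma Lab.f_mul (g k : G) (i : Fin 8) : L.f (g * k) i = L.f g (L.f k i) := by
  apply L.e.injective
  rw [L.e_f, L.e_f, L.e_f, mul_smul]

lemma Lab.f_pow (g : G) (n : ℕ) (i : Fin 8) : L.f (g ^ n) i = (L.f g)^[n] i := by
  induction n generalizing i with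
  | zero => rw [pow_zero, L.f_one]; rfl
  | succ n ih => rw [pow_succ, L.f_mul, ih, Function.iterate_succ_apply]

lemma Lab.f_c (i : Fin 8) : L.f c i = i + 4 := by
  apply L.e.injective
  rw [L.e_f, L.add4]

lemma Lab.ext [FaithfulSMul G X] {g k : G} (h : ∀ i, L.f g i = L.f k i) : g = k := by
  refine FaithfulSMul.eq_of_smul_eq_smul (α := X) (fun x => ?_)
  have h1 := congrArg L.e (h (L.e.symm x))
  rwa [L.e_f, L.e_f, Equiv.apply_symm_apply] at h1

include L in
/-- **The orders of the elements.** -/
lemma Lab.orders [FaithfulSMul G X] (hc : ∀ g, c * g = g * c) (g : G) :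
    g ^ 4 = 1 ∨ g ^ 6 = 1 ∨ g ^ 4 = c := by
  have h1 := Col.orders _ _ _ _ (valid_of_inj (L.f_inj g) (L.f_add hc g))
  rw [← eq_sp (L.f_add hc g)] at h1
  rcases h1 with h | h | h
  · left
    apply L.ext
    intro i
    rw [L.f_pow, L.f_one, h]
  · right; left
    apply L.ext
    intro i
    rw [L.f_pow, L.f_one, h]
  · right; right
    apply L.ext
    intro i
    rw [L.f_pow, L.f_c, h]

/-- a labelling exists. -/
lemma exists_lab [Fintype X] (hc2 : c * c = 1) (hfree : ∀ x : X, c • x ≠ x)
    (hX : Fintype.card X = 8) : Nonempty (Lab c X) := by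
  obtain ⟨Φ, hΦ⟩ := exists_half (X := X) hc2 hfree
  rw [mem_halves] at hΦ
  have hcard : Φ.card = 4 := by
    have h1 : (Finset.univ.filter fun x : X => x ∉ Φ).card = Φ.card := by
      refine Finset.card_bij' (fun x _ => c • x) (fun x _ => c • x) ?_ ?_ ?_ ?_
      · intro x hx
        simp only [Finset.mem_filter, Finset.mem_univ, true_and] at hx
        exact (hΦ x).mpr hx
      · intro x hx
        simp only [Finset.mem_filter, Finset.mem_univ, true_and]
        intro h
        exact (hΦ x).mp h hx
      · intro x _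
        exact smul_smul_c hc2 x
      · intro x _
        exact smul_smul_c hc2 x
    have h2 := Finset.card_filter_add_card_filter_not (s := (Finset.univ : Finset X))
      (fun x : X => x ∈ Φ)
    rw [h1, Finset.card_univ, hX] at h2
    have h3 : (Finset.univ.filter fun x : X => x ∈ Φ) = Φ := by ext x; simp
    rw [h3] at h2
    omega
  let q : Fin 4 ≃ Φ := (Finset.equivFinOfCardEq hcard).symm
  let u : Fin 8 → X := fun i => if h : i.val < 4 then (q ⟨i.val, h⟩ : X) else
    c • (q ⟨i.val - 4, by omega⟩ : X)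
  have hadd : ∀ i, u (i + 4) = c • u i := by
    intro i
    by_cases h : i.val < 4
    · have h1 : (i + 4).val = i.val + 4 := by
        rw [Fin.val_add]
        change (i.val + 4) % 8 = _
        omega
      have h2 : ¬ (i + 4).val < 4 := by omega
      simp only [u, dif_pos h, dif_neg h2]
      congr 3
      exact Fin.ext (by simp only; omega)
    · have h1 : (i + 4).val = i.val - 4 := by
        rw [Fin.val_add]
        change (i.val + 4) % 8 = _
        omega
      have h2 : (i + 4).val < 4 := by omega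
      simp only [u, dif_neg h, dif_pos h2]
      rw [smul_smul_c hc2]
      congr 2
      exact Fin.ext (by simp only; omega)
  have hmem : ∀ i : Fin 8, u i ∈ Φ ↔ i.val < 4 := by
    intro i
    by_cases h : i.val < 4
    · simp only [u, dif_pos h, h, iff_true]
      exact (q _).2
    · simp only [u, dif_neg h, h, iff_false]
      intro h1
      exact (hΦ _).mp h1 (q _).2
  have hinj : Function.Injective u := by
    intro i j hij
    have h1 : i.val < 4 ↔ j.val < 4 := by rw [← hmem, ← hmem, hij]
    by_cases h : i.val < 4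
    · have h' : j.val < 4 := h1.mp h
      simp only [u, dif_pos h, dif_pos h'] at hij
      have h2 := congrArg Fin.val (q.injective (Subtype.ext hij))
      exact Fin.ext h2
    · have h' : ¬ j.val < 4 := fun h2 => h (h1.mpr h2)
      simp only [u, dif_neg h, dif_neg h'] at hij
      have h2 := congrArg Fin.val (q.injective (Subtype.ext (MulAction.injective c hij)))
      simp only at h2
      exact Fin.ext (by omega)
  have hbij : Function.Bijective u := by
    rw [Fintype.bijective_iff_injective_and_card]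
    exact ⟨hinj, by rw [hX, Fintype.card_fin]⟩
  exact ⟨⟨Equiv.ofBijective u hbij, hadd⟩⟩

/-- the labelling by the powers of `h`. -/
lemma exists_lab_pow [Fintype X] (hc2 : c * c = 1) (hfree : ∀ x : X, c • x ≠ x)
    (hX : Fintype.card X = 8) {h : G} (hh : h ^ 4 = c) :
    ∃ L : Lab c X, ∀ i, L.f h i = i + 1 := by
  have hne : Nonempty X := by
    rw [← Fintype.card_pos_iff, hX]; norm_num
  obtain ⟨x⟩ := hne
  have h8 : h ^ 8 = 1 := by
    rw [show (8 : ℕ) = 4 + 4 from rfl, pow_add, hh, hc2]
  let u : Fin 8 → X := fun i => h ^ i.val • x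
  have hmod : ∀ n : ℕ, h ^ (n % 8) = h ^ n := by
    intro n
    conv_rhs => rw [← Nat.div_add_mod n 8, pow_add, pow_mul, h8, one_pow, one_mul]
  have hone : ∀ i : Fin 8, u (i + 1) = h • u i := by
    intro i
    have h1 : (i + 1).val = (i.val + 1) % 8 := by
      rw [Fin.val_add]
      rfl
    simp only [u]
    rw [h1, hmod, pow_succ', mul_smul]
  have hfour : ∀ i : Fin 8, u (i + 4) = c • u i := by
    intro i
    have h1 : (i + 4).val = (i.val + 4) % 8 := by
      rw [Fin.val_add]
      rfl
    simp only [u]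
    rw [h1, hmod, add_comm i.val 4, pow_add, hh, mul_smul]
  have hc3 : c ^ 3 = c := by
    rw [pow_succ, pow_two, hc2, one_mul]
  have key : ∀ m : ℕ, 0 < m → m < 8 → h ^ m • x ≠ x := by
    intro m hm0 hm8 hfix
    have hpow : ∀ t : ℕ, (h ^ m) ^ t • x = x := by
      intro t
      induction t with
      | zero => rw [pow_zero, one_smul]
      | succ t ih => rw [pow_succ, mul_smul, hfix, ih]
    have hc' : ∀ t : ℕ, (h ^ m) ^ t = c → False := by
      intro t ht
      have := hpow t
      rw [ht] at this
      exact hfree x this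
    interval_cases m
    · exact hc' 4 (by rw [pow_one, hh])
    · exact hc' 2 (by rw [← pow_mul, hh])
    · exact hc' 4 (by rw [← pow_mul, show 3 * 4 = 4 * 3 from rfl, pow_mul, hh, hc3])
    · exact hc' 1 (by rw [pow_one, hh])
    · exact hc' 4 (by rw [← pow_mul, show 5 * 4 = 8 * 2 + 4 from rfl, pow_add, pow_mul, h8, one_pow,
        one_mul, hh])
    · exact hc' 2 (by rw [← pow_mul, show 6 * 2 = 4 * 3 from rfl, pow_mul, hh, hc3])
    · exact hc' 4 (by rw [← pow_mul, show 7 * 4 = 8 * 3 + 4 from rfl, pow_add, pow_mul, h8, one_pow,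
        one_mul, hh])
  have hinj : Function.Injective u := by
    have hlt : ∀ i j : Fin 8, i.val < j.val → u i ≠ u j := by
      intro i j hij he
      simp only [u] at he
      have h1 : h ^ j.val = h ^ i.val * h ^ (j.val - i.val) := by
        rw [← pow_add]
        congr 1
        omega
      rw [h1, mul_smul] at he
      exact key (j.val - i.val) (by omega) (by omega) (MulAction.injective _ he).symm
    intro i j he
    by_contra hne
    rcases Nat.lt_or_gt_of_ne (fun h => hne (Fin.ext h)) with h1 | h1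
    · exact hlt i j h1 he
    · exact hlt j i h1 he.symm
  have hbij : Function.Bijective u := by
    rw [Fintype.bijective_iff_injective_and_card]
    exact ⟨hinj, by rw [hX, Fintype.card_fin]⟩
  let L : Lab c X := ⟨Equiv.ofBijective u hbij, hfour⟩
  have hLe : ∀ i, L.e i = u i := fun _ => rfl
  refine ⟨L, ?_⟩
  intro i
  apply L.e.injective
  rw [L.e_f, hLe, hLe, hone]

/-- the element of the group given by a word. -/
def wd (h k : G) : List Bool → G
  | [] => 1
  | true :: w => k * wd h k w
  | false :: w => h * wd h k w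

lemma Lab.f_wd {h : G} (hL : ∀ i, L.f h i = i + 1) (k : G) (w : List Bool) (i : Fin 8) :
    L.f (wd h k w) i = ev (L.f k) w i := by
  induction w generalizing i with
  | nil => exact L.f_one i
  | cons b w ih =>
    cases b
    · change L.f (h * wd h k w) i = ev (L.f k) w i + 1
      rw [L.f_mul, hL, ih]
    · change L.f (k * wd h k w) i = L.f k (ev (L.f k) w i)
      rw [L.f_mul, ih]

/-- **The trichotomy.** -/
theorem trichotomy [Fintype X] [FaithfulSMul G X] (hc : ∀ g, c * g = g * c) (hc2 : c * c = 1)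
    (hfree : ∀ x : X, c • x ≠ x) (hX : Fintype.card X = 8) {h : G} (hh : h ^ 4 = c) :
    (∃ w : G, w * h = h ^ 3 * w ∨ w * h = h ^ 5 * w) ∨ (∀ k : G, ∃ i : ℕ, k = h ^ i) ∨
      ∃ t : G, t * t = 1 ∧ t * h * t = h⁻¹ ∧ (∀ i : ℕ, t ≠ h ^ i) ∧
        ∀ k : G, ∃ i : ℕ, k = h ^ i ∨ k = h ^ i * t := by
  obtain ⟨L, hL⟩ := exists_lab_pow hc2 hfree hX hh
  have hLn : ∀ (n : ℕ) (i : Fin 8), (L.f (h ^ n) i).val = (i.val + n) % 8 := by
    intro n
    induction n with
    | zero =>
      intro i
      rw [pow_zero, L.f_one]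
      omega
    | succ n ih =>
      intro i
      rw [pow_succ, L.f_mul, ih, hL, Fin.val_add]
      change ((i.val + 1) % 8 + n) % 8 = _
      omega
  by_cases hw : ∃ w : G, w * h = h ^ 3 * w ∨ w * h = h ^ 5 * w
  · exact Or.inl hw
  right
  -- the elements which fix the label `0`
  have hfix : ∀ k : G, L.f k 0 = 0 → k = 1 ∨ ∀ i, L.f k i = - i := by
    intro k hk
    have h1 := valid_of_inj (L.f_inj k) (L.f_add hc k)
    have h2 := eq_sp (L.f_add hc k)
    rw [hk] at h1 h2
    have h3 := words _ _ _ h1
    rw [← h2] at h3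
    rcases h3 with h3 | h3 | ⟨w, -, h3⟩
    · left
      apply L.ext
      intro i
      rw [h3, L.f_one]
    · right
      exact h3
    · exfalso
      apply hw
      refine ⟨wd h k w, ?_⟩
      rcases h3 with h3 | h3
      · left
        apply L.ext
        intro i
        rw [L.f_mul, L.f_mul, hL, L.f_wd hL, L.f_wd hL, h3]
        apply Fin.ext
        rw [hLn, Fin.val_add]
        rfl
      · right
        apply L.ext
        intro i
        rw [L.f_mul, L.f_mul, hL, L.f_wd hL, L.f_wd hL, h3]
        apply Fin.ext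
        rw [hLn, Fin.val_add]
        rfl
  -- every element can be moved to one which fixes `0`
  have hmove : ∀ k : G, ∃ i : ℕ, ∃ k' : G, L.f k' 0 = 0 ∧ k = h ^ i * k' := by
    intro k
    refine ⟨(L.f k 0).val, (h ^ (L.f k 0).val)⁻¹ * k, ?_, by rw [mul_inv_cancel_left]⟩
    have h1 : L.f (h ^ (L.f k 0).val) 0 = L.f k 0 := by
      apply Fin.ext
      rw [hLn]
      have := (L.f k 0).isLt
      change (0 + (L.f k 0).val) % 8 = _
      omega
    apply L.e.injective
    rw [L.e_f, mul_smul, inv_smul_eq_iff, ← L.e_f, ← L.e_f, h1]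
  by_cases ht : ∃ t : G, ∀ i, L.f t i = - i
  · right
    obtain ⟨t, ht⟩ := ht
    refine ⟨t, ?_, ?_, ?_, ?_⟩
    · apply L.ext
      intro i
      rw [L.f_mul, ht, ht, neg_neg, L.f_one]
    · rw [eq_inv_iff_mul_eq_one]
      apply L.ext
      intro i
      rw [L.f_mul, L.f_mul, L.f_mul, hL, ht, hL, ht, L.f_one]
      revert i
      decide
    · intro i hti
      have h0 := congrArg Fin.val (ht 0)
      have h1 := congrArg Fin.val (ht 1)
      rw [hti, hLn] at h0 h1
      change (0 + i) % 8 = 0 at h0
      change (1 + i) % 8 = 7 at h1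
      omega
    · intro k
      obtain ⟨i, k', hk', hkk⟩ := hmove k
      refine ⟨i, ?_⟩
      rcases hfix k' hk' with h1 | h1
      · left
        rw [hkk, h1, mul_one]
      · right
        have h2 : k' = t := L.ext (fun i => by rw [h1, ht])
        rw [hkk, h2]
  · left
    intro k
    obtain ⟨i, k', hk', hkk⟩ := hmove k
    refine ⟨i, ?_⟩
    rcases hfix k' hk' with h1 | h1
    · rw [hkk, h1, mul_one]
    · exact absurd ⟨k', h1⟩ ht

end

end Pool.Agent.J4.H53.Col
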