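import Pool.Agent.J4.H53.Col.OctGrp

/-!
# The sums of Colmez's functions over half-systems of eight points
-/

set_option autoImplicit false

open scoped Classical commutatorElement

namespace Pool.Agent.J4.H53.Col

open Pool.Agent.Q11.CZ

variable {G : Type} [Group G] [Fintype G] {X : Type} [MulAction G X] {c : G}

section
variable (hc : ∀ g, c * g = g * c) (hc2 : c * c = 1)

include hc in
/-- the value at `c g⁻¹`. -/
lemma T_c_inv {Φ : Finset X} (hΦ : IsHalf c Φ) (g : G) :
    T Φ (c * g⁻¹) = Φ.card - T Φ g := by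
  have h1 := T_add hc hΦ g⁻¹
  rw [T_inv] at h1
  linarith

include hc in
lemma T_c {Φ : Finset X} (hΦ : IsHalf c Φ) (g : G) :
    T Φ (c * g) = Φ.card - T Φ g := by
  have h1 := T_add hc hΦ g
  linarith

omit [Fintype G] [MulAction G X] in
lemma pow3 {h : G} (hh : h ^ 4 = c) : h ^ 3 = c * h⁻¹ := by
  rw [← hh, pow_succ h 3, mul_inv_cancel_right]

omit [Fintype G] [MulAction G X] in
lemma pow5 {h : G} (hh : h ^ 4 = c) : h ^ 5 = c * h := by
  rw [← hh, pow_succ h 4]

omit [Fintype G] [MulAction G X] in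
include hc2 in
lemma pow8 {h : G} (hh : h ^ 4 = c) : h ^ 8 = 1 := by
  rw [show (8 : ℕ) = 4 + 4 from rfl, pow_add, hh, hc2]

include hc in
lemma T_half {Φ : Finset X} (hΦ : IsHalf c Φ) {h w : G} (hh : h ^ 4 = c)
    (hw : w * h = h ^ 3 * w ∨ w * h = h ^ 5 * w) : T Φ h = Φ.card / 2 := by
  have hcl : ∀ k : G, w * h = k * w → T Φ k = T Φ h := by
    intro k hk
    have h1 : k = (w⁻¹)⁻¹ * h * w⁻¹ := by
      rw [inv_inv, hk, mul_inv_cancel_right]
    rw [h1]
    exact T_isClass Φ h w⁻¹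
  rcases hw with hw | hw
  · have h1 := hcl _ hw
    rw [pow3 hh, T_c_inv hc hΦ] at h1
    linarith
  · have h1 := hcl _ hw
    rw [pow5 hh, T_c hc hΦ] at h1
    linarith

/-- the generators of a group of order dividing four or six. -/
lemma T_gen {Φ : Finset X} {g g' : G} (hg : g ^ 4 = 1 ∨ g ^ 6 = 1)
    (h : Subgroup.zpowers g = Subgroup.zpowers g') : T Φ g = T Φ g' := by
  rcases Pool.Agent.N770.CP.gen_of_exponent hg h.symm with h1 | h1
  · rw [h1]
  · rw [h1, T_inv]

omit [Fintype G] in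
lemma pow_eq_of_zpowers [Finite G] {g g' : G} (h : Subgroup.zpowers g = Subgroup.zpowers g')
    {n : ℕ} (hn : g' ^ n = 1) : g ^ n = 1 := by
  have h1 : g ∈ Subgroup.zpowers g' := h ▸ Subgroup.mem_zpowers g
  rw [← mem_powers_iff_mem_zpowers, Submonoid.mem_powers_iff] at h1
  obtain ⟨i, rfl⟩ := h1
  rw [← pow_mul, mul_comm, pow_mul, hn, one_pow]

variable [Fintype X] [FaithfulSMul G X] (hfree : ∀ x : X, c • x ≠ x) (hX : Fintype.card X = 8)

include hc hc2 hfree hX in
/-- the order of the generators. -/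
lemma gen_four (hc1 : c ≠ 1) {g g' : G} (h : Subgroup.zpowers g = Subgroup.zpowers g')
    (hg : g ^ 4 = c) : g' ^ 4 = c := by
  obtain ⟨L⟩ := exists_lab (X := X) hc2 hfree hX
  rcases L.orders hc g' with h1 | h1 | h1
  · exfalso
    have h2 := pow_eq_of_zpowers h h1
    exact hc1 (hg.symm.trans h2)
  · exfalso
    have h2 := pow_eq_of_zpowers h h1
    have h3 : g ^ 8 = 1 := pow8 hc2 hg
    have h4 : g ^ 2 = 1 := by
      rw [show (8 : ℕ) = 6 + 2 from rfl, pow_add, h2, one_mul] at h3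
      exact h3
    apply hc1
    rw [← hg, show (4 : ℕ) = 2 * 2 from rfl, pow_mul, h4, one_pow]
  · exact h1

include hc hc2 hfree hX in
/-- **The first theorem.** -/
theorem zinv_oct (hc1 : c ≠ 1)
    (hw : ∀ h : G, h ^ 4 = c → ∃ w : G, w * h = h ^ 3 * w ∨ w * h = h ^ 5 * w)
    {Φ : Finset X} (hΦ : IsHalf c Φ) : ZInv (T Φ : G → ℚ) := by
  intro g g' h
  obtain ⟨L⟩ := exists_lab (X := X) hc2 hfree hX
  rcases L.orders hc g with h1 | h1 | h1
  · exact T_gen (Or.inl h1) h
  · exact T_gen (Or.inr h1) h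
  · have h2 := gen_four hc hc2 hfree hX hc1 h h1
    obtain ⟨w, hw1⟩ := hw g h1
    obtain ⟨w', hw2⟩ := hw g' h2
    rw [T_half hc hΦ h1 hw1, T_half hc hΦ h2 hw2]

omit [Fintype G] [FaithfulSMul G X] in
include hc2 hX in
/-- the size of a half-system. -/
lemma half_card {Φ : Finset X} (hΦ : IsHalf c Φ) : Φ.card = 4 := by
  have h1 : (Finset.univ.filter fun x : X => x ∉ Φ).card = Φ.card := by
    refine Finset.card_bij' (fun x _ => c • x) (fun x _ => c • x) ?_ ?_ ?_ ?_
    · intro x hx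
      simp only [Finset.mem_filter, Finset.mem_univ, true_and] at hx
      exact (hΦ x).mpr hx
    · intro x hx
      simp only [Finset.mem_filter, Finset.mem_univ, true_and]
      intro h
      exact (hΦ x).mp h hx
    · intro x _
      exact smul_smul_c hc2 x
    · intro x _
      exact smul_smul_c hc2 x
  have h2 := Finset.card_filter_add_card_filter_not (s := (Finset.univ : Finset X))
    (fun x : X => x ∈ Φ)
  rw [h1, Finset.card_univ, hX] at h2
  have h3 : (Finset.univ.filter fun x : X => x ∈ Φ) = Φ := by ext x; simp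
  rw [h3] at h2
  omega

omit [Fintype G] [FaithfulSMul G X] in
include hc2 hfree hX in
/-- the number of the steps inside a half-system is one or three. -/
lemma R_odd {Φ : Finset X} (hΦ : IsHalf c Φ) {h : G} (hh : h ^ 4 = c) :
    R Φ h = 1 ∨ R Φ h = 3 := by
  obtain ⟨L, hL⟩ := exists_lab_pow hc2 hfree hX hh
  have hLe : ∀ i, L.e (i + 1) = h • L.e i := fun i => by rw [← hL, L.e_f]
  set S : Finset (Fin 8) := Finset.univ.filter fun i => L.e i ∈ Φ with hS
  have hmem : ∀ i, i ∈ S ↔ L.e i ∈ Φ := fun i => by simp [hS]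
  have h1 := steps S (fun i => by rw [hmem, hmem, L.add4]; exact hΦ _)
  have h2 : (S.filter fun i => i + 1 ∈ S).card = (Φ.filter fun x => h • x ∈ Φ).card := by
    refine Finset.card_bij' (fun i _ => L.e i) (fun x _ => L.e.symm x) ?_ ?_ ?_ ?_
    · intro i hi
      rw [Finset.mem_filter] at hi ⊢
      rw [hmem, hmem, hLe] at hi
      exact hi
    · intro x hx
      rw [Finset.mem_filter] at hx ⊢
      rw [hmem, hmem, hLe, Equiv.apply_symm_apply]
      exact hx
    · intro i _
      exact L.e.symm_apply_apply i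
    · intro x _
      exact L.e.apply_symm_apply x
  unfold R
  rw [← h2]
  rcases h1 with h1 | h1
  · left; rw [h1]; norm_num
  · right; rw [h1]; norm_num

omit [FaithfulSMul G X] in
include hc2 hfree hX in
/-- the value in the dihedral case. -/
lemma T_odd {h t : G} (hh : h ^ 4 = c) (ht2 : t * t = 1) (hth : t * h * t = h⁻¹)
    (hall : ∀ k : G, ∃ i : ℕ, k = h ^ i ∨ k = h ^ i * t) {Φ : Finset X} (hΦ : IsHalf c Φ) :
    T Φ h = 1 ∨ T Φ h = 3 := by
  have hti : t⁻¹ = t := by rw [inv_eq_iff_mul_eq_one, ht2]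
  have h1 : T Φ h = R Φ h := by
    rw [T_eq_cav]
    unfold cav
    have h2 : ∀ k ∈ (Finset.univ : Finset G), R Φ (k⁻¹ * h * k) = R Φ h := by
      intro k _
      obtain ⟨i, hk | hk⟩ := hall k
      · have h3 : k⁻¹ * h * k = h := by
          rw [hk, mul_assoc, ← pow_succ', pow_succ, inv_mul_cancel_left]
        rw [h3]
      · have h3 : k⁻¹ * h * k = h⁻¹ := by
          have h4 : (h ^ i)⁻¹ * h * h ^ i = h := by
            rw [mul_assoc, ← pow_succ', pow_succ, inv_mul_cancel_left]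
          calc k⁻¹ * h * k = t⁻¹ * ((h ^ i)⁻¹ * h * h ^ i) * t := by rw [hk]; group
            _ = h⁻¹ := by rw [h4, hti, hth]
        rw [h3, R_inv]
    rw [Finset.sum_congr rfl h2, Finset.sum_const, Finset.card_univ, nsmul_eq_mul, mul_comm,
      mul_div_assoc, div_self card_ne, mul_one]
  rw [h1]
  exact R_odd hc2 hfree hX hΦ hh

omit [Fintype G] [Fintype X] [FaithfulSMul G X] [MulAction G X] in
include hc2 in
/-- the elements with `g ^ 4 = c` in the dihedral case. -/
lemma odd_of_four (hc1 : c ≠ 1) {h t : G} (hh : h ^ 4 = c) (ht2 : t * t = 1)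
    (hth : t * h * t = h⁻¹) (hall : ∀ k : G, ∃ i : ℕ, k = h ^ i ∨ k = h ^ i * t) {g : G}
    (hg : g ^ 4 = c) : g = h ∨ g = h⁻¹ ∨ g = c * h ∨ g = c * h⁻¹ := by
  have h8 : h ^ 8 = 1 := pow8 hc2 hh
  have hti : t⁻¹ = t := by rw [inv_eq_iff_mul_eq_one, ht2]
  obtain ⟨i, hi | hi⟩ := hall g
  · have h1 : g = h ^ (i % 8) := by
      rw [hi]
      conv_lhs => rw [← Nat.div_add_mod i 8, pow_add, pow_mul, h8, one_pow, one_mul]
    have h2 : i % 8 < 8 := Nat.mod_lt _ (by norm_num)
    generalize i % 8 = m at h1 h2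
    interval_cases m
    · exfalso; apply hc1; rw [← hg, h1, pow_zero, one_pow]
    · left; rw [h1, pow_one]
    · exfalso; apply hc1; rw [← hg, h1, ← pow_mul, h8]
    · right; right; right; rw [h1, pow3 hh]
    · exfalso; apply hc1; rw [← hg, h1, ← pow_mul, show 4 * 4 = 8 * 2 from rfl, pow_mul, h8, one_pow]
    · right; right; left; rw [h1, pow5 hh]
    · exfalso; apply hc1; rw [← hg, h1, ← pow_mul, show 6 * 4 = 8 * 3 from rfl, pow_mul, h8, one_pow]
    · right; left
      rw [h1, eq_inv_iff_mul_eq_one, ← pow_succ, h8]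
  · exfalso
    have h1 : t * h ^ i * t = (h ^ i)⁻¹ := by
      rw [← inv_pow, ← hth]
      have h2 := conj_pow (i := i) (a := t) (b := h)
      rw [hti] at h2
      exact h2.symm
    have h2 : g * g = 1 := by
      rw [hi]
      calc h ^ i * t * (h ^ i * t) = h ^ i * (t * h ^ i * t) := by simp only [mul_assoc]
        _ = 1 := by rw [h1, mul_inv_cancel]
    apply hc1
    have h3 : g ^ 2 = 1 := by rw [pow_two, h2]
    rw [← hg, show (4 : ℕ) = 2 * 2 from rfl, pow_mul, h3, one_pow]

include hc hc2 hfree hX in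
/-- **The dihedral case, part one.** -/
theorem dihedral_pair (hc1 : c ≠ 1) {h t : G} (hh : h ^ 4 = c) (ht2 : t * t = 1)
    (hth : t * h * t = h⁻¹) (hall : ∀ k : G, ∃ i : ℕ, k = h ^ i ∨ k = h ^ i * t)
    {Φ Φ' : Finset X} (hΦ : IsHalf c Φ) (hΦ' : IsHalf c Φ') :
    ZInv (T Φ - T Φ' : G → ℚ) ∨ ZInv (T Φ + T Φ' : G → ℚ) := by
  obtain ⟨L⟩ := exists_lab (X := X) hc2 hfree hX
  have hcard := half_card hc2 hX hΦ
  have hcard' := half_card hc2 hX hΦ'
  have hval : ∀ g : G, g ^ 4 = c → (T Φ g = T Φ h ∧ T Φ' g = T Φ' h) ∨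
      (T Φ g = 4 - T Φ h ∧ T Φ' g = 4 - T Φ' h) := by
    intro g hg
    rcases odd_of_four hc2 hc1 hh ht2 hth hall hg with h1 | h1 | h1 | h1
    · left; rw [h1]; exact ⟨rfl, rfl⟩
    · left; rw [h1, T_inv, T_inv]; exact ⟨rfl, rfl⟩
    · right; rw [h1, T_c hc hΦ, T_c hc hΦ', hcard, hcard']; norm_num
    · right; rw [h1, T_c_inv hc hΦ, T_c_inv hc hΦ', hcard, hcard']; norm_num
  by_cases he : T Φ h = T Φ' h
  · left
    intro g g' hgg
    simp only [Pi.sub_apply]
    rcases L.orders hc g with h1 | h1 | h1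
    · rw [T_gen (Φ := Φ) (Or.inl h1) hgg, T_gen (Φ := Φ') (Or.inl h1) hgg]
    · rw [T_gen (Φ := Φ) (Or.inr h1) hgg, T_gen (Φ := Φ') (Or.inr h1) hgg]
    · have h2 := gen_four hc hc2 hfree hX hc1 hgg h1
      have hz : ∀ g : G, g ^ 4 = c → T Φ g - T Φ' g = 0 := by
        intro g hg
        rcases hval g hg with ⟨e1, e2⟩ | ⟨e1, e2⟩
        · rw [e1, e2, he, sub_self]
        · rw [e1, e2, he, sub_self]
      rw [hz g h1, hz g' h2]
  · right
    have h4 : T Φ h + T Φ' h = 4 := by
      rcases T_odd hc2 hfree hX hh ht2 hth hall hΦ with e1 | e1 <;>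
        rcases T_odd hc2 hfree hX hh ht2 hth hall hΦ' with e2 | e2
      · exact absurd (e1.trans e2.symm) he
      · rw [e1, e2]; norm_num
      · rw [e1, e2]; norm_num
      · exact absurd (e1.trans e2.symm) he
    intro g g' hgg
    simp only [Pi.add_apply]
    rcases L.orders hc g with h1 | h1 | h1
    · rw [T_gen (Φ := Φ) (Or.inl h1) hgg, T_gen (Φ := Φ') (Or.inl h1) hgg]
    · rw [T_gen (Φ := Φ) (Or.inr h1) hgg, T_gen (Φ := Φ') (Or.inr h1) hgg]
    · have h2 := gen_four hc hc2 hfree hX hc1 hgg h1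
      have hz : ∀ g : G, g ^ 4 = c → T Φ g + T Φ' g = 4 := by
        intro g hg
        rcases hval g hg with ⟨e1, e2⟩ | ⟨e1, e2⟩
        · rw [e1, e2, h4]
        · rw [e1, e2]; linarith
      rw [hz g h1, hz g' h2]

omit [FaithfulSMul G X] in
include hc hc2 hfree hX in
/-- **The dihedral case, part two.** -/
theorem dihedral_not_twist {h t : G} (hh : h ^ 4 = c) (ht2 : t * t = 1)
    (hth : t * h * t = h⁻¹) (hall : ∀ k : G, ∃ i : ℕ, k = h ^ i ∨ k = h ^ i * t)
    (hG : Nat.card G = 16)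
    {Φ : Finset X} (hΦ : IsHalf c Φ) : ¬ Twist (T Φ : G → ℚ) := by
  intro htw
  have hti : t⁻¹ = t := by rw [inv_eq_iff_mul_eq_one, ht2]
  have hz : h ^ 2 ∈ commutator G := by
    have h1 : h ^ 2 = ⁅h, t⁆ := by
      rw [commutatorElement_def, hti]
      calc h ^ 2 = h * (h⁻¹)⁻¹ := by rw [inv_inv, pow_two]
        _ = h * (t * h * t)⁻¹ := by rw [hth]
        _ = h * (t⁻¹ * h⁻¹ * t⁻¹) := by group
        _ = h * t * h⁻¹ * t := by rw [hti]; group
    rw [h1]
    exact Subgroup.commutator_mem_commutator (Subgroup.mem_top _) (Subgroup.mem_top _)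
  have h1 := htw 3 (by rw [hG]; norm_num) h (h ^ 2) hz
  have e1 : h * h ^ 2 = h ^ 3 := by rw [← pow_succ']
  have e2 : (h ^ 3) ^ 3 = h := by
    rw [← pow_mul, show 3 * 3 = 8 + 1 from rfl, pow_add, pow8 hc2 hh, one_mul, pow_one]
  rw [e1, e2, pow3 hh, T_c_inv hc hΦ, half_card hc2 hX hΦ] at h1
  rcases T_odd hc2 hfree hX hh ht2 hth hall hΦ with e | e <;> rw [e] at h1 <;> norm_num at h1

end

section iso

omit [Fintype G] in
/-- from the generators to the dihedral group. -/
theorem iso_of_gen {h t : G} (h8 : h ^ 8 = 1) (h4 : h ^ 4 ≠ 1) (ht2 : t * t = 1)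
    (hth : t * h * t = h⁻¹) (hne : ∀ i : ℕ, t ≠ h ^ i)
    (hall : ∀ k : G, ∃ i : ℕ, k = h ^ i ∨ k = h ^ i * t) :
    Nonempty (G ≃* DihedralGroup 8) := by
  have hti : t⁻¹ = t := by rw [inv_eq_iff_mul_eq_one, ht2]
  have hmod : ∀ n : ℕ, h ^ (n % 8) = h ^ n := by
    intro n
    conv_rhs => rw [← Nat.div_add_mod n 8, pow_add, pow_mul, h8, one_pow, one_mul]
  have hadd : ∀ i j : ZMod 8, h ^ (i + j).val = h ^ i.val * h ^ j.val := by
    intro i j
    rw [ZMod.val_add, hmod, pow_add]
  have hneg : ∀ i : ZMod 8, h ^ (-i).val = (h ^ i.val)⁻¹ := by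
    intro i
    rw [eq_inv_iff_mul_eq_one, ← hadd, neg_add_cancel, ZMod.val_zero, pow_zero]
  have hconj : ∀ n : ℕ, t * h ^ n * t = (h ^ n)⁻¹ := by
    intro n
    rw [← inv_pow, ← hth]
    have h2 := conj_pow (i := n) (a := t) (b := h)
    rw [hti] at h2
    exact h2.symm
  have hconj' : ∀ n : ℕ, h ^ n * t = t * (h ^ n)⁻¹ := by
    intro n
    rw [← hconj n]
    calc h ^ n * t = (t * t) * (h ^ n * t) := by rw [ht2, one_mul]
      _ = t * (t * h ^ n * t) := by simp only [mul_assoc]
  let φ : DihedralGroup 8 →* G :=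
    { toFun := fun x => match x with
        | DihedralGroup.r i => h ^ i.val
        | DihedralGroup.sr i => t * h ^ i.val
      map_one' := by
        rw [DihedralGroup.one_def]
        change h ^ (0 : ZMod 8).val = 1
        rw [ZMod.val_zero, pow_zero]
      map_mul' := by
        rintro (i | i) (j | j)
        · rw [DihedralGroup.r_mul_r]
          exact hadd i j
        · rw [DihedralGroup.r_mul_sr]
          change t * h ^ (j - i).val = h ^ i.val * (t * h ^ j.val)
          rw [← mul_assoc, hconj', mul_assoc, ← hneg, ← hadd]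
          congr 3
          ring
        · rw [DihedralGroup.sr_mul_r]
          change t * h ^ (i + j).val = t * h ^ i.val * h ^ j.val
          rw [hadd, mul_assoc]
        · rw [DihedralGroup.sr_mul_sr]
          change h ^ (j - i).val = t * h ^ i.val * (t * h ^ j.val)
          rw [← mul_assoc, hconj, ← hneg, ← hadd]
          congr 2
          ring }
  have hφr : ∀ i, φ (DihedralGroup.r i) = h ^ i.val := fun _ => rfl
  have hφs : ∀ i, φ (DihedralGroup.sr i) = t * h ^ i.val := fun _ => rfl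
  have hinj : Function.Injective φ := by
    rw [injective_iff_map_eq_one]
    rintro (i | i) hi
    · rw [hφr] at hi
      have hlt : i.val < 8 := ZMod.val_lt i
      have : i.val = 0 := by
        by_contra hne0
        have hdvd : orderOf h ∣ 8 := orderOf_dvd_of_pow_eq_one h8
        have hdvd' : orderOf h ∣ i.val := orderOf_dvd_of_pow_eq_one hi
        have h5 : ¬ orderOf h ∣ 4 := fun h6 => h4 (orderOf_dvd_iff_pow_eq_one.mp h6)
        have h7 : orderOf h = 8 := by
          have := Nat.le_of_dvd (by norm_num) hdvd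
          interval_cases orderOf h <;> omega
        rw [h7] at hdvd'
        have := Nat.le_of_dvd (by omega) hdvd'
        omega
      have h0 : i = 0 := by
        rwa [ZMod.val_eq_zero] at this
      rw [h0, DihedralGroup.r_zero]
    · exfalso
      rw [hφs] at hi
      apply hne (-i).val
      rw [hneg, eq_inv_iff_mul_eq_one, hi]
  have hsurj : Function.Surjective φ := by
    intro k
    obtain ⟨i, hi | hi⟩ := hall k
    · refine ⟨DihedralGroup.r (i : ZMod 8), ?_⟩
      rw [hφr, ZMod.val_natCast, hmod, hi]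
    · refine ⟨DihedralGroup.sr (-(i : ZMod 8)), ?_⟩
      rw [hφs, hneg, ZMod.val_natCast, hmod, hi, hconj']
  exact ⟨(MulEquiv.ofBijective φ ⟨hinj, hsurj⟩).symm⟩

lemma center_dihedral : ∀ x : DihedralGroup 8, (∀ y, x * y = y * x) → x = 1 ∨ x = DihedralGroup.r 4 := by
  decide +kernel

lemma all_dihedral : ∀ x : DihedralGroup 8, ∃ i : Fin 8,
    x = (DihedralGroup.r 1) ^ i.val ∨ x = (DihedralGroup.r 1) ^ i.val * DihedralGroup.sr 0 := by
  decide +kernel

omit [Fintype G] in
/-- from the dihedral group to the generators. -/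
theorem gen_of_iso (hc : ∀ g, c * g = g * c) (hc1 : c ≠ 1) (φ : G ≃* DihedralGroup 8) :
    ∃ h t : G, h ^ 4 = c ∧ t * t = 1 ∧ t * h * t = h⁻¹ ∧
      ∀ k : G, ∃ i : ℕ, k = h ^ i ∨ k = h ^ i * t := by
  refine ⟨φ.symm (DihedralGroup.r 1), φ.symm (DihedralGroup.sr 0), ?_, ?_, ?_, ?_⟩
  · have h1 : φ c = 1 ∨ φ c = DihedralGroup.r 4 := by
      refine center_dihedral _ (fun y => ?_)
      obtain ⟨g, rfl⟩ := φ.surjective y
      rw [← map_mul, hc, map_mul]
    rcases h1 with h1 | h1
    · exfalso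
      apply hc1
      apply φ.injective
      rw [h1, map_one]
    · apply φ.injective
      rw [map_pow, φ.apply_symm_apply, h1]
      decide
  · apply φ.injective
    rw [map_mul, φ.apply_symm_apply, map_one]
    decide
  · apply φ.injective
    rw [map_mul, map_mul, map_inv, φ.apply_symm_apply, φ.apply_symm_apply]
    decide
  · intro k
    obtain ⟨i, hi⟩ := all_dihedral (φ k)
    refine ⟨i.val, ?_⟩
    rcases hi with hi | hi
    · left
      apply φ.injective
      rw [map_pow, φ.apply_symm_apply, hi]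
    · right
      apply φ.injective
      rw [map_mul, map_pow, φ.apply_symm_apply, φ.apply_symm_apply, hi]

end iso

end Pool.Agent.J4.H53.Col
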