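import Pool.Agent.J4.H53.Col.PrimeSide

/-!
# The transitivity is necessary
-/

set_option autoImplicit false

open scoped Classical

namespace Pool.Agent.J4.H53.Col

open Pool.Agent.Q11.CZ Pool.Agent.N770.CP

variable {G : Type} [Group G] {X : Type} [MulAction G X] [Fintype X] {c : G} {O : Finset X}

/-- an element with trivial `p`-th power which moves a point gives a labelling of `O`. -/
lemma pLab_side (hc : ∀ g, c * g = g * c) (hc2 : c * c = 1) (hfree : ∀ x : X, c • x ≠ x)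
    (hO : IsHalf c O) (hS : Side G O) {p : ℕ} (hp : p.Prime) (hp2 : p ≠ 2)
    (hX : Fintype.card X = 2 * p) {σ : G} {x0 : X} (hσ : ∀ y : X, σ ^ p • y = y)
    (hx0 : σ • x0 ≠ x0) : ∃ L : PLab G X c p, (∀ i, L.pw i = σ ^ i.val) ∧ L.O = O := by
  obtain ⟨x1, hx1O, hx1⟩ : ∃ x1 ∈ O, σ • x1 ≠ x1 := by
    by_cases h : x0 ∈ O
    · exact ⟨x0, h, hx0⟩
    · refine ⟨c • x0, (hO x0).mpr h, ?_⟩
      intro h1
      apply hx0
      rw [← mul_smul, ← hc, mul_smul] at h1
      exact MulAction.injective c h1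
  obtain ⟨L, hL1, hL2⟩ := pLab_of_sigma hc hc2 hfree hp hp2 hX hσ hx1
  -- `σ` preserves `O`
  have hN : inN O σ := by
    by_contra hN
    have h1 : ∀ n : ℕ, inN O (σ ^ n) ↔ Even n := by
      intro n
      induction n with
      | zero => simp only [pow_zero, inN_one, Even.zero]
      | succ n ih =>
        rw [pow_succ, inN_mul hc hO hS hx1O, ih, Nat.even_add_one]
        tauto
    have h2 : inN O (σ ^ p) := by
      rw [inN_iff hS hx1O, hσ]
      exact hx1O
    rw [h1] at h2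
    exact hp2 ((Nat.Prime.even_iff hp).mp h2)
  have hu : ∀ i, L.u i ∈ O := by
    intro i
    have h1 := L.pw_u i 0
    rw [add_zero, hL2, hL1] at h1
    rw [← h1]
    have h2 : inN O (σ ^ i.val) := by
      have : σ ^ i.val ∈ NN hc hO hS hx1O := Subgroup.pow_mem _ ((mem_NN hc hO hS hx1O σ).mpr hN) _
      exact this
    exact h2 _ hx1O
  refine ⟨L, hL1, ?_⟩
  ext v
  rw [L.mem_O]
  constructor
  · rintro ⟨i, rfl⟩
    exact hu i
  · intro hv
    rcases L.cov v with h | ⟨i, rfl⟩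
    · exact h
    · exact absurd (hu i) ((hO _).mp hv)

/-- the commutator subgroup contains an element which permutes `O` cyclically. -/
lemma exists_comm [Finite G] [MulAction.IsPretransitive G X] (hc : ∀ g, c * g = g * c)
    (hc2 : c * c = 1) (hfree : ∀ x : X, c • x ≠ x)
    (hO : IsHalf c O) (hS : Side G O) {p : ℕ} (hp : p.Prime) (hp2 : p ≠ 2)
    (hX : Fintype.card X = 2 * p)
    (hz : ∃ z ∈ commutator G, ∃ x : X, z • x ≠ x ∧ z • x ≠ c • x) :
    ∃ z ∈ commutator G, (∀ y : X, z ^ p • y = y) ∧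
      ∃ L : PLab G X c p, (∀ i, L.pw i = z ^ i.val) ∧ L.O = O := by
  have hfact : Fact p.Prime := ⟨hp⟩
  obtain ⟨σ, x0, hσ, hx0⟩ := exists_sigma (G := G) hp hX
  obtain ⟨L, hL1, hL2⟩ := pLab_side hc hc2 hfree hO hS hp hp2 hX hσ hx0
  have hu : ∀ i, L.u i ∈ O := fun i => by
    rw [← hL2]
    exact (L.mem_O _).mpr ⟨i, rfl⟩
  have hcov : ∀ v ∈ O, ∃ i, v = L.u i := fun v hv => by
    rw [← hL2] at hv
    exact (L.mem_O v).mp hv
  -- an element of the commutator subgroup which moves a point of `O`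
  obtain ⟨z0, hz0, x, hx, hzx⟩ : ∃ z0 ∈ commutator G, ∃ x ∈ O, z0 • x ≠ x := by
    obtain ⟨z0, hz0, x, h1, h2⟩ := hz
    by_cases h : x ∈ O
    · exact ⟨z0, hz0, x, h, h1⟩
    · refine ⟨z0, hz0, c • x, (hO x).mpr h, ?_⟩
      intro h3
      apply h1
      rw [← mul_smul, ← hc, mul_smul] at h3
      exact MulAction.injective c h3
  have hzN : ∀ z ∈ commutator G, inN O z := fun z hz => inN_comm hc hO hS hx hz
  obtain ⟨a, ha⟩ := hcov x hx
  obtain ⟨b, hb⟩ := hcov (z0 • x) (hzN z0 hz0 x hx)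
  set d : ZMod p := b - a with hd
  have hd0 : d ≠ 0 := by
    intro h
    apply hzx
    rw [hb, ha]
    rw [hd, sub_eq_zero] at h
    rw [h]
  have hstep : ∀ i : ZMod p, ∃ z ∈ commutator G, z • L.u i = L.u (i + d) := by
    intro i
    refine ⟨L.pw (i - a) * z0 * (L.pw (i - a))⁻¹, (inferInstance :
      (commutator G).Normal).conj_mem z0 hz0 _, ?_⟩
    have h1 : (L.pw (i - a))⁻¹ • L.u i = x := by
      rw [inv_smul_eq_iff, ha, L.pw_u, sub_add_cancel]
    rw [mul_smul, mul_smul, h1, hb, L.pw_u, hd]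
    congr 1
    ring
  have hiter : ∀ n : ℕ, ∃ z ∈ commutator G, z • L.u 0 = L.u (n * d) := by
    intro n
    induction n with
    | zero => exact ⟨1, one_mem _, by rw [one_smul]; simp⟩
    | succ n ih =>
      obtain ⟨z, hz, hz'⟩ := ih
      obtain ⟨w, hw, hw'⟩ := hstep (n * d)
      refine ⟨w * z, mul_mem hw hz, ?_⟩
      rw [mul_smul, hz', hw']
      congr 1
      push_cast
      ring
  have hall : ∀ i : ZMod p, ∃ z ∈ commutator G, z • L.u 0 = L.u i := by
    intro i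
    obtain ⟨z, hz, hz'⟩ := hiter (i * d⁻¹).val
    refine ⟨z, hz, ?_⟩
    rw [hz', ZMod.natCast_zmod_val, mul_assoc, inv_mul_cancel₀ hd0, mul_one]
  -- the image in the group of permutations
  set φ : commutator G →* Equiv.Perm X :=
    (MulAction.toPermHom G X).comp (commutator G).subtype with hφ
  have hφa : ∀ (g : commutator G) (y : X), φ g y = (g : G) • y := fun _ _ => rfl
  have hdvd : p ∣ Fintype.card φ.range := by
    have h1 := MulAction.card_orbit_mul_card_stabilizer_eq_card_group φ.range (L.u 0)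
    have h2 : Fintype.card (MulAction.orbit φ.range (L.u 0)) = p := by
      have h3 : MulAction.orbit φ.range (L.u 0) = Set.range L.u := by
        ext v
        constructor
        · rintro ⟨⟨_, ⟨z, rfl⟩⟩, hv⟩
          have hv' : (z : G) • L.u 0 = v := hv
          obtain ⟨i, hi⟩ := hcov v (hv' ▸ hzN z z.2 _ (hu 0))
          exact ⟨i, hi.symm⟩
        · rintro ⟨i, rfl⟩
          obtain ⟨z, hz, hz'⟩ := hall i
          exact ⟨⟨φ ⟨z, hz⟩, ⟨_, rfl⟩⟩, hz'⟩
      rw [Fintype.card_congr (Equiv.setCongr h3), ← Fintype.card_congr (Equiv.ofInjective L.u L.inj),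
        ZMod.card]
    rw [h2] at h1
    exact Dvd.intro _ h1
  obtain ⟨⟨τ, z, rfl⟩, hτ⟩ := exists_prime_orderOf_dvd_card p hdvd
  have hτ' : orderOf (φ z) = p := by
    rw [← hτ]
    exact (orderOf_injective φ.range.subtype Subtype.val_injective ⟨φ z, z, rfl⟩)
  have hpow : φ z ^ p = 1 := by
    rw [← hτ']
    exact pow_orderOf_eq_one _
  have h1 : φ z ≠ 1 := by
    intro h
    rw [h, orderOf_one] at hτ'
    exact hp.one_lt.ne hτ'
  obtain ⟨x1, hx1⟩ : ∃ x1, φ z x1 ≠ x1 := by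
    by_contra h
    push Not at h
    exact h1 (Equiv.ext h)
  have hzp : ∀ y : X, (z : G) ^ p • y = y := by
    intro y
    have h2 : φ (z ^ p) y = y := by
      rw [map_pow, hpow]
      rfl
    exact h2
  refine ⟨z, z.2, hzp, ?_⟩
  exact pLab_side hc hc2 hfree hO hS hp hp2 hX hzp hx1

/-- a number prime to `n` in a residue class modulo `p`. -/
lemma exists_coprime {p n : ℕ} (hp : p.Prime) (hn : n ≠ 0) (hpn : p ∣ n) {d : ZMod p} (hd : d ≠ 0) :
    ∃ j : ℕ, j.Coprime n ∧ (j : ZMod p) = d := by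
  have hfact : Fact p.Prime := ⟨hp⟩
  have hn' : NeZero n := ⟨hn⟩
  obtain ⟨u, hu⟩ := ZMod.unitsMap_surjective hpn (Units.mk0 d hd)
  refine ⟨(u : ZMod n).val, ZMod.val_coe_unit_coprime u, ?_⟩
  have h1 := congrArg (fun v : (ZMod p)ˣ => (v : ZMod p)) hu
  simp only [Units.val_mk0] at h1
  rw [ZMod.unitsMap_def, Units.coe_map] at h1
  rw [← h1]
  change (((u : ZMod n).val : ℕ) : ZMod p) = ZMod.castHom hpn (ZMod p) (u : ZMod n)
  rw [ZMod.castHom_apply, ZMod.natCast_val]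

section main

variable [Fintype G] [MulAction.IsPretransitive G X]

/-- the main step: some conjugate of `z` maps `x` to `y`. -/
lemma cnt_pos_pow {p : ℕ}
    (hp : p.Prime) (hX : Fintype.card X = 2 * p) {z : G}
    (hzp : ∀ y : X, z ^ p • y = y) {L : PLab G X c p} (hL : ∀ i, L.pw i = z ^ i.val)
    (hLO : L.O = O) {x y : X} (hx : x ∈ O) (hy : y ∈ O) (hxy : x ≠ y) :
    ∃ j : ℕ, j.Coprime (Nat.card G) ∧ 0 < cnt x y (z ^ j) := by
  have hfact : Fact p.Prime := ⟨hp⟩
  have hpn : p ∣ Nat.card G := by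
    have hne : x ∈ (Finset.univ : Finset X) := Finset.mem_univ _
    have h1 := MulAction.card_orbit_mul_card_stabilizer_eq_card_group G x
    have h2 : Fintype.card (MulAction.orbit G x) = 2 * p := by
      rw [← hX]
      have h3 : MulAction.orbit G x = Set.univ := MulAction.orbit_eq_univ G x
      rw [Fintype.card_congr (Equiv.setCongr h3), Fintype.card_congr (Equiv.Set.univ X)]
    rw [h2] at h1
    rw [Nat.card_eq_fintype_card, ← h1, mul_comm 2 p, mul_assoc]
    exact Dvd.intro _ rfl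
  obtain ⟨a, ha⟩ := (L.mem_O x).mp (hLO.symm ▸ hx)
  obtain ⟨b, hb⟩ := (L.mem_O y).mp (hLO.symm ▸ hy)
  have hd0 : b - a ≠ 0 := by
    intro h
    apply hxy
    rw [sub_eq_zero] at h
    rw [ha, hb, h]
  obtain ⟨j, hj, hjd⟩ := exists_coprime hp Nat.card_pos.ne' hpn hd0
  refine ⟨j, hj, ?_⟩
  have hmod : ∀ (n : ℕ) (y : X), z ^ (n % p) • y = z ^ n • y := by
    intro n y
    have hk : ∀ (k : ℕ) (y : X), (z ^ p) ^ k • y = y := by
      intro k
      induction k with
      | zero => intro y; rw [pow_zero, one_smul]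
      | succ k ih => intro y; rw [pow_succ, mul_smul, hzp, ih]
    conv_rhs => rw [← Nat.mod_add_div n p, pow_add, pow_mul, mul_smul, hk]
  have h1 : z ^ j • x = y := by
    rw [← hmod j, ← ZMod.val_natCast, hjd, ← hL, ha, L.pw_u, sub_add_cancel, hb]
  unfold cnt
  refine Finset.card_pos.mpr ⟨1, ?_⟩
  simp only [Finset.mem_filter, Finset.mem_univ, true_and, inv_one, one_mul, mul_one]
  exact h1

omit [Fintype X] [MulAction.IsPretransitive G X] in
/-- a pair with a positive number is equivalent to the base pair. -/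
lemma to_base (hc : ∀ g, c * g = g * c) (hc2 : c * c = 1) {p : ℕ} [Fact p.Prime] {z : G}
    {L : PLab G X c p} (hL : ∀ i, L.pw i = z ^ i.val) (hp : 1 < p) {x y : X}
    (h : 0 < cnt x y z) : ∃ k : G, k • x = L.u 0 ∧ k • y = L.u 1 := by
  unfold cnt at h
  obtain ⟨h0, hh⟩ := Finset.card_pos.mp h
  simp only [Finset.mem_filter, Finset.mem_univ, true_and] at hh
  have h1 : z • (h0 • x) = h0 • y := by
    rw [← hh, mul_smul, mul_smul, smul_inv_smul]
  have hz1 : L.pw 1 = z := by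
    rw [hL]
    have : Fact (1 < p) := ⟨hp⟩
    rw [ZMod.val_one, pow_one]
  rcases L.cov (h0 • x) with ⟨i, hi⟩ | ⟨i, hi⟩
  · refine ⟨L.pw (-i) * h0, ?_, ?_⟩
    · rw [mul_smul, hi, L.pw_u, neg_add_cancel]
    · rw [mul_smul, ← h1, hi, ← hz1, L.pw_u, L.pw_u]
      congr 1
      ring
  · refine ⟨L.pw (-i) * (c * h0), ?_, ?_⟩
    · rw [mul_smul, mul_smul, hi, ccs hc2, L.pw_u, neg_add_cancel]
    · have h2 : (c * h0) • y = L.u (1 + i) := by
        rw [mul_smul, ← h1, hi, ← mul_smul z, ← hc, mul_smul, ccs hc2, ← hz1, L.pw_u]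
      rw [mul_smul, h2, L.pw_u]
      congr 1
      ring

/-- **Necessity for the sums.** -/
theorem hom2_of_twist (hc : ∀ g, c * g = g * c) (hc2 : c * c = 1) (hfree : ∀ x : X, c • x ≠ x)
    (hO : IsHalf c O) (hS : Side G O) {p : ℕ} (hp : p.Prime) (hp2 : p ≠ 2)
    (hX : Fintype.card X = 2 * p)
    (hz : ∃ z ∈ commutator G, ∃ x : X, z • x ≠ x ∧ z • x ≠ c • x)
    (hall : ∀ Φ : Finset X, IsHalf c Φ → Twist (T Φ : G → ℚ)) : Hom2 G O := by
  have hfact : Fact p.Prime := ⟨hp⟩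
  obtain ⟨z, hz, hzp, L, hL, hLO⟩ := exists_comm hc hc2 hfree hO hS hp hp2 hX hz
  have hbase : ∀ x ∈ O, ∀ y ∈ O, x ≠ y →
      ∃ k : G, (k • x = L.u 0 ∧ k • y = L.u 1) ∨ (k • y = L.u 0 ∧ k • x = L.u 1) := by
    intro x hx y hy hxy
    have hxy' : y ≠ c • x := by
      intro h
      rw [h] at hy
      exact (hO x).mp hy hx
    obtain ⟨j, hj, hpos⟩ := cnt_pos_pow hp hX hzp hL hLO hx hy hxy
    have htw := twist_df_T hc hc2 hfree hall (Ne.symm hxy) hxy' j hj 1 z hz
    have hzN : inN O z := inN_comm hc hO hS hx hz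
    have hzjN : inN O (z ^ j) := by
      have : z ^ j ∈ NN hc hO hS hx := Subgroup.pow_mem _ ((mem_NN hc hO hS hx z).mpr hzN) _
      exact this
    simp only [one_mul, one_pow, sub_self] at htw
    rw [df_inN hc hO hS hx hy hzjN, df_inN hc hO hS hy hx hzjN, df_inN hc hO hS hx hy hzN,
      df_inN hc hO hS hy hx hzN] at htw
    have h1 : (0 : ℚ) < cnt x y (z ^ j) := by exact_mod_cast hpos
    have h2 : (0 : ℚ) ≤ cnt y x (z ^ j) := by positivity
    have h3 : (0 : ℚ) < cnt x y z + cnt y x z := by linarith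
    have h4 : 0 < cnt x y z ∨ 0 < cnt y x z := by
      by_contra hcon
      push Not at hcon
      have e1 : cnt x y z = 0 := by omega
      have e2 : cnt y x z = 0 := by omega
      rw [e1, e2] at h3
      norm_num at h3
    rcases h4 with h4 | h4
    · obtain ⟨k, hk⟩ := to_base hc hc2 hL hp.one_lt h4
      exact ⟨k, Or.inl hk⟩
    · obtain ⟨k, hk⟩ := to_base hc hc2 hL hp.one_lt h4
      exact ⟨k, Or.inr hk⟩
  intro x hx y hy x' hx' y' hy' hxy hxy'
  obtain ⟨k, hk⟩ := hbase x hx y hy hxy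
  obtain ⟨k', hk'⟩ := hbase x' hx' y' hy' hxy'
  have hinv : ∀ {u v : X}, k' • u = v → k'⁻¹ • v = u := by
    intro u v h
    rw [← h, inv_smul_smul]
  refine ⟨k'⁻¹ * k, ?_⟩
  simp only [mul_smul]
  rcases hk with ⟨h1, h2⟩ | ⟨h1, h2⟩ <;> rcases hk' with ⟨h3, h4⟩ | ⟨h3, h4⟩
  · left; rw [h1, h2]; exact ⟨hinv h3, hinv h4⟩
  · right; rw [h1, h2]; exact ⟨hinv h3, hinv h4⟩
  · right; rw [h1, h2]; exact ⟨hinv h4, hinv h3⟩
  · left; rw [h1, h2]; exact ⟨hinv h4, hinv h3⟩

/-- **Necessity for the individual functions.** -/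
theorem trans2_of_twist (hc : ∀ g, c * g = g * c) (hc2 : c * c = 1) (hfree : ∀ x : X, c • x ≠ x)
    (hO : IsHalf c O) (hS : Side G O) {p : ℕ} (hp : p.Prime) (hp2 : p ≠ 2)
    (hX : Fintype.card X = 2 * p)
    (hz : ∃ z ∈ commutator G, ∃ x : X, z • x ≠ x ∧ z • x ≠ c • x)
    (hall : ∀ (x : X) (Φ : Finset X), IsHalf c Φ → Twist (a0 x Φ : G → ℚ)) : Trans2 G O := by
  have hfact : Fact p.Prime := ⟨hp⟩
  obtain ⟨z, hz, hzp, L, hL, hLO⟩ := exists_comm hc hc2 hfree hO hS hp hp2 hX hz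
  have hbase : ∀ x ∈ O, ∀ y ∈ O, x ≠ y → ∃ k : G, k • x = L.u 0 ∧ k • y = L.u 1 := by
    intro x hx y hy hxy
    obtain ⟨j, hj, hpos⟩ := cnt_pos_pow hp hX hzp hL hLO hx hy hxy
    have htw := twist_df_a0 hc hc2 hfree (hall x) y j hj 1 z hz
    have hzN : inN O z := inN_comm hc hO hS hx hz
    have hzjN : inN O (z ^ j) := by
      have : z ^ j ∈ NN hc hO hS hx := Subgroup.pow_mem _ ((mem_NN hc hO hS hx z).mpr hzN) _
      exact this
    simp only [one_mul, one_pow, sub_self] at htw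
    rw [df_inN hc hO hS hx hy hzjN, df_inN hc hO hS hx hy hzN] at htw
    have h1 : (0 : ℚ) < cnt x y (z ^ j) := by exact_mod_cast hpos
    have h3 : (0 : ℚ) < cnt x y z := by linarith
    have h4 : 0 < cnt x y z := by exact_mod_cast h3
    exact to_base hc hc2 hL hp.one_lt h4
  intro x hx y hy x' hx' y' hy' hxy hxy'
  obtain ⟨k, h1, h2⟩ := hbase x hx y hy hxy
  obtain ⟨k', h3, h4⟩ := hbase x' hx' y' hy' hxy'
  refine ⟨k'⁻¹ * k, ?_, ?_⟩
  · rw [mul_smul, h1, ← h3, inv_smul_smul]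
  · rw [mul_smul, h2, ← h4, inv_smul_smul]

end main

end Pool.Agent.J4.H53.Col
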