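import Pool.Agent.J4.H53.Col.PrimeGrp

/-!
# The differences of the numbers of conjugates
-/

set_option autoImplicit false

open scoped Classical

namespace Pool.Agent.J4.H53.Col

open Pool.Agent.Q11.CZ Pool.Agent.N770.CP

variable {G : Type} [Group G] [Fintype G] {X : Type} [MulAction G X] {c : G}

omit [Fintype G] in
lemma ccs (hc2 : c * c = 1) (x : X) : c • (c • x) = x := by rw [← mul_smul, hc2, one_smul]

omit [MulAction G X] [Fintype G] [Group G] in
lemma card_ins {F : Finset X} {a b a' : X} (ha : a ∉ F) (hab : a ≠ b)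
    (ha' : a' ∉ F) (hab' : a' ≠ b) :
    (insert a (insert b F)).card = (insert a' (insert b F)).card := by
  have h1 : a ∉ insert b F := by
    rw [Finset.mem_insert]; push Not; exact ⟨hab, ha⟩
  have h2 : a' ∉ insert b F := by
    rw [Finset.mem_insert]; push Not; exact ⟨hab', ha'⟩
  rw [Finset.card_insert_of_notMem h1, Finset.card_insert_of_notMem h2]

/-- the difference of the numbers of conjugates of `g` which map `x` to `y` and to `c y`. -/
noncomputable def df (c : G) (x y : X) (g : G) : ℚ := (cnt x y g : ℚ) - cnt x (c • y) g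

lemma cnt_smul (k : G) (x y : X) (g : G) : cnt (k • x) (k • y) g = cnt x y g := by
  unfold cnt
  refine Finset.card_bijective (fun h => h * k) (Group.mulRight_bijective k) (fun h => ?_)
  simp only [Finset.mem_filter, Finset.mem_univ, true_and]
  have h4 : ((h * k)⁻¹ * g * (h * k)) • x = k⁻¹ • ((h⁻¹ * g * h) • (k • x)) := by
    have h2 : (h * k)⁻¹ * g * (h * k) = k⁻¹ * ((h⁻¹ * g * h) * k) := by group
    rw [h2, mul_smul k⁻¹, mul_smul (h⁻¹ * g * h) k]
  rw [h4, inv_smul_eq_iff]

lemma df_smul (hc : ∀ g, c * g = g * c) (k : G) (x y : X) (g : G) :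
    df c (k • x) (k • y) g = df c x y g := by
  unfold df
  rw [cnt_smul, show c • k • y = k • (c • y) by rw [← mul_smul, hc, mul_smul], cnt_smul]

lemma df_c_right (hc2 : c * c = 1) (x y : X) (g : G) : df c x (c • y) g = - df c x y g := by
  unfold df
  rw [ccs hc2]
  ring

lemma df_c_left (hc : ∀ g, c * g = g * c) (hc2 : c * c = 1) (x y : X) (g : G) :
    df c (c • x) y g = - df c x y g := by
  have h1 := df_smul hc c x (c • y) g
  rw [ccs hc2] at h1
  rw [h1, df_c_right hc2]

lemma df_cg (hc : ∀ g, c * g = g * c) (hc2 : c * c = 1) (x y : X) (g : G) :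
    df c x y (c * g) = - df c x y g := by
  unfold df
  rw [cnt_c hc x y hc2, cnt_c hc x (c • y) hc2, ccs hc2]
  ring

lemma df_unlinked {x y : X} {k : G} (hk : k • x = x) (hy : k • y = c • y) (g : G) :
    df c x y g = 0 := by
  unfold df
  rw [cnt_unlinked hk hy, sub_self]

lemma cnt_self_le {x : X} {g g' : G} (h : g' ∈ Subgroup.zpowers g) : cnt x x g ≤ cnt x x g' := by
  unfold cnt
  refine Finset.card_le_card (fun k hk => ?_)
  simp only [Finset.mem_filter, Finset.mem_univ, true_and] at hk ⊢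
  obtain ⟨n, rfl⟩ := Subgroup.mem_zpowers_iff.mp h
  have h1 : k⁻¹ * g ^ n * k = (k⁻¹ * g * k) ^ n := by
    have := conj_zpow (i := n) (a := k⁻¹) (b := g)
    rw [inv_inv] at this
    exact this.symm
  rw [h1]
  have h2 : (k⁻¹ * g * k) ∈ MulAction.stabilizer G x := hk
  exact Subgroup.zpow_mem _ h2 n

lemma cnt_self {x : X} {g g' : G} (h : Subgroup.zpowers g = Subgroup.zpowers g') :
    cnt x x g = cnt x x g' :=
  le_antisymm (cnt_self_le (h ▸ Subgroup.mem_zpowers g')) (cnt_self_le (h ▸ Subgroup.mem_zpowers g))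

lemma df_self (hc : ∀ g, c * g = g * c) (hc2 : c * c = 1) {x : X} {g g' : G}
    (h : Subgroup.zpowers g = Subgroup.zpowers g') : df c x x g = df c x x g' := by
  unfold df
  rw [← cnt_c hc x x hc2, ← cnt_c hc x x hc2, cnt_self h, cnt_self (zpowers_c hc hc2 h)]

/-- the class functions in terms of the differences. -/
lemma a0_df (hc : ∀ g, c * g = g * c) (hc2 : c * c = 1) (x : X) (Φ : Finset X) (g : G) :
    a0 x Φ g - a0 x Φ (c * g) = (∑ y ∈ Φ, df c x y g) / Fintype.card G := by
  rw [a0_cnt, a0_cnt, ← sub_div, ← Finset.sum_sub_distrib]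
  congr 1
  refine Finset.sum_congr rfl (fun y _ => ?_)
  rw [cnt_c hc x y hc2]
  rfl

lemma T_df (hc : ∀ g, c * g = g * c) (hc2 : c * c = 1) (Φ : Finset X) (g : G) :
    T Φ g - T Φ (c * g) = (∑ x ∈ Φ, ∑ y ∈ Φ, df c x y g) / Fintype.card G := by
  unfold T
  rw [← Finset.sum_sub_distrib, Finset.sum_div]
  exact Finset.sum_congr rfl (fun x _ => a0_df hc hc2 x Φ g)

/-- sufficient condition for `a0`. -/
theorem zinv_a0_of (hc : ∀ g, c * g = g * c) (hc2 : c * c = 1) {x : X} {Φ : Finset X}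
    (hΦ : IsHalf c Φ) (h : ∀ y : X, ∀ g g' : G, Subgroup.zpowers g = Subgroup.zpowers g' →
      df c x y g = df c x y g') : ZInv (a0 x Φ : G → ℚ) := by
  intro g g' hgg
  have h1 : a0 x Φ g - a0 x Φ (c * g) = a0 x Φ g' - a0 x Φ (c * g') := by
    rw [a0_df hc hc2, a0_df hc hc2]
    congr 1
    exact Finset.sum_congr rfl (fun y _ => h y g g' hgg)
  have h2 := a0_add hc x hΦ g
  have h3 := a0_add hc x hΦ g'
  linarith

/-- sufficient condition for the sums. -/
theorem zinv_T_of (hc : ∀ g, c * g = g * c) (hc2 : c * c = 1) {Φ : Finset X}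
    (hΦ : IsHalf c Φ) (h : ∀ x y : X, ∀ g g' : G, Subgroup.zpowers g = Subgroup.zpowers g' →
      df c x y g + df c y x g = df c x y g' + df c y x g') : ZInv (T Φ : G → ℚ) := by
  intro g g' hgg
  have h0 : ∀ g : G, 2 * ∑ x ∈ Φ, ∑ y ∈ Φ, df c x y g =
      ∑ x ∈ Φ, ∑ y ∈ Φ, (df c x y g + df c y x g) := by
    intro g
    rw [two_mul]
    conv_lhs => rhs; rw [Finset.sum_comm]
    rw [← Finset.sum_add_distrib]
    exact Finset.sum_congr rfl (fun x _ => Finset.sum_add_distrib.symm)
  have h00 : ∑ x ∈ Φ, ∑ y ∈ Φ, df c x y g = ∑ x ∈ Φ, ∑ y ∈ Φ, df c x y g' := by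
    have h3 : 2 * ∑ x ∈ Φ, ∑ y ∈ Φ, df c x y g = 2 * ∑ x ∈ Φ, ∑ y ∈ Φ, df c x y g' := by
      rw [h0, h0]
      exact Finset.sum_congr rfl (fun x _ => Finset.sum_congr rfl (fun y _ => h x y g g' hgg))
    linarith
  have h1 : T Φ g - T Φ (c * g) = T Φ g' - T Φ (c * g') := by
    rw [T_df hc hc2, T_df hc hc2, h00]
  have h2 := T_add hc hΦ g
  have h3 := T_add hc hΦ g'
  linarith

omit [Fintype G] in
/-- replacing `y` by `c y`. -/
lemma half_replace (hc2 : c * c = 1) {Φ : Finset X} (hΦ : IsHalf c Φ) {y : X} (hy : y ∈ Φ) :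
    IsHalf c (insert (c • y) (Φ.erase y)) := by
  intro u
  simp only [Finset.mem_insert, Finset.mem_erase]
  have h1 : c • u = c • y ↔ u = y := (MulAction.injective c).eq_iff
  have h2 : c • u = y ↔ u = c • y := by
    constructor
    · intro h; rw [← h, ccs hc2]
    · intro h; rw [h, ccs hc2]
  have h3 := hΦ u
  rw [h1]
  constructor
  · rintro (rfl | ⟨h4, h5⟩)
    · rintro (h | h)
      · have := hΦ u
        rw [← h] at this
        tauto
      · exact h.1 rfl
    · rintro (h | h)
      · exact h4 (h2.mpr h)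
      · exact h3.mp h5 h.2
  · intro h
    push Not at h
    by_cases h4 : u = y
    · exact Or.inl h4
    · right
      exact ⟨fun h5 => h.1 (h2.mp h5), h3.mpr (h.2 h4)⟩

/-- a half-system which contains a given point. -/
lemma exists_half_mem [Fintype X] (hc2 : c * c = 1) (hfree : ∀ x : X, c • x ≠ x) (y : X) :
    ∃ Φ : Finset X, IsHalf c Φ ∧ y ∈ Φ := by
  obtain ⟨Φ, hΦ⟩ := exists_half (X := X) hc2 hfree
  rw [mem_halves] at hΦ
  by_cases hy : y ∈ Φ
  · exact ⟨Φ, hΦ, hy⟩
  · have h1 : c • y ∈ Φ := (hΦ y).mpr hy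
    refine ⟨_, half_replace hc2 hΦ h1, ?_⟩
    rw [ccs hc2]
    exact Finset.mem_insert_self _ _

/-- a half-system which contains two given points. -/
lemma exists_half_mem₂ [Fintype X] (hc2 : c * c = 1) (hfree : ∀ x : X, c • x ≠ x) {x y : X}
    (hxy : y ≠ c • x) : ∃ Φ : Finset X, IsHalf c Φ ∧ x ∈ Φ ∧ y ∈ Φ := by
  obtain ⟨Φ, hΦ, hx⟩ := exists_half_mem hc2 hfree x
  by_cases hy : y ∈ Φ
  · exact ⟨Φ, hΦ, hx, hy⟩
  · have h1 : c • y ∈ Φ := (hΦ y).mpr hy
    refine ⟨_, half_replace hc2 hΦ h1, ?_, ?_⟩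
    · rw [ccs hc2]
      refine Finset.mem_insert_of_mem (Finset.mem_erase.mpr ⟨?_, hx⟩)
      intro h
      apply hxy
      rw [h, ccs hc2]
    · rw [ccs hc2]
      exact Finset.mem_insert_self _ _

/-- **Necessary condition for `a0`.** -/
theorem twist_df_a0 [Fintype X] (hc : ∀ g, c * g = g * c) (hc2 : c * c = 1)
    (hfree : ∀ x : X, c • x ≠ x) {x : X}
    (hall : ∀ Φ : Finset X, IsHalf c Φ → Twist (a0 x Φ : G → ℚ)) (y : X) :
    Twist (df c x y : G → ℚ) := by
  obtain ⟨Φ, hΦ, hy⟩ := exists_half_mem hc2 hfree y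
  have hcy : c • y ∉ Φ := fun h => (hΦ y).mp h hy
  have hcard : (Fintype.card G : ℚ) ≠ 0 := card_ne
  have hval : ∀ Φ : Finset X, IsHalf c Φ → ∀ g : G,
      ∑ y ∈ Φ, df c x y g = Fintype.card G * (2 * a0 x Φ g - 1) := by
    intro Φ hΦ g
    have h1 := a0_df hc hc2 x Φ g
    have h2 := a0_add hc x hΦ g
    rw [eq_div_iff hcard] at h1
    rw [← h1]
    have h3 : a0 x Φ (c * g) = 1 - a0 x Φ g := by linarith
    rw [h3]
    ring
  have key : ∀ g : G, df c x y g =
      Fintype.card G * (a0 x Φ g - a0 x (insert (c • y) (Φ.erase y)) g) := by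
    intro g
    have h1 := hval Φ hΦ g
    have h2 := hval _ (half_replace hc2 hΦ hy) g
    have e2 : c • y ∉ Φ.erase y := fun h => hcy (Finset.mem_of_mem_erase h)
    rw [Finset.sum_insert e2, df_c_right hc2] at h2
    rw [← Finset.add_sum_erase Φ _ hy] at h1
    linarith
  intro j hj g z hz
  have h1 := hall Φ hΦ j hj g z hz
  have h2 := hall _ (half_replace hc2 hΦ hy) j hj g z hz
  rw [key, key, key, key]
  linear_combination (Fintype.card G : ℚ) * h1 - (Fintype.card G : ℚ) * h2

/-- the double sum over an extended set. -/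
lemma sum_pair (F : Finset X) {a b : X} (ha : a ∉ F) (hb : b ∉ F) (hab : a ≠ b)
    (f : X → X → ℚ) : ∑ x ∈ insert a (insert b F), ∑ y ∈ insert a (insert b F), f x y =
      f a a + f b b + (f a b + f b a) + ∑ y ∈ F, (f a y + f y a) + ∑ y ∈ F, (f b y + f y b) +
        ∑ x ∈ F, ∑ y ∈ F, f x y := by
  have h1 : a ∉ insert b F := by
    rw [Finset.mem_insert]
    push Not
    exact ⟨hab, ha⟩
  rw [Finset.sum_insert h1, Finset.sum_insert hb]
  simp only [Finset.sum_insert h1, Finset.sum_insert hb, Finset.sum_add_distrib]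
  ring

/-- **Necessary condition for the sums.** -/
theorem twist_df_T [Fintype X] (hc : ∀ g, c * g = g * c) (hc2 : c * c = 1)
    (hfree : ∀ x : X, c • x ≠ x)
    (hall : ∀ Φ : Finset X, IsHalf c Φ → Twist (T Φ : G → ℚ)) {x y : X} (hxy : y ≠ x)
    (hxy' : y ≠ c • x) : Twist (fun g : G => df c x y g + df c y x g) := by
  obtain ⟨Φ, hΦ, hx, hy⟩ := exists_half_mem₂ hc2 hfree hxy'
  have hcard : (Fintype.card G : ℚ) ≠ 0 := card_ne
  have hcy : c • y ∉ Φ := fun h => (hΦ y).mp h hy
  have hcx : c • x ∉ Φ := fun h => (hΦ x).mp h hx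
  set F := (Φ.erase x).erase y with hF
  have hxF : x ∉ F := fun h => (Finset.mem_erase.mp (Finset.mem_erase.mp h).2).1 rfl
  have hyF : y ∉ F := fun h => (Finset.mem_erase.mp h).1 rfl
  have hcxF : c • x ∉ F := fun h => hcx (Finset.mem_of_mem_erase (Finset.mem_of_mem_erase h))
  have hcyF : c • y ∉ F := fun h => hcy (Finset.mem_of_mem_erase (Finset.mem_of_mem_erase h))
  have hyx : y ∈ Φ.erase x := Finset.mem_erase.mpr ⟨hxy, hy⟩
  have e0 : Φ = insert x (insert y F) := by
    rw [hF, Finset.insert_erase hyx, Finset.insert_erase hx]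
  have ex : insert (c • x) (Φ.erase x) = insert (c • x) (insert y F) := by
    rw [hF, Finset.insert_erase hyx]
  have hxy2 : c • x ≠ y := fun h => hxy' h.symm
  have hxy3 : x ≠ c • y := by
    intro h
    apply hxy'
    rw [h, ccs hc2]
  have hxy4 : c • x ≠ c • y := fun h => hxy (MulAction.injective c h).symm
  have hyΦx : y ∈ insert (c • x) (Φ.erase x) := Finset.mem_insert_of_mem hyx
  -- the four half-systems
  have h1 : IsHalf c (insert x (insert y F)) := e0 ▸ hΦ
  have h2 : IsHalf c (insert (c • x) (insert y F)) := ex ▸ half_replace hc2 hΦ hx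
  have h3 : IsHalf c (insert x (insert (c • y) F)) := by
    have h := half_replace hc2 hΦ hy
    have e : insert (c • y) (Φ.erase y) = insert x (insert (c • y) F) := by
      rw [hF, Finset.erase_right_comm, Finset.insert_comm,
        Finset.insert_erase (Finset.mem_erase.mpr ⟨hxy.symm, hx⟩)]
    rwa [e] at h
  have h4 : IsHalf c (insert (c • x) (insert (c • y) F)) := by
    have h := half_replace hc2 h2 (Finset.mem_insert_of_mem (Finset.mem_insert_self y F))
    have e : insert (c • y) ((insert (c • x) (insert y F)).erase y) =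
        insert (c • x) (insert (c • y) F) := by
      rw [Finset.insert_comm (c • x) y, Finset.erase_insert, Finset.insert_comm]
      rw [Finset.mem_insert]
      push Not
      exact ⟨hxy2.symm, hyF⟩
    rwa [e] at h
  have hval : ∀ Φ : Finset X, IsHalf c Φ → ∀ g : G,
      ∑ x ∈ Φ, ∑ y ∈ Φ, df c x y g = Fintype.card G * (2 * T Φ g - Φ.card) := by
    intro Φ hΦ g
    have h1 := T_df hc hc2 Φ g
    have h2 := T_add hc hΦ g
    rw [eq_div_iff hcard] at h1
    rw [← h1]
    have h3 : T Φ (c * g) = Φ.card - T Φ g := by linarith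
    rw [h3]
    ring
  have hc1' : (insert x (insert y F)).card = (insert (c • x) (insert y F)).card :=
    card_ins hxF hxy.symm hcxF hxy2
  have hc2' : (insert x (insert (c • y) F)).card = (insert (c • x) (insert (c • y) F)).card :=
    card_ins hxF hxy3 hcxF hxy4
  have key : ∀ g : G, df c x y g + df c y x g = Fintype.card G / 2 *
      (T (insert x (insert y F)) g - T (insert (c • x) (insert y F)) g -
        T (insert x (insert (c • y) F)) g + T (insert (c • x) (insert (c • y) F)) g) := by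
    intro g
    have a1 := hval _ h1 g
    have a2 := hval _ h2 g
    have a3 := hval _ h3 g
    have a4 := hval _ h4 g
    rw [sum_pair F hxF hyF hxy.symm] at a1
    rw [sum_pair F hcxF hyF hxy2] at a2
    rw [sum_pair F hxF hcyF hxy3] at a3
    rw [sum_pair F hcxF hcyF hxy4] at a4
    simp only [df_c_left hc hc2, df_c_right hc2] at a2 a3 a4
    simp only [Finset.sum_add_distrib, Finset.sum_neg_distrib] at a1 a2 a3 a4
    rw [hc1'] at a1
    rw [hc2'] at a3
    linarith
  intro j hj g z hz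
  have b1 := hall _ h1 j hj g z hz
  have b2 := hall _ h2 j hj g z hz
  have b3 := hall _ h3 j hj g z hz
  have b4 := hall _ h4 j hj g z hz
  simp only
  rw [key, key, key, key]
  linear_combination (Fintype.card G : ℚ) / 2 * (b1 - b2 - b3 + b4)

end Pool.Agent.J4.H53.Col
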