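import Pool.Agent.J4.H53.Col.Circ
import Pool.Agent.N770.CP.Core2

/-!
# Linked points and transitive groups of degree `2 p`
-/

set_option autoImplicit false

open scoped Classical

namespace Pool.Agent.J4.H53.Col

open Pool.Agent.Q11.CZ

variable {G : Type} [Group G] {X : Type} [Fintype X] [MulAction G X] {c : G}

/-- Every element of the group maps `O` into `O` or into its complement. -/
def Side (G : Type) [Group G] {X : Type} [MulAction G X] (O : Finset X) : Prop :=
  ∀ g : G, (∀ u ∈ O, g • u ∈ O) ∨ ∀ u ∈ O, g • u ∉ O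

/-- an element of order `p`. -/
lemma exists_sigma [Finite G] [MulAction.IsPretransitive G X] {p : ℕ} (hp : p.Prime)
    (hX : Fintype.card X = 2 * p) :
    ∃ (σ : G) (x : X), (∀ y : X, σ ^ p • y = y) ∧ σ • x ≠ x := by
  have hne : Nonempty X := by
    rw [← Fintype.card_pos_iff, hX]
    have := hp.pos
    omega
  obtain ⟨x⟩ := hne
  set φ : G →* Equiv.Perm X := MulAction.toPermHom G X with hφ
  have hφa : ∀ (g : G) (y : X), φ g y = g • y := fun _ _ => rfl
  have hfact : Fact p.Prime := ⟨hp⟩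
  have hdvd : p ∣ Fintype.card φ.range := by
    have h1 := MulAction.card_orbit_mul_card_stabilizer_eq_card_group φ.range x
    have h2 : Fintype.card (MulAction.orbit φ.range x) = 2 * p := by
      rw [← hX]
      have h3 : MulAction.orbit φ.range x = Set.univ := by
        rw [Set.eq_univ_iff_forall]
        intro y
        obtain ⟨g, hg⟩ := MulAction.exists_smul_eq G x y
        exact ⟨⟨φ g, ⟨g, rfl⟩⟩, hg⟩
      rw [Fintype.card_congr (Equiv.setCongr h3), Fintype.card_congr (Equiv.Set.univ X)]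
    rw [h2] at h1
    rw [← h1, mul_comm 2 p, mul_assoc]
    exact Dvd.intro _ rfl
  obtain ⟨⟨τ, σ, rfl⟩, hτ⟩ := exists_prime_orderOf_dvd_card p hdvd
  have hτ' : orderOf (φ σ) = p := by
    rw [← hτ]
    exact (orderOf_injective φ.range.subtype Subtype.val_injective ⟨φ σ, σ, rfl⟩)
  have hpow : φ σ ^ p = 1 := by
    rw [← hτ']
    exact pow_orderOf_eq_one _
  have h1 : φ σ ≠ 1 := by
    intro h
    rw [h, orderOf_one] at hτ'
    exact hp.one_lt.ne hτ'
  obtain ⟨x0, hx0⟩ : ∃ x0, φ σ x0 ≠ x0 := by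
    by_contra h
    push Not at h
    exact h1 (Equiv.ext h)
  refine ⟨σ, x0, fun y => ?_, hx0⟩
  rw [← hφa, map_pow, hpow]
  rfl

/-- sums of even functions. -/
lemma sum_even {O : Finset X} (hO : IsHalf c O) (hc2 : c * c = 1) {F : X → ℚ}
    (hF : ∀ v, F (c • v) = F v) : ∑ v, F v = 2 * ∑ v ∈ O, F v := by
  have h1 : ∑ v ∈ Finset.univ.filter (fun v : X => v ∉ O), F v = ∑ v ∈ O, F v := by
    refine Finset.sum_bij' (fun v _ => c • v) (fun v _ => c • v) ?_ ?_ ?_ ?_ ?_
    · intro v hv
      simp only [Finset.mem_filter, Finset.mem_univ, true_and] at hv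
      exact (hO v).mpr hv
    · intro v hv
      simp only [Finset.mem_filter, Finset.mem_univ, true_and]
      intro h
      exact (hO v).mp h hv
    · intro v _
      exact smul_smul_c hc2 v
    · intro v _
      exact smul_smul_c hc2 v
    · intro v _
      exact (hF v).symm
  have h2 := Finset.sum_filter_add_sum_filter_not (Finset.univ : Finset X) (fun v => v ∈ O) F
  rw [h1] at h2
  have h3 : (Finset.univ.filter fun v : X => v ∈ O) = O := by ext v; simp
  rw [h3] at h2
  rw [← h2]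
  ring

/-- A labelling of one side by `ZMod p`. -/
structure PLab (G : Type) [Group G] (X : Type) [MulAction G X] (c : G) (p : ℕ) where
  /-- the points -/
  u : ZMod p → X
  /-- the elements of the group -/
  pw : ZMod p → G
  pw_u : ∀ i j, pw i • u j = u (i + j)
  inj : Function.Injective u
  sep : ∀ i j, c • u i ≠ u j
  cov : ∀ v : X, (∃ i, v = u i) ∨ ∃ i, v = c • u i

/-- the labelling by the powers of an element. -/
lemma pLab_of_sigma (hc : ∀ g, c * g = g * c)
    (hc2 : c * c = 1) (hfree : ∀ x : X, c • x ≠ x) {p : ℕ} (hp : p.Prime) (hp2 : p ≠ 2)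
    (hX : Fintype.card X = 2 * p) {σ : G} {x0 : X} (hσ : ∀ y : X, σ ^ p • y = y)
    (hx0 : σ • x0 ≠ x0) : ∃ L : PLab G X c p, (∀ i, L.pw i = σ ^ i.val) ∧ L.u 0 = x0 := by
  have hfact : Fact p.Prime := ⟨hp⟩
  have hmod : ∀ (n : ℕ) (y : X), σ ^ (n % p) • y = σ ^ n • y := by
    intro n y
    have hk : ∀ (k : ℕ) (y : X), (σ ^ p) ^ k • y = y := by
      intro k
      induction k with
      | zero => intro y; rw [pow_zero, one_smul]
      | succ k ih => intro y; rw [pow_succ, mul_smul, hσ, ih]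
    conv_rhs => rw [← Nat.mod_add_div n p, pow_add, pow_mul, mul_smul, hk]
  have hper : MulAction.period σ x0 = p := by
    have h1 : MulAction.period σ x0 ∣ p := MulAction.pow_smul_eq_iff_period_dvd.mp (hσ x0)
    rcases (Nat.dvd_prime hp).mp h1 with h2 | h2
    · exfalso
      apply hx0
      have := MulAction.pow_smul_eq_iff_period_dvd (n := 1) (m := σ) (a := x0)
      rw [pow_one] at this
      exact this.mpr (by rw [h2])
    · exact h2
  have hfix : ∀ n : ℕ, σ ^ n • x0 = x0 → p ∣ n := by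
    intro n hn
    rw [← hper]
    exact MulAction.pow_smul_eq_iff_period_dvd.mp hn
  have hadd : ∀ (i j : ZMod p) (y : X), σ ^ (i + j).val • y = σ ^ i.val • (σ ^ j.val • y) := by
    intro i j y
    rw [ZMod.val_add, hmod, pow_add, mul_smul]
  have hinj : Function.Injective fun i : ZMod p => σ ^ i.val • x0 := by
    intro i j hij
    have hij' : σ ^ i.val • x0 = σ ^ j.val • x0 := hij
    have h1 : σ ^ (i - j).val • x0 = x0 := by
      have h2 : σ ^ j.val • (σ ^ (i - j).val • x0) = σ ^ j.val • x0 := by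
        rw [← hadd, add_sub_cancel, hij']
      exact MulAction.injective _ h2
    have h3 := hfix _ h1
    have h4 : (i - j).val = 0 := Nat.eq_zero_of_dvd_of_lt h3 (ZMod.val_lt _)
    rw [ZMod.val_eq_zero, sub_eq_zero] at h4
    exact h4
  have hcσ : ∀ (n : ℕ) (y : X), c • (σ ^ n • y) = σ ^ n • (c • y) := by
    intro n y
    rw [← mul_smul, hc, mul_smul]
  have hsep : ∀ i j : ZMod p, c • (σ ^ i.val • x0) ≠ σ ^ j.val • x0 := by
    intro i j hij
    have h1 : c • x0 = σ ^ (j - i).val • x0 := by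
      have h2 : σ ^ i.val • (c • x0) = σ ^ i.val • (σ ^ (j - i).val • x0) := by
        rw [← hcσ, hij, ← hadd, add_sub_cancel]
      exact MulAction.injective _ h2
    have h3 : σ ^ ((j - i).val + (j - i).val) • x0 = x0 := by
      rw [pow_add, mul_smul, ← h1, ← hcσ, ← h1, smul_smul_c hc2]
    have h4 := hfix _ h3
    rw [← two_mul] at h4
    have h5 : p ∣ (j - i).val := by
      rcases hp.dvd_mul.mp h4 with h | h
      · exact absurd ((Nat.prime_dvd_prime_iff_eq hp Nat.prime_two).mp h) hp2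
      · exact h
    have h6 : (j - i).val = 0 := Nat.eq_zero_of_dvd_of_lt h5 (ZMod.val_lt _)
    rw [h6, pow_zero, one_smul] at h1
    exact hfree x0 h1
  refine ⟨⟨fun i => σ ^ i.val • x0, fun i => σ ^ i.val, fun i j => (hadd i j x0).symm, hinj, hsep,
    ?_⟩, fun i => rfl, by simp⟩
  -- covering by counting
  let F : ZMod p ⊕ ZMod p → X := Sum.elim (fun i => σ ^ i.val • x0) (fun i => c • (σ ^ i.val • x0))
  have hF : Function.Injective F := by
    rintro (i | i) (j | j) hij
    · exact congrArg Sum.inl (hinj hij)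
    · exact absurd hij.symm (hsep j i)
    · exact absurd hij (hsep i j)
    · exact congrArg Sum.inr (hinj (MulAction.injective c hij))
  have hFb : Function.Bijective F := by
    rw [Fintype.bijective_iff_injective_and_card]
    refine ⟨hF, ?_⟩
    rw [Fintype.card_sum, ZMod.card, hX]
    ring
  intro v
  obtain ⟨i | i, hi⟩ := hFb.2 v
  · exact Or.inl ⟨i, hi.symm⟩
  · exact Or.inr ⟨i, hi.symm⟩

/-- the labelling exists. -/
lemma exists_pLab [Finite G] [MulAction.IsPretransitive G X] (hc : ∀ g, c * g = g * c)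
    (hc2 : c * c = 1) (hfree : ∀ x : X, c • x ≠ x) {p : ℕ} (hp : p.Prime) (hp2 : p ≠ 2)
    (hX : Fintype.card X = 2 * p) : Nonempty (PLab G X c p) := by
  obtain ⟨σ, x0, hσ, hx0⟩ := exists_sigma (G := G) hp hX
  obtain ⟨L, -, -⟩ := pLab_of_sigma hc hc2 hfree hp hp2 hX hσ hx0
  exact ⟨L⟩

/-- the side of a labelling. -/
noncomputable def PLab.O {p : ℕ} (L : PLab G X c p) : Finset X :=
  Finset.univ.filter fun v => ∃ i, v = L.u i

lemma PLab.mem_O {p : ℕ} (L : PLab G X c p) (v : X) : v ∈ L.O ↔ ∃ i, v = L.u i := by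
  simp [PLab.O]

lemma PLab.isHalf {p : ℕ} (L : PLab G X c p) : IsHalf c L.O := by
  intro v
  rw [L.mem_O, L.mem_O]
  constructor
  · rintro ⟨i, hi⟩ ⟨j, rfl⟩
    exact L.sep _ _ hi
  · intro h
    rcases L.cov v with h1 | ⟨i, rfl⟩
    · exact absurd h1 h
    · rcases L.cov (c • c • L.u i) with ⟨j, hj⟩ | ⟨j, hj⟩
      · exact ⟨j, hj⟩
      · exfalso
        exact h ⟨j, MulAction.injective c hj⟩

lemma PLab.sum_O {p : ℕ} [Fact p.Prime] (L : PLab G X c p) (F : X → ℚ) :
    ∑ v ∈ L.O, F v = ∑ i, F (L.u i) := by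
  refine (Finset.sum_bij (fun i _ => L.u i) ?_ ?_ ?_ ?_).symm
  · intro i _
    exact (L.mem_O _).mpr ⟨i, rfl⟩
  · intro i _ j _ h
    exact L.inj h
  · intro v hv
    obtain ⟨i, hi⟩ := (L.mem_O v).mp hv
    exact ⟨i, Finset.mem_univ _, hi.symm⟩
  · intro i _
    rfl

/-- the sign of the pair `(a, b)` with respect to the orbit of `(x, y)`. -/
noncomputable def sg (c : G) (x y a b : X) : ℚ :=
  if ∃ g : G, g • x = a ∧ g • y = b then 1 else if ∃ g : G, g • x = a ∧ g • y = c • b then -1 else 0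

/-- **Linked points.**  If some pair of points which are not related by `c` is linked, there is an
invariant half-system. -/
theorem exists_side [Finite G] [MulAction.IsPretransitive G X] (hc : ∀ g, c * g = g * c)
    (hc2 : c * c = 1) (hfree : ∀ x : X, c • x ≠ x) {p : ℕ} (hp : p.Prime) (hp2 : p ≠ 2)
    (hX : Fintype.card X = 2 * p) {x y : X} (hxy : y ≠ x) (hxy' : y ≠ c • x)
    (hl : ¬ ∃ k : G, k • x = x ∧ k • y = c • y) : ∃ O : Finset X, IsHalf c O ∧ Side G O := by
  have hfact : Fact p.Prime := ⟨hp⟩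
  obtain ⟨L⟩ := exists_pLab (X := X) hc hc2 hfree hp hp2 hX
  have hcg : ∀ (g : G) (v : X), g • (c • v) = c • (g • v) := by
    intro g v
    rw [← mul_smul, ← hc, mul_smul]
  have hcc : ∀ v : X, c • (c • v) = v := smul_smul_c hc2
  -- transport to the base point
  obtain ⟨g0, hg0⟩ := MulAction.exists_smul_eq G x (L.u 0)
  have hl0 : ¬ ∃ k : G, k • L.u 0 = L.u 0 ∧ k • (g0 • y) = c • (g0 • y) := by
    rintro ⟨k, hk1, hk2⟩
    apply hl
    refine ⟨g0⁻¹ * k * g0, ?_, ?_⟩
    · rw [mul_smul, mul_smul, hg0, hk1, ← hg0, inv_smul_smul]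
    · rw [mul_smul, mul_smul, hk2, hcg, inv_smul_smul]
  obtain ⟨m, hm, hlm⟩ : ∃ m : ZMod p, m ≠ 0 ∧
      ¬ ∃ k : G, k • L.u 0 = L.u 0 ∧ k • L.u m = c • L.u m := by
    rcases L.cov (g0 • y) with ⟨m, hm⟩ | ⟨m, hm⟩
    · refine ⟨m, ?_, by rwa [hm] at hl0⟩
      rintro rfl
      rw [← hg0] at hm
      exact hxy (MulAction.injective g0 hm)
    · refine ⟨m, ?_, ?_⟩
      · rintro rfl
        rw [← hg0, ← hcg] at hm
        exact hxy' (MulAction.injective g0 hm)
      · rintro ⟨k, hk1, hk2⟩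
        apply hl0
        refine ⟨k, hk1, ?_⟩
        rw [hm, hcg, hk2]
  -- the signs
  have hexc : ∀ a b : X, (∃ g : G, g • L.u 0 = a ∧ g • L.u m = b) →
      ¬ ∃ g : G, g • L.u 0 = a ∧ g • L.u m = c • b := by
    rintro a b ⟨g, hg1, hg2⟩ ⟨h, hh1, hh2⟩
    apply hlm
    refine ⟨g⁻¹ * h, ?_, ?_⟩
    · rw [mul_smul, hh1, ← hg1, inv_smul_smul]
    · rw [mul_smul, hh2, ← hg2, hcg, inv_smul_smul]
  have hs_c : ∀ a b : X, sg c (L.u 0) (L.u m) a (c • b) = - sg c (L.u 0) (L.u m) a b := by
    intro a b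
    unfold sg
    rw [hcc]
    by_cases h1 : ∃ g : G, g • L.u 0 = a ∧ g • L.u m = b
    · have h2 := hexc a b h1
      simp only [if_neg h2, if_pos h1]
    · by_cases h2 : ∃ g : G, g • L.u 0 = a ∧ g • L.u m = c • b
      · simp only [if_pos h2, if_neg h1, neg_neg]
      · simp only [if_neg h2, if_neg h1, neg_zero]
  have hs_g : ∀ (g : G) (a b : X), sg c (L.u 0) (L.u m) (g • a) (g • b) =
      sg c (L.u 0) (L.u m) a b := by
    intro g a b
    have key : ∀ b : X, (∃ h : G, h • L.u 0 = g • a ∧ h • L.u m = g • b) ↔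
        ∃ h : G, h • L.u 0 = a ∧ h • L.u m = b := by
      intro b
      constructor
      · rintro ⟨h, h1, h2⟩
        exact ⟨g⁻¹ * h, by rw [mul_smul, h1, inv_smul_smul], by rw [mul_smul, h2, inv_smul_smul]⟩
      · rintro ⟨h, h1, h2⟩
        exact ⟨g * h, by rw [mul_smul, h1], by rw [mul_smul, h2]⟩
    unfold sg
    rw [← hcg]
    simp only [key]
  have hs_c' : ∀ a b : X, sg c (L.u 0) (L.u m) (c • a) b = - sg c (L.u 0) (L.u m) a b := by
    intro a b
    have h1 := hs_g c a (c • b)
    rw [hcc] at h1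
    rw [h1, hs_c]
  -- the circulant matrix
  set s : ZMod p → ℚ := fun k => sg c (L.u 0) (L.u m) (L.u 0) (L.u k) with hs
  have hsk : ∀ i k : ZMod p, sg c (L.u 0) (L.u m) (L.u i) (L.u (i + k)) = s k := by
    intro i k
    have h1 := hs_g (L.pw i) (L.u 0) (L.u k)
    rw [L.pw_u, L.pw_u, add_zero] at h1
    exact h1
  have hs0 : s 0 = 0 := by
    simp only [hs]
    unfold sg
    rw [if_neg, if_neg]
    · rintro ⟨g, h1, h2⟩
      rw [← h1, ← hcg] at h2
      exact L.sep 0 m (MulAction.injective g h2).symm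
    · rintro ⟨g, h1, h2⟩
      rw [← h1] at h2
      exact hm (L.inj (MulAction.injective g h2))
  have hsm : s m ≠ 0 := by
    simp only [hs]
    unfold sg
    rw [if_pos ⟨1, one_smul _ _, one_smul _ _⟩]
    norm_num
  -- the function of the side
  set φ : X → ℚ := fun v => if v ∈ L.O then 1 else -1 with hφ
  have hφc : ∀ v, φ (c • v) = - φ v := by
    intro v
    simp only [hφ]
    by_cases h : v ∈ L.O
    · have : c • v ∉ L.O := fun h' => (L.isHalf v).mp h' h
      rw [if_pos h, if_neg this]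
    · have : c • v ∈ L.O := (L.isHalf v).mpr h
      rw [if_neg h, if_pos this, neg_neg]
  refine ⟨L.O, L.isHalf, fun g => ?_⟩
  have hev : ∀ i : ZMod p, ∑ k, s k * φ (g • L.u (i + k)) = (∑ k, s k) * φ (g • L.u i) := by
    intro i
    set a := g • L.u i with ha
    set F : X → ℚ := fun v => sg c (L.u 0) (L.u m) a v * φ v with hF
    have hFc : ∀ v, F (c • v) = F v := by
      intro v
      simp only [hF]
      rw [hs_c, hφc]
      ring
    have e1 : ∑ k, s k * φ (g • L.u (i + k)) = ∑ j, F (g • L.u j) := by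
      refine Fintype.sum_equiv (Equiv.addLeft i) _ _ (fun k => ?_)
      simp only [Equiv.coe_addLeft, hF, ha]
      rw [hs_g, hsk]
    have e2 : ∑ j, F (g • L.u j) = ∑ j, F (L.u j) := by
      have h1 := sum_even L.isHalf hc2 hFc
      have h2 := sum_even L.isHalf hc2 (F := fun v => F (g • v)) (fun v => by
        rw [hcg, hFc])
      have h3 : ∑ v, F (g • v) = ∑ v, F v :=
        Fintype.sum_equiv (MulAction.toPerm g) _ _ (fun v => rfl)
      rw [h1, L.sum_O] at h3
      rw [h2, L.sum_O] at h3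
      linarith
    have e3 : ∑ j, F (L.u j) = (∑ k, s k) * φ a := by
      have h1 : ∀ j, φ (L.u j) = 1 := by
        intro j
        simp only [hφ]
        rw [if_pos ((L.mem_O _).mpr ⟨j, rfl⟩)]
      simp only [hF, h1, mul_one]
      rcases L.cov a with ⟨l, hl⟩ | ⟨l, hl⟩
      · rw [hl, h1, mul_one]
        refine (Fintype.sum_equiv (Equiv.addLeft l) _ _ (fun k => ?_)).symm
        simp only [Equiv.coe_addLeft]
        rw [hsk]
      · rw [hl, hφc, h1, mul_neg, mul_one]
        simp only [hs_c']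
        rw [Finset.sum_neg_distrib]
        congr 1
        refine (Fintype.sum_equiv (Equiv.addLeft l) _ _ (fun k => ?_)).symm
        simp only [Equiv.coe_addLeft]
        rw [hsk]
    rw [e1, e2, e3]
  have hconst := circ_const s (fun i => φ (g • L.u i)) hs0 hsm hev
  by_cases h : φ (g • L.u 0) = 1
  · left
    intro v hv
    obtain ⟨i, rfl⟩ := (L.mem_O v).mp hv
    have h1 := hconst i 0
    rw [h] at h1
    by_contra h2
    simp only [hφ] at h1
    rw [if_neg h2] at h1
    norm_num at h1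
  · right
    intro v hv hgv
    obtain ⟨i, rfl⟩ := (L.mem_O v).mp hv
    have h1 := hconst i 0
    apply h
    rw [← h1]
    simp only [hφ]
    rw [if_pos hgv]

end Pool.Agent.J4.H53.Col
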