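import Pool.Agent.J4.H53.Col.PrimeDf

/-!
# Invariant half-systems
-/

set_option autoImplicit false

open scoped Classical

namespace Pool.Agent.J4.H53.Col

open Pool.Agent.Q11.CZ Pool.Agent.N770.CP

variable {G : Type} [Group G] {X : Type} [MulAction G X] {c : G} {O : Finset X}

/-- the elements which preserve `O`. -/
def inN (O : Finset X) (g : G) : Prop := ∀ u ∈ O, g • u ∈ O

lemma inN_iff (hS : Side G O) {u : X} (hu : u ∈ O) (g : G) : inN O g ↔ g • u ∈ O := by
  constructor
  · intro h; exact h u hu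
  · intro h
    rcases hS g with h1 | h1
    · exact h1
    · exact absurd h (h1 u hu)

lemma inN_mul (hc : ∀ g, c * g = g * c) (hO : IsHalf c O) (hS : Side G O) {u : X} (hu : u ∈ O)
    (a b : G) : inN O (a * b) ↔ (inN O a ↔ inN O b) := by
  rw [inN_iff hS hu (a * b), mul_smul]
  by_cases hb : inN O b
  · have h1 : b • u ∈ O := hb u hu
    rw [← inN_iff hS h1 a]
    tauto
  · have h1 : b • u ∉ O := fun h => hb ((inN_iff hS hu b).mpr h)
    have h2 : c • (b • u) ∈ O := (hO _).mpr h1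
    have h3 : a • (c • (b • u)) = c • (a • (b • u)) := by rw [← mul_smul, ← hc, mul_smul]
    rw [inN_iff hS h2 a, h3, hO]
    tauto

lemma inN_one : inN O (1 : G) := fun u hu => by rwa [one_smul]

lemma inN_inv (hc : ∀ g, c * g = g * c) (hO : IsHalf c O) (hS : Side G O) {u : X} (hu : u ∈ O)
    (a : G) : inN O a⁻¹ ↔ inN O a := by
  have h1 := inN_mul hc hO hS hu a a⁻¹
  rw [mul_inv_cancel] at h1
  have h2 : inN O (1 : G) := inN_one
  tauto

/-- the subgroup of these elements. -/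
def NN (hc : ∀ g, c * g = g * c) (hO : IsHalf c O) (hS : Side G O) {u : X} (hu : u ∈ O) :
    Subgroup G where
  carrier := {g | inN O g}
  mul_mem' := by
    intro a b ha hb
    exact (inN_mul hc hO hS hu a b).mpr ⟨fun _ => hb, fun _ => ha⟩
  one_mem' := inN_one
  inv_mem' := by
    intro a ha
    exact (inN_inv hc hO hS hu a).mpr ha

lemma mem_NN (hc : ∀ g, c * g = g * c) (hO : IsHalf c O) (hS : Side G O) {u : X} (hu : u ∈ O)
    (g : G) : g ∈ NN hc hO hS hu ↔ inN O g := Iff.rfl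

lemma inN_comm (hc : ∀ g, c * g = g * c) (hO : IsHalf c O) (hS : Side G O) {u : X} (hu : u ∈ O)
    {z : G} (hz : z ∈ commutator G) : inN O z := by
  rw [← mem_NN hc hO hS hu]
  have h1 : commutator G ≤ NN hc hO hS hu := by
    rw [commutator_def, Subgroup.commutator_le]
    intro a _ b _
    rw [mem_NN, commutatorElement_def, inN_mul hc hO hS hu, inN_mul hc hO hS hu,
      inN_mul hc hO hS hu, inN_inv hc hO hS hu, inN_inv hc hO hS hu]
    tauto
  exact h1 hz

lemma inN_c (hO : IsHalf c O) {u : X} (hu : u ∈ O) : ¬ inN O c := fun h => (hO u).mp (h u hu) hu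

lemma inN_conj (hc : ∀ g, c * g = g * c) (hO : IsHalf c O) (hS : Side G O) {u : X} (hu : u ∈ O)
    (h g : G) : inN O (h⁻¹ * g * h) ↔ inN O g := by
  rw [inN_mul hc hO hS hu, inN_mul hc hO hS hu, inN_inv hc hO hS hu]
  tauto

lemma inN_zpowers (hc : ∀ g, c * g = g * c) (hO : IsHalf c O) (hS : Side G O) {u : X} (hu : u ∈ O)
    {g g' : G} (hg : inN O g) (h : Subgroup.zpowers g = Subgroup.zpowers g') : inN O g' := by
  have h1 : g' ∈ Subgroup.zpowers g := h ▸ Subgroup.mem_zpowers g'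
  have h2 : Subgroup.zpowers g ≤ NN hc hO hS hu := by
    rw [Subgroup.zpowers_le]
    exact hg
  exact h2 h1

section counts

variable [Fintype G]

lemma cnt_inv (x y : X) (g : G) : cnt y x g = cnt x y g⁻¹ := by
  unfold cnt
  congr 1
  ext h
  simp only [Finset.mem_filter, Finset.mem_univ, true_and]
  have h1 : h⁻¹ * g⁻¹ * h = (h⁻¹ * g * h)⁻¹ := by group
  rw [h1, inv_smul_eq_iff, eq_comm]

lemma cnt_act (x y : X) {g g' : G} (h : ∀ v : X, g • v = g' • v) : cnt x y g = cnt x y g' := by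
  unfold cnt
  congr 1
  ext k
  simp only [Finset.mem_filter, Finset.mem_univ, true_and, mul_smul, h]

lemma sum_cnt (hc : ∀ g, c * g = g * c) (hO : IsHalf c O) (hS : Side G O) {x : X} (hx : x ∈ O)
    {g : G} (hg : inN O g) : ∑ y ∈ O, (cnt x y g : ℚ) = Fintype.card G := by
  have h1 := a0_cnt x O g
  have h2 : (a0 x O g : ℚ) = 1 := by
    unfold a0
    have h3 : (Finset.univ.filter fun h : G => (h⁻¹ * g * h) • x ∈ O) = Finset.univ := by
      rw [Finset.filter_eq_self]
      intro h _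
      exact (inN_conj hc hO hS hx h g).mpr hg x hx
    rw [h3, Finset.card_univ, div_self card_ne]
  rw [h2, eq_div_iff card_ne, one_mul] at h1
  exact h1.symm

lemma sum_cnt' (hc : ∀ g, c * g = g * c) (hO : IsHalf c O) (hS : Side G O) {x : X} (hx : x ∈ O)
    {g : G} (hg : inN O g) : ∑ y ∈ O, (cnt y x g : ℚ) = Fintype.card G := by
  rw [← sum_cnt hc hO hS hx ((inN_inv hc hO hS hx g).mpr hg)]
  exact Finset.sum_congr rfl (fun y _ => by rw [cnt_inv])

lemma df_inN (hc : ∀ g, c * g = g * c) (hO : IsHalf c O) (hS : Side G O) {x y : X} (hx : x ∈ O)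
    (hy : y ∈ O) {g : G} (hg : inN O g) : df c x y g = cnt x y g := by
  unfold df
  have h1 : cnt x (c • y) g = 0 := by
    unfold cnt
    rw [Finset.card_eq_zero, Finset.filter_eq_empty_iff]
    intro h _ h2
    have h3 := (inN_conj hc hO hS hx h g).mpr hg x hx
    rw [h2] at h3
    exact (hO y).mp h3 hy
  rw [h1, Nat.cast_zero, sub_zero]

/-- transitivity on the two-element subsets of `O`. -/
def Hom2 (G : Type) [Group G] {X : Type} [MulAction G X] (O : Finset X) : Prop :=
  ∀ x ∈ O, ∀ y ∈ O, ∀ x' ∈ O, ∀ y' ∈ O, x ≠ y → x' ≠ y' →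
    ∃ k : G, (k • x = x' ∧ k • y = y') ∨ (k • x = y' ∧ k • y = x')

/-- transitivity on the pairs of different elements of `O`. -/
def Trans2 (G : Type) [Group G] {X : Type} [MulAction G X] (O : Finset X) : Prop :=
  ∀ x ∈ O, ∀ y ∈ O, ∀ x' ∈ O, ∀ y' ∈ O, x ≠ y → x' ≠ y' → ∃ k : G, k • x = x' ∧ k • y = y'

lemma hom2_cnt (hc : ∀ g, c * g = g * c) (hO : IsHalf c O) (hS : Side G O) (hH : Hom2 G O)
    {x y : X} (hx : x ∈ O) (hy : y ∈ O) (hxy : x ≠ y) {g : G} (hg : inN O g) :
    ((O.card : ℚ) - 1) * (cnt x y g + cnt y x g) = 2 * (Fintype.card G - cnt x x g) := by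
  have h1 := sum_cnt hc hO hS hx hg
  have h2 := sum_cnt' hc hO hS hx hg
  rw [← Finset.add_sum_erase O _ hx] at h1 h2
  have h3 : ∀ y' ∈ O.erase x, (cnt x y' g : ℚ) + cnt y' x g = cnt x y g + cnt y x g := by
    intro y' hy'
    obtain ⟨hne, hy'O⟩ := Finset.mem_erase.mp hy'
    obtain ⟨k, ⟨h4, h5⟩ | ⟨h4, h5⟩⟩ := hH x hx y hy x hx y' hy'O hxy (Ne.symm hne)
    · have e1 := cnt_smul k x y g
      have e2 := cnt_smul k y x g
      rw [h4, h5] at e1 e2
      rw [e1, e2]
    · have e1 := cnt_smul k x y g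
      have e2 := cnt_smul k y x g
      rw [h4, h5] at e1 e2
      rw [e1, e2, add_comm]
  have h4 := Finset.sum_congr rfl h3
  rw [Finset.sum_add_distrib, Finset.sum_const, Finset.card_erase_of_mem hx, nsmul_eq_mul,
    Nat.cast_sub (Finset.card_pos.mpr ⟨x, hx⟩)] at h4
  push_cast at h4
  linarith

lemma trans2_cnt (hc : ∀ g, c * g = g * c) (hO : IsHalf c O) (hS : Side G O) (hH : Trans2 G O)
    {x y : X} (hx : x ∈ O) (hy : y ∈ O) (hxy : x ≠ y) {g : G} (hg : inN O g) :
    ((O.card : ℚ) - 1) * cnt x y g = Fintype.card G - cnt x x g := by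
  have h1 := sum_cnt hc hO hS hx hg
  rw [← Finset.add_sum_erase O _ hx] at h1
  have h3 : ∀ y' ∈ O.erase x, (cnt x y' g : ℚ) = cnt x y g := by
    intro y' hy'
    obtain ⟨hne, hy'O⟩ := Finset.mem_erase.mp hy'
    obtain ⟨k, h4, h5⟩ := hH x hx y hy x hx y' hy'O hxy (Ne.symm hne)
    have e1 := cnt_smul k x y g
    rw [h4, h5] at e1
    rw [e1]
  have h4 := Finset.sum_congr rfl h3
  rw [Finset.sum_const, Finset.card_erase_of_mem hx, nsmul_eq_mul,
    Nat.cast_sub (Finset.card_pos.mpr ⟨x, hx⟩)] at h4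
  push_cast at h4
  linarith

/-- every point is up to sign in `O`. -/
lemma exists_rep (hc : ∀ g, c * g = g * c) (hc2 : c * c = 1) (hO : IsHalf c O) (x : X) :
    ∃ (ε : ℚ) (x' : X), x' ∈ O ∧ (∀ (y : X) (g : G), df c x y g = ε * df c x' y g) ∧
      ∀ (y : X) (g : G), df c y x g = ε * df c y x' g := by
  by_cases h : x ∈ O
  · exact ⟨1, x, h, fun y g => by rw [one_mul], fun y g => by rw [one_mul]⟩
  · refine ⟨-1, c • x, (hO x).mpr h, fun y g => ?_, fun y g => ?_⟩
    · rw [df_c_left hc hc2]; ring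
    · rw [df_c_right hc2]; ring

lemma card_gt {x y : X} (hx : x ∈ O) (hy : y ∈ O) (hxy : x ≠ y) : (O.card : ℚ) - 1 ≠ 0 := by
  have h1 : 1 < O.card := Finset.one_lt_card.mpr ⟨x, hx, y, hy, hxy⟩
  have h2 : (1 : ℚ) < O.card := by exact_mod_cast h1
  linarith

/-- **Invariant half-systems with a group which is transitive on the two-element subsets.** -/
theorem pair_of_hom2 (hc : ∀ g, c * g = g * c) (hc2 : c * c = 1) (hO : IsHalf c O)
    (hS : Side G O) (hH : Hom2 G O) (x y : X) (g g' : G)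
    (hgg : Subgroup.zpowers g = Subgroup.zpowers g') :
    df c x y g + df c y x g = df c x y g' + df c y x g' := by
  obtain ⟨ε, x', hx', hx1, hx2⟩ := exists_rep hc hc2 hO x
  obtain ⟨δ, y', hy', hy1, hy2⟩ := exists_rep hc hc2 hO y
  have hred : ∀ g : G, df c x y g + df c y x g = ε * δ * (df c x' y' g + df c y' x' g) := by
    intro g
    rw [hx1, hy2, hx2, hy1]
    ring
  rw [hred, hred]
  congr 1
  by_cases hxy : x' = y'
  · rw [hxy, df_self hc hc2 hgg]
  -- elements which preserve `O`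
  have key : ∀ g g' : G, inN O g → Subgroup.zpowers g = Subgroup.zpowers g' →
      df c x' y' g + df c y' x' g = df c x' y' g' + df c y' x' g' := by
    intro g g' hg hgg
    have hg' := inN_zpowers hc hO hS hx' hg hgg
    rw [df_inN hc hO hS hx' hy' hg, df_inN hc hO hS hy' hx' hg, df_inN hc hO hS hx' hy' hg',
      df_inN hc hO hS hy' hx' hg']
    refine mul_left_cancel₀ (card_gt hx' hy' hxy) ?_
    rw [hom2_cnt hc hO hS hH hx' hy' hxy hg, hom2_cnt hc hO hS hH hx' hy' hxy hg', cnt_self hgg]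
  by_cases hg : inN O g
  · exact key g g' hg hgg
  · have h1 : inN O (c * g) := by
      rw [inN_mul hc hO hS hx']
      have := inN_c hO hx'
      tauto
    have h2 := key _ _ h1 (zpowers_c hc hc2 hgg)
    rw [df_cg hc hc2, df_cg hc hc2, df_cg hc hc2, df_cg hc hc2] at h2
    linarith

/-- **Invariant half-systems with a doubly transitive group.** -/
theorem single_of_trans2 (hc : ∀ g, c * g = g * c) (hc2 : c * c = 1) (hO : IsHalf c O)
    (hS : Side G O) (hH : Trans2 G O) (x y : X) (g g' : G)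
    (hgg : Subgroup.zpowers g = Subgroup.zpowers g') : df c x y g = df c x y g' := by
  obtain ⟨ε, x', hx', hx1, hx2⟩ := exists_rep hc hc2 hO x
  obtain ⟨δ, y', hy', hy1, hy2⟩ := exists_rep hc hc2 hO y
  have hred : ∀ g : G, df c x y g = ε * δ * df c x' y' g := by
    intro g
    rw [hx1, hy2]
    ring
  rw [hred, hred]
  congr 1
  by_cases hxy : x' = y'
  · rw [hxy, df_self hc hc2 hgg]
  have key : ∀ g g' : G, inN O g → Subgroup.zpowers g = Subgroup.zpowers g' →
      df c x' y' g = df c x' y' g' := by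
    intro g g' hg hgg
    have hg' := inN_zpowers hc hO hS hx' hg hgg
    rw [df_inN hc hO hS hx' hy' hg, df_inN hc hO hS hx' hy' hg']
    refine mul_left_cancel₀ (card_gt hx' hy' hxy) ?_
    rw [trans2_cnt hc hO hS hH hx' hy' hxy hg, trans2_cnt hc hO hS hH hx' hy' hxy hg',
      cnt_self hgg]
  by_cases hg : inN O g
  · exact key g g' hg hgg
  · have h1 : inN O (c * g) := by
      rw [inN_mul hc hO hS hx']
      have := inN_c hO hx'
      tauto
    have h2 := key _ _ h1 (zpowers_c hc hc2 hgg)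
    rw [df_cg hc hc2, df_cg hc hc2] at h2
    linarith

end counts

end Pool.Agent.J4.H53.Col
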