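import Pool.Agent.J4.H53.Col.TwoSig
import Pool.Agent.J4.H53.Col.Frob

/-!
# Doubly transitive groups and the matrix of signs
-/

set_option autoImplicit false

open scoped Classical

namespace Pool.Agent.J4.H53.Col

open Pool.Agent.Q11.CZ Pool.Agent.N770.CP

variable {G : Type} [Group G] {X Y : Type} [MulAction G X] [MulAction G Y] {c : G} {r : X → Y}

section

variable (C : Cover c r) {x y : X} (hl : ¬ ∃ k : G, k • x = x ∧ k • y = c • y)
  (hT : TT G Y) (hxy : r x ≠ r y)

include C hl hT hxy

/-- the matrix is symmetric or skew. -/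
lemma Cover.sym_or_skew : (∀ u v : X, sz c x y u v = sz c x y v u) ∨
    ∀ u v : X, sz c x y u v = - sz c x y v u := by
  have key : ∀ u v : X, sz c x y u v = sz c x y y x * sz c x y v u := by
    intro u v
    by_cases h : r u = r v
    · rw [C.sz_zero hxy h, C.sz_zero hxy h.symm, mul_zero]
    · obtain ⟨g, g1, g2⟩ := hT _ _ _ _ hxy h
      rw [← C.eqv] at g1 g2
      have h0 := C.sz_g (x := x) (y := y) g x y
      have h1 := C.sz_g (x := x) (y := y) g y x
      rw [sz_base] at h0
      have h2 := C.sz_sq hl hT hxy (Ne.symm hxy)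
      rcases C.fib _ _ g1.symm with e1 | e1 <;> rcases C.fib _ _ g2.symm with e2 | e2 <;>
        rw [e1, e2] at h0 h1 <;> try simp only [C.sz_cl hl, C.sz_cr hl] at h0 h1
      · rw [h0, h1, h2]
      · have h3 : sz c x y u v = -1 := by linarith
        have h4 : sz c x y v u = - sz c x y y x := by linarith
        rw [h3, h4]; linarith
      · have h3 : sz c x y u v = -1 := by linarith
        have h4 : sz c x y v u = - sz c x y y x := by linarith
        rw [h3, h4]; linarith
      · have h3 : sz c x y u v = 1 := by linarith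
        have h4 : sz c x y v u = sz c x y y x := by linarith
        rw [h3, h4]; linarith
  rcases C.sz_or hl hT hxy (Ne.symm hxy) with e | e
  · left
    intro u v
    rw [key u v, e, one_mul]
  · right
    intro u v
    rw [key u v, e]
    ring

variable [Fintype X]

/-- the entries of the square. -/
lemma Cover.sq_entry {u v : X} (huv : r u ≠ r v) :
    ∑ w : X, sz c x y u w * sz c x y w v =
      (∑ w : X, sz c x y x w * sz c x y w y) * sz c x y u v := by
  have hB : ∀ (g : G) (u v : X), ∑ w : X, sz c x y (g • u) w * sz c x y w (g • v) =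
      ∑ w : X, sz c x y u w * sz c x y w v := by
    intro g u v
    refine (Fintype.sum_equiv (MulAction.toPerm g) _ _ (fun w => ?_)).symm
    simp only [MulAction.toPerm_apply]
    rw [C.sz_g, C.sz_g]
  obtain ⟨g, g1, g2⟩ := hT _ _ _ _ hxy huv
  rw [← C.eqv] at g1 g2
  have h0 := C.sz_g (x := x) (y := y) g x y
  have h1 := hB g x y
  rw [sz_base] at h0
  rcases C.fib _ _ g1.symm with e1 | e1 <;> rcases C.fib _ _ g2.symm with e2 | e2 <;>
    rw [e1, e2] at h0 h1 <;> try simp only [C.sz_cl hl, C.sz_cr hl] at h0 h1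
  · rw [← h1, h0, mul_one]
  · have h3 : sz c x y u v = -1 := by linarith
    rw [h3, ← h1]
    simp only [mul_neg, Finset.sum_neg_distrib, neg_mul]
    ring
  · have h3 : sz c x y u v = -1 := by linarith
    rw [h3, ← h1]
    simp only [mul_neg, Finset.sum_neg_distrib, neg_mul]
    ring
  · have h3 : sz c x y u v = 1 := by linarith
    rw [h3, ← h1]
    simp only [mul_neg, neg_mul, neg_neg, mul_one]

end

/-- the number of points. -/
lemma Cover.card_X [Fintype X] [Fintype Y] (C : Cover c r) :
    Fintype.card X = 2 * Fintype.card Y := by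
  have h1 : Fintype.card X = ∑ i : Y, (Finset.univ.filter fun x : X => r x = i).card := by
    rw [← Finset.card_univ]
    exact Finset.card_eq_sum_card_fiberwise (fun _ _ => Finset.mem_coe.mpr (Finset.mem_univ _))
  have h2 : ∀ i : Y, (Finset.univ.filter fun x : X => r x = i).card = 2 := by
    intro i
    obtain ⟨x, hx⟩ := C.surj i
    have h3 : (Finset.univ.filter fun x : X => r x = i) = {x, c • x} := by
      ext z
      simp only [Finset.mem_filter, Finset.mem_univ, true_and, Finset.mem_insert,
        Finset.mem_singleton]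
      constructor
      · intro hz
        exact C.fib _ _ (hx.trans hz.symm)
      · rintro (h | h)
        · rw [h, hx]
        · rw [h, C.rc, hx]
    rw [h3, Finset.card_pair (C.free x).symm]
  rw [h1, Finset.sum_congr rfl (fun i _ => h2 i), Finset.sum_const, Finset.card_univ,
    smul_eq_mul, mul_comm]

section

variable (C : Cover c r) {x y : X} (hl : ¬ ∃ k : G, k • x = x ∧ k • y = c • y)
  (hT : TT G Y) (hxy : r x ≠ r y) [Fintype X] [Fintype Y]

include C hl hT hxy

/-- the diagonal entries of the square. -/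
lemma Cover.sq_diag (hs : ∀ u v : X, sz c x y u v = sz c x y v u) (u : X) :
    ∑ w : X, sz c x y u w * sz c x y w u = 2 * Fintype.card Y - 2 := by
  have h1 : ∀ w : X, sz c x y u w * sz c x y w u = if r w = r u then 0 else 1 := by
    intro w
    split_ifs with h
    · rw [C.sz_zero hxy h, mul_zero]
    · rw [hs u w, C.sz_sq hl hT hxy h]
  rw [Finset.sum_congr rfl (fun w _ => h1 w)]
  have h2 : ∀ w : X, (if r w = r u then (0 : ℤ) else 1) = 1 - (if r w = r u then 1 else 0) := by
    intro w
    split_ifs <;> ring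
  rw [Finset.sum_congr rfl (fun w _ => h2 w), Finset.sum_sub_distrib, Finset.sum_const,
    Finset.card_univ, nsmul_eq_mul, mul_one, Finset.sum_boole]
  have h3 : (Finset.univ.filter fun w : X => r w = r u) = {u, c • u} := by
    ext z
    simp only [Finset.mem_filter, Finset.mem_univ, true_and, Finset.mem_insert,
      Finset.mem_singleton]
    constructor
    · intro hz
      exact C.fib _ _ hz.symm
    · rintro (h | h)
      · rw [h]
      · rw [h, C.rc]
  rw [h3, Finset.card_pair (C.free u).symm, C.card_X]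
  push_cast
  ring

/-- the matrix equation in the symmetric case. -/
lemma Cover.mat_sq (hs : ∀ u v : X, sz c x y u v = sz c x y v u) :
    (Mz c x y : Matrix X X ℤ) * Mz c x y =
      (∑ w : X, sz c x y x w * sz c x y w y) • (Mz c x y : Matrix X X ℤ) +
        (2 * Fintype.card Y - 2 : ℤ) • (1 - (Pm c : Matrix X X ℤ)) := by
  ext u v
  rw [Matrix.mul_apply, Matrix.add_apply, Matrix.smul_apply, Matrix.smul_apply, Matrix.sub_apply,
    Matrix.one_apply]
  simp only [Mz, Pm, Matrix.of_apply, smul_eq_mul]
  by_cases h : r u = r v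
  · rw [C.sz_zero hxy h, mul_zero, zero_add]
    rcases C.fib _ _ h with h1 | h1
    · subst h1
      rw [C.sq_diag hl hT hxy hs, if_pos rfl, if_neg (C.free v).symm]
      ring
    · have h2 : u = c • v := by rw [h1, C.cc]
      have h3 : u ≠ v := by
        intro h3
        rw [h3] at h2
        exact C.free v h2.symm
      rw [if_neg h3, if_pos h2, h2]
      have h4 := C.sq_diag hl hT hxy hs v
      simp only [C.sz_cl hl, neg_mul, Finset.sum_neg_distrib]
      rw [h4]
      ring
  · have h1 : u ≠ v := fun h1 => h (by rw [h1])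
    have h2 : u ≠ c • v := fun h2 => h (by rw [h2, C.rc])
    rw [C.sq_entry hl hT hxy h, if_neg h1, if_neg h2]
    ring

omit hT hxy [Fintype Y] in
lemma Cover.mat_c : (Mz c x y : Matrix X X ℤ) * (Pm c : Matrix X X ℤ) = - Mz c x y := by
  ext u v
  rw [Mz_mul_Pm, C.sz_cr hl]
  rfl

/-- the cubic equation. -/
lemma Cover.mat_cube (hs : ∀ u v : X, sz c x y u v = sz c x y v u) {a b : ℤ}
    (hab : a + b = ∑ w : X, sz c x y x w * sz c x y w y)
    (hab' : a * b = - 4 * (Fintype.card Y - 1)) :
    (Mz c x y : Matrix X X ℤ) * (Mz c x y - Matrix.scalar X a) * (Mz c x y - Matrix.scalar X b) =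
      0 := by
  have h1 := C.mat_sq hl hT hxy hs
  have h2 := C.mat_c hl (x := x) (y := y)
  rw [← hab] at h1
  set M : Matrix X X ℤ := Mz c x y with hM
  set P : Matrix X X ℤ := Pm c with hP
  have hsa : ∀ s : ℤ, Matrix.scalar X s = s • (1 : Matrix X X ℤ) := by
    intro s
    rw [Matrix.scalar_apply, Matrix.smul_one_eq_diagonal]
  rw [hsa, hsa, mul_assoc]
  have h3 : (M - a • (1 : Matrix X X ℤ)) * (M - b • (1 : Matrix X X ℤ)) =
      M * M - (a + b) • M + (a * b) • (1 : Matrix X X ℤ) := by
    rw [sub_mul, mul_sub, mul_sub]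
    simp only [mul_smul_comm, smul_mul_assoc, mul_one, one_mul]
    rw [smul_smul]
    module
  rw [h3, h1, hab']
  have h4 : (a + b) • M + (2 * (Fintype.card Y : ℤ) - 2) • (1 - P) - (a + b) • M +
      (-4 * ((Fintype.card Y : ℤ) - 1)) • (1 : Matrix X X ℤ) =
      (-(2 * (Fintype.card Y : ℤ) - 2)) • (1 + P) := by
    module
  rw [h4, mul_smul_comm, mul_add, mul_one, h2, add_neg_cancel, smul_zero]

end

section powers

variable (C : Cover c r) {x y : X} (hl : ¬ ∃ k : G, k • x = x ∧ k • y = c • y)
  (hT : TT G Y) (hxy : r x ≠ r y) [Fintype X] [Fintype Y] [Fintype G]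

include C hl hT hxy

/-- **Integral eigenvalues.** -/
theorem Cover.df_of_int (hs : ∀ u v : X, sz c x y u v = sz c x y v u) {a b : ℤ}
    (hab : a + b = ∑ w : X, sz c x y x w * sz c x y w y)
    (hab' : a * b = - 4 * (Fintype.card Y - 1)) {g g' : G}
    (hgg : Subgroup.zpowers g = Subgroup.zpowers g') : df c x y g = df c x y g' := by
  have hY : 2 ≤ Fintype.card Y := by
    have : 1 < Fintype.card Y := Fintype.one_lt_card_iff.mpr ⟨r x, r y, hxy⟩
    omega
  have ha0 : a ≠ 0 := by
    rintro rfl
    rw [zero_mul] at hab'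
    omega
  have hb0 : b ≠ 0 := by
    rintro rfl
    rw [mul_zero] at hab'
    omega
  have hab0 : a - b ≠ 0 := by
    intro h
    have h1 : a = b := by linarith
    rw [h1] at hab'
    nlinarith [mul_self_nonneg b]
  have hcube := C.mat_cube hl hT hxy hs hab hab'
  set f : G → ℤ := fun g => ∑ u : X, sz c x y u (g • u) with hf
  have hbound : ∀ g : G, |f g| ≤ Fintype.card X := by
    intro g
    have h1 : ∀ u ∈ (Finset.univ : Finset X), |sz c x y u (g • u)| ≤ 1 := by
      intro u _
      by_cases h : r u = r (g • u)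
      · rw [C.sz_zero hxy h]; norm_num
      · rcases C.sz_or hl hT hxy h with e | e <;> rw [e] <;> norm_num
    calc |f g| ≤ ∑ u : X, |sz c x y u (g • u)| := Finset.abs_sum_le_sum_abs _ _
      _ ≤ ∑ u : X, 1 := Finset.sum_le_sum h1
      _ = Fintype.card X := by simp
  -- the powers
  obtain ⟨u, hu⟩ := exists_unit hgg
  have hn : NeZero (Nat.card G) := ⟨Nat.card_pos.ne'⟩
  obtain ⟨p, hpB, hp, hpu⟩ := Nat.forall_exists_prime_gt_and_eq_mod u.isUnit
    (2 * Fintype.card X + a.natAbs + b.natAbs + (a - b).natAbs)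
  have hgp : g ^ p = g' := by
    rw [hu]
    have h1 : (u : ZMod (Nat.card G)).val = p % Nat.card G := by
      rw [← hpu, ZMod.val_natCast]
    rw [h1]
    have h2 : g ^ Nat.card G = 1 := pow_card_eq_one'
    conv_lhs => rw [← Nat.mod_add_div p (Nat.card G), pow_add, pow_mul, h2, one_pow, mul_one]
  have hnd : ∀ z : ℤ, z ≠ 0 → z.natAbs < p → ¬ (p : ℤ) ∣ z := by
    intro z hz hlt hd
    have h1 : p ∣ z.natAbs := Int.natCast_dvd.mp hd
    have h2 := Nat.le_of_dvd (Int.natAbs_pos.mpr hz) h1
    omega
  have h1 := trace_frob (Mz c x y : Matrix X X ℤ) (Pm g) (C.commute g) hcube hp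
    (hnd a ha0 (by omega)) (hnd b hb0 (by omega)) (hnd _ hab0 (by omega))
  rw [Pm_pow, trace_Mz, trace_Mz, hgp] at h1
  have h2 : f g' - f g = 0 := by
    by_contra hne
    refine hnd _ hne ?_ h1
    have h3 := hbound g
    have h4 := hbound g'
    have h5 : |f g' - f g| ≤ 2 * Fintype.card X := by
      calc |f g' - f g| ≤ |f g'| + |f g| := abs_sub _ _
        _ ≤ 2 * Fintype.card X := by linarith
    have h6 := Int.abs_eq_natAbs (f g' - f g)
    omega
  rw [C.df_eq_sum hl, C.df_eq_sum hl]
  have h3 : f g' = f g := by linarith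
  have h4 : (∑ u : X, sz c x y u (g' • u)) = ∑ u : X, sz c x y u (g • u) := h3
  rw [h4]

end powers

end Pool.Agent.J4.H53.Col
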