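import Pool.Agent.J4.H53.Col.TwoMain

/-!
# Doubly transitive groups: irrational eigenvalues
-/

set_option autoImplicit false

open scoped Classical

namespace Pool.Agent.J4.H53.Col

open Pool.Agent.Q11.CZ Pool.Agent.N770.CP

variable {G : Type} [Group G] {X Y : Type} [MulAction G X] [MulAction G Y] {c : G} {r : X → Y}

/-- sums of even functions. -/
lemma Cover.sum_Y [Fintype X] [Fintype Y] (C : Cover c r) {σ : Y → X} (hσ : ∀ i, r (σ i) = i)
    {F : X → ℤ} (hF : ∀ z, F (c • z) = F z) : ∑ z : X, F z = 2 * ∑ i : Y, F (σ i) := by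
  rw [← Finset.sum_fiberwise (s := Finset.univ) (g := r) (f := F), Finset.mul_sum]
  refine Finset.sum_congr rfl (fun i _ => ?_)
  have h3 : (Finset.univ.filter fun x : X => r x = i) = {σ i, c • σ i} := by
    ext z
    simp only [Finset.mem_filter, Finset.mem_univ, true_and, Finset.mem_insert,
      Finset.mem_singleton]
    constructor
    · intro hz
      exact C.fib _ _ ((hσ i).trans hz.symm)
    · rintro (h | h)
      · rw [h, hσ]
      · rw [h, C.rc, hσ]
  rw [h3, Finset.sum_pair (C.free (σ i)).symm, hF]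
  ring

section

variable (C : Cover c r) {x y : X} (hl : ¬ ∃ k : G, k • x = x ∧ k • y = c • y)
  (hT : TT G Y) (hxy : r x ≠ r y) [Fintype X] [Fintype Y]

include C hl hT hxy

/-- the parity. -/
lemma Cover.even_of_zero (hb : ∑ w : X, sz c x y x w * sz c x y w y = 0) :
    Even (Fintype.card Y) := by
  choose σ hσ using C.surj
  have h1 := C.sum_Y hσ (F := fun w => sz c x y x w * sz c x y w y) (fun z => by
    rw [C.sz_cr hl, C.sz_cl hl]; ring)
  rw [hb] at h1
  have h2 : ∑ i : Y, sz c x y x (σ i) * sz c x y (σ i) y = 0 := by linarith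
  have h3 : ∀ i : Y, ((sz c x y x (σ i) * sz c x y (σ i) y : ℤ) : ZMod 2) =
      if i = r x ∨ i = r y then 0 else 1 := by
    intro i
    split_ifs with h
    · rcases h with h | h
      · rw [C.sz_zero hxy (by rw [hσ, h]), zero_mul, Int.cast_zero]
      · rw [C.sz_zero hxy (a := σ i) (by rw [hσ, h]), mul_zero, Int.cast_zero]
    · push Not at h
      have e1 := C.sz_or hl hT hxy (a := x) (b := σ i) (by rw [hσ]; exact h.1.symm)
      have e2 := C.sz_or hl hT hxy (a := σ i) (b := y) (by rw [hσ]; exact h.2)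
      rcases e1 with e1 | e1 <;> rcases e2 with e2 | e2 <;> rw [e1, e2] <;> decide
  have h4 : ((∑ i : Y, sz c x y x (σ i) * sz c x y (σ i) y : ℤ) : ZMod 2) = 0 := by
    rw [h2, Int.cast_zero]
  rw [Int.cast_sum, Finset.sum_congr rfl (fun i _ => h3 i)] at h4
  have h5 : ∑ i : Y, (if i = r x ∨ i = r y then (0 : ZMod 2) else 1) =
      (Fintype.card Y : ZMod 2) - 2 := by
    have e : ∀ i : Y, (if i = r x ∨ i = r y then (0 : ZMod 2) else 1) =
        1 - (if i = r x then 1 else 0) - (if i = r y then 1 else 0) := by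
      intro i
      by_cases e1 : i = r x
      · have e2 : i ≠ r y := fun e2 => hxy (e1.symm.trans e2)
        simp [e1, hxy]
      · by_cases e2 : i = r y
        · simp [e2, hxy.symm]
        · simp [e1, e2]
    rw [Finset.sum_congr rfl (fun i _ => e i), Finset.sum_sub_distrib, Finset.sum_sub_distrib,
      Finset.sum_ite_eq', Finset.sum_ite_eq']
    simp only [Finset.mem_univ, if_true, Finset.sum_const, Finset.card_univ, nsmul_eq_mul, mul_one]
    ring
  rw [h5] at h4
  have h6 : (2 : ZMod 2) = 0 := by decide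
  rw [h6, sub_zero, ZMod.natCast_eq_zero_iff] at h4
  exact even_iff_two_dvd.mpr h4

/-- conference matrices have size congruent to two modulo four. -/
lemma Cover.mod_four (hs : ∀ u v : X, sz c x y u v = sz c x y v u)
    (hb : ∑ w : X, sz c x y x w * sz c x y w y = 0) (hn : 3 ≤ Fintype.card Y) :
    Fintype.card Y % 4 = 2 := by
  choose σ hσ using C.surj
  obtain ⟨k, hk⟩ := exists_out ({r x, r y} : Finset Y) (lt_of_le_of_lt Finset.card_le_two
      (by omega))
  simp only [Finset.mem_insert, Finset.mem_singleton, not_or] at hk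
  obtain ⟨w, hw⟩ := C.surj k
  have hxw : r x ≠ r w := by rw [hw]; exact Ne.symm hk.1
  have hyw : r y ≠ r w := by rw [hw]; exact Ne.symm hk.2
  -- the scalar products vanish
  have hzero : ∀ u v : X, r u ≠ r v → ∑ i : Y, sz c x y u (σ i) * sz c x y v (σ i) = 0 := by
    intro u v huv
    have h1 := C.sum_Y hσ (F := fun w => sz c x y u w * sz c x y w v) (fun z => by
      rw [C.sz_cr hl, C.sz_cl hl]; ring)
    rw [C.sq_entry hl hT hxy huv, hb, zero_mul] at h1
    have h2 : ∑ i : Y, sz c x y u (σ i) * sz c x y (σ i) v = 0 := by linarith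
    rw [← h2]
    exact Finset.sum_congr rfl (fun i _ => by rw [hs v (σ i)])
  have hnorm : ∑ i : Y, sz c x y x (σ i) * sz c x y x (σ i) = (Fintype.card Y : ℤ) - 1 := by
    have e : ∀ i : Y, sz c x y x (σ i) * sz c x y x (σ i) = 1 - if i = r x then 1 else 0 := by
      intro i
      split_ifs with h
      · rw [C.sz_zero hxy (a := x) (b := σ i) (by rw [hσ, h])]; norm_num
      · rw [C.sz_sq hl hT hxy (by rw [hσ]; exact Ne.symm h)]; norm_num
    rw [Finset.sum_congr rfl (fun i _ => e i), Finset.sum_sub_distrib, Finset.sum_ite_eq']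
    simp
  set F : Y → ℤ := fun i => (sz c x y x (σ i) + sz c x y y (σ i)) *
    (sz c x y x (σ i) + sz c x y w (σ i)) with hF
  have htot : ∑ i : Y, F i = (Fintype.card Y : ℤ) - 1 := by
    have e : ∀ i : Y, F i = sz c x y x (σ i) * sz c x y x (σ i) +
        sz c x y x (σ i) * sz c x y w (σ i) + sz c x y y (σ i) * sz c x y x (σ i) +
        sz c x y y (σ i) * sz c x y w (σ i) := by
      intro i
      simp only [hF]
      ring
    rw [Finset.sum_congr rfl (fun i _ => e i), Finset.sum_add_distrib, Finset.sum_add_distrib,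
      Finset.sum_add_distrib, hnorm, hzero x w hxw, hzero y x (Ne.symm hxy), hzero y w hyw]
    ring
  -- the values at `σ` of the three indices
  have hval : ∀ u v z : X, r z = r u → sz c x y v z * sz c x y w z =
      sz c x y v u * sz c x y w u := by
    intro u v z hz
    rcases C.fib _ _ hz.symm with h | h
    · rw [h]
    · rw [h, C.sz_cr hl, C.sz_cr hl]; ring
  have hval' : ∀ z : X, r z = r y → sz c x y x z * sz c x y w z =
      sz c x y x y * sz c x y w y := fun z hz => hval y x z hz
  have hval'' : ∀ z : X, r z = r w → sz c x y y z * sz c x y x z =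
      sz c x y y w * sz c x y x w := by
    intro z hz
    rcases C.fib _ _ hz.symm with h | h
    · rw [h]
    · rw [h, C.sz_cr hl, C.sz_cr hl]; ring
  have hFx : F (r x) = sz c x y y x * sz c x y w x := by
    simp only [hF]
    rw [C.sz_zero hxy (a := x) (b := σ (r x)) (by rw [hσ]), zero_add, zero_add]
    exact hval x y _ (hσ _)
  have hFy : F (r y) = 1 + sz c x y x y * sz c x y w y := by
    simp only [hF]
    rw [C.sz_zero hxy (a := y) (b := σ (r y)) (by rw [hσ]), add_zero, mul_add, hval' _ (hσ _),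
      C.sz_sq hl hT hxy (by rw [hσ]; exact hxy)]
  have hFw : F (r w) = 1 + sz c x y y w * sz c x y x w := by
    simp only [hF]
    rw [C.sz_zero hxy (a := w) (b := σ (r w)) (by rw [hσ]), add_zero, add_mul, hval'' _ (hσ _),
      C.sz_sq hl hT hxy (by rw [hσ]; exact hxw)]
  have hrest : ∀ i : Y, i ≠ r x → i ≠ r y → i ≠ r w → (4 : ℤ) ∣ F i := by
    intro i h1 h2 h3
    have e1 := C.sz_or hl hT hxy (a := x) (b := σ i) (by rw [hσ]; exact Ne.symm h1)
    have e2 := C.sz_or hl hT hxy (a := y) (b := σ i) (by rw [hσ]; exact Ne.symm h2)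
    have e3 := C.sz_or hl hT hxy (a := w) (b := σ i) (by rw [hσ]; exact Ne.symm h3)
    simp only [hF]
    rcases e1 with e1 | e1 <;> rcases e2 with e2 | e2 <;> rcases e3 with e3 | e3 <;>
      rw [e1, e2, e3] <;> norm_num
  have hsplit : ∑ i : Y, F i = F (r x) + F (r y) + F (r w) +
      ∑ i ∈ ((Finset.univ.erase (r x)).erase (r y)).erase (r w), F i := by
    rw [← Finset.add_sum_erase _ _ (Finset.mem_univ (r x)),
      ← Finset.add_sum_erase _ _ (Finset.mem_erase.mpr ⟨Ne.symm hxy, Finset.mem_univ (r y)⟩),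
      ← Finset.add_sum_erase _ _ (Finset.mem_erase.mpr ⟨Ne.symm hyw,
        Finset.mem_erase.mpr ⟨Ne.symm hxw, Finset.mem_univ (r w)⟩⟩)]
    ring
  have hdiv : (4 : ℤ) ∣ ∑ i ∈ ((Finset.univ.erase (r x)).erase (r y)).erase (r w), F i := by
    refine Finset.dvd_sum (fun i hi => ?_)
    simp only [Finset.mem_erase, Finset.mem_univ, and_true] at hi
    exact hrest i hi.2.2 hi.2.1 hi.1
  rw [htot, hFx, hFy, hFw] at hsplit
  obtain ⟨m, hm⟩ := hdiv
  rw [hm, hs y x, hs w x, hs w y] at hsplit
  have e1 := C.sz_or hl hT hxy hxy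
  have e2 := C.sz_or hl hT hxy hxw
  have e3 := C.sz_or hl hT hxy hyw
  rcases e1 with e1 | e1 <;> rcases e2 with e2 | e2 <;> rcases e3 with e3 | e3 <;>
    rw [e1, e2, e3] at hsplit <;> omega

/-- **Irrational eigenvalues.** -/
theorem Cover.zero_of_not_square (hs : ∀ u v : X, sz c x y u v = sz c x y v u)
    (hsq : ¬ IsSquare ((∑ w : X, sz c x y x w * sz c x y w y) ^ 2 +
      16 * ((Fintype.card Y : ℤ) - 1))) : ∑ w : X, sz c x y x w * sz c x y w y = 0 := by
  by_contra hb
  set b : ℤ := ∑ w : X, sz c x y x w * sz c x y w y with hbdef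
  set n : ℤ := (Fintype.card Y : ℤ) with hn
  have hn2 : 2 ≤ n := by
    have : 1 < Fintype.card Y := Fintype.one_lt_card_iff.mpr ⟨r x, r y, hxy⟩
    omega
  have h1 := C.mat_sq hl hT hxy hs
  rw [← hbdef, ← hn] at h1
  have h2 := C.mat_c hl (x := x) (y := y)
  have h2' : (Pm c : Matrix X X ℤ) * (Mz c x y : Matrix X X ℤ) = - Mz c x y := by
    rw [← (C.commute (x := x) (y := y) c).eq, h2]
  have h3 : (Pm c : Matrix X X ℤ) * Pm c = 1 := by
    rw [Pm_mul, C.hc2, Pm_one]
  -- real matrices
  set ρ : Matrix X X ℤ →+* Matrix X X ℝ := (Int.castRingHom ℝ).mapMatrix with hρ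
  have htr : ∀ N : Matrix X X ℤ, (ρ N).trace = ((N.trace : ℤ) : ℝ) := by
    intro N
    rw [Matrix.trace, Matrix.trace, Int.cast_sum]
    rfl
  have hz : ∀ (z : ℤ) (N : Matrix X X ℤ), ρ (z • N) = (z : ℝ) • ρ N := by
    intro z N
    rw [map_zsmul]
    exact (Int.cast_smul_eq_zsmul ℝ z (ρ N)).symm
  set M : Matrix X X ℝ := ρ (Mz c x y) with hM
  set P : Matrix X X ℝ := ρ (Pm c) with hP
  have k1 : M * M = (b : ℝ) • M + (2 * (n : ℝ) - 2) • (1 - P) := by
    have := congrArg ρ h1
    rw [map_mul, map_add, hz, hz, map_sub, map_one] at this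
    rw [this]
    push_cast
    rfl
  have k2 : M * P = - M := by
    have := congrArg ρ h2
    rwa [map_mul, map_neg] at this
  have k2' : P * M = - M := by
    have := congrArg ρ h2'
    rwa [map_mul, map_neg] at this
  have k3 : P * P = 1 := by
    have := congrArg ρ h3
    rwa [map_mul, map_one] at this
  set Δ : ℝ := (b : ℝ) ^ 2 + 16 * ((n : ℝ) - 1) with hΔ
  have hnR : (2 : ℝ) ≤ n := by exact_mod_cast hn2
  have hΔ0 : 0 < Δ := by
    have : 0 ≤ (b : ℝ) ^ 2 := sq_nonneg _
    linarith
  set δ : ℝ := Real.sqrt Δ with hδ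
  have hδ0 : 0 < δ := Real.sqrt_pos.mpr hΔ0
  have hδ2 : δ * δ = Δ := Real.mul_self_sqrt hΔ0.le
  set E : Matrix X X ℝ := (1 / 2 : ℝ) • (1 - P) with hE
  have m1 : M * E = M := by
    rw [hE, mul_smul_comm, mul_sub, mul_one, k2]
    module
  have m2 : E * M = M := by
    rw [hE, smul_mul_assoc, sub_mul, one_mul, k2']
    module
  have m3 : E * E = E := by
    rw [hE, smul_mul_assoc, mul_smul_comm, sub_mul, mul_sub, mul_sub, one_mul, mul_one, one_mul, k3]
    module
  have m4 : M * M = (b : ℝ) • M + (4 * ((n : ℝ) - 1)) • E := by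
    rw [k1, hE]
    module
  set α : ℝ := (1 / 2) * (1 - b / δ) with hα
  set β : ℝ := 1 / δ with hβ
  set Q : Matrix X X ℝ := α • E + β • M with hQ
  have hQQ : Q * Q = Q := by
    have e1 : Q * Q = (α * α + β * β * (4 * ((n : ℝ) - 1))) • E +
        (2 * α * β + β * β * b) • M := by
      rw [hQ, add_mul, mul_add, mul_add]
      simp only [smul_mul_assoc, mul_smul_comm]
      rw [m1, m2, m3, m4]
      module
    have e2 : α * α + β * β * (4 * ((n : ℝ) - 1)) = α := by
      rw [hα, hβ]
      have : δ ≠ 0 := hδ0.ne'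
      field_simp
      have h5 : δ ^ 2 = (b : ℝ) ^ 2 + 16 * ((n : ℝ) - 1) := by rw [pow_two, hδ2]
      linear_combination (-1 : ℝ) * h5
    have e3 : 2 * α * β + β * β * b = β := by
      rw [hα, hβ]
      have : δ ≠ 0 := hδ0.ne'
      field_simp
      ring
    rw [e1, e2, e3]
  obtain ⟨k, hk⟩ := trace_idem Q hQQ
  have t1 : M.trace = 0 := by
    rw [hM, htr]
    have : (Mz c x y : Matrix X X ℤ).trace = 0 := by
      rw [Matrix.trace]
      exact Finset.sum_eq_zero (fun u _ => C.sz_zero hxy rfl)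
    rw [this, Int.cast_zero]
  have t2 : P.trace = 0 := by
    rw [hP, htr]
    have : (Pm c : Matrix X X ℤ).trace = 0 := by
      rw [Matrix.trace]
      refine Finset.sum_eq_zero (fun u _ => ?_)
      simp only [Matrix.diag_apply, Pm, Matrix.of_apply]
      rw [if_neg (C.free u).symm]
    rw [this, Int.cast_zero]
  have t3 : E.trace = n := by
    have e : (n : ℝ) = (Fintype.card Y : ℝ) := by
      rw [hn]
      norm_cast
    rw [hE, Matrix.trace_smul, Matrix.trace_sub, Matrix.trace_one, t2, C.card_X, e]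
    push_cast
    rw [smul_eq_mul]
    ring
  have t4 : Q.trace = α * n := by
    have e1 : (α • E).trace = α * E.trace := by rw [Matrix.trace_smul, smul_eq_mul]
    have e2 : (β • M).trace = β * M.trace := by rw [Matrix.trace_smul, smul_eq_mul]
    rw [hQ, Matrix.trace_add, e1, e2, t1, t3]
    ring
  rw [t4] at hk
  have h5 : (n : ℝ) * b = δ * (n - 2 * k) := by
    rw [← hk, hα]
    field_simp
    ring
  have hne : ((n : ℤ) - 2 * k : ℤ) ≠ 0 := by
    intro h6
    have h7 : (n : ℝ) - 2 * k = 0 := by exact_mod_cast h6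
    rw [h7, mul_zero] at h5
    have h8 : n * b = 0 := by exact_mod_cast h5
    rcases mul_eq_zero.mp h8 with h9 | h9
    · omega
    · exact hb h9
  apply hsq
  rw [← Rat.isSquare_intCast_iff]
  refine ⟨(n * b : ℚ) / ((n : ℚ) - 2 * k), ?_⟩
  have hneQ : (n : ℚ) - 2 * k ≠ 0 := by exact_mod_cast hne
  rw [div_mul_div_comm, eq_div_iff (mul_ne_zero hneQ hneQ)]
  have h6 : Δ * ((n - 2 * k) * (n - 2 * k)) = (n * b) * (n * b) := by
    rw [h5, ← hδ2]
    ring
  rw [hΔ] at h6
  exact_mod_cast h6

end

section final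

variable (C : Cover c r) (hT : TT G Y) [Fintype X] [Fintype Y] [Fintype G]

include C hT

/-- square discriminant. -/
lemma Cover.df_of_square {x y : X} (hl : ¬ ∃ k : G, k • x = x ∧ k • y = c • y) (hxy : r x ≠ r y)
    (hs : ∀ u v : X, sz c x y u v = sz c x y v u)
    (hsq : IsSquare ((∑ w : X, sz c x y x w * sz c x y w y) ^ 2 +
      16 * ((Fintype.card Y : ℤ) - 1))) {g g' : G}
    (hgg : Subgroup.zpowers g = Subgroup.zpowers g') : df c x y g = df c x y g' := by
  obtain ⟨δ, hδ⟩ := hsq
  set b : ℤ := ∑ w : X, sz c x y x w * sz c x y w y with hb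
  have hpar : ∃ t : ℤ, b + δ = 2 * t := by
    have h1 : Even (b + δ) ∨ Odd (b + δ) := Int.even_or_odd _
    rcases h1 with h1 | h1
    · obtain ⟨t, ht⟩ := h1
      exact ⟨t, by omega⟩
    · exfalso
      have h2 : Odd (b - δ) := by
        obtain ⟨t, ht⟩ := h1
        exact ⟨t - δ, by omega⟩
      have h3 : Odd ((b + δ) * (b - δ)) := h1.mul h2
      have h4 : (b + δ) * (b - δ) = 2 * (-8 * ((Fintype.card Y : ℤ) - 1)) := by linarith
      rw [h4] at h3
      rw [← Int.not_even_iff_odd] at h3
      exact h3 ⟨_, two_mul _⟩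
  obtain ⟨t, ht⟩ := hpar
  refine C.df_of_int hl hT hxy hs (a := t) (b := b - t) (by ring) ?_ hgg
  have h1 : δ = 2 * t - b := by linarith
  rw [h1] at hδ
  linarith

/-- **Doubly transitive groups of odd degree.** -/
theorem Cover.df_odd (hn : Odd (Fintype.card Y)) (x y : X) (g g' : G)
    (hgg : Subgroup.zpowers g = Subgroup.zpowers g') : df c x y g = df c x y g' := by
  by_cases h1 : y = x
  · rw [h1, df_self C.hc C.hc2 hgg]
  by_cases h2 : y = c • x
  · rw [h2, df_c_right C.hc2, df_c_right C.hc2, df_self C.hc C.hc2 hgg]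
  by_cases hl : ∃ k : G, k • x = x ∧ k • y = c • y
  · obtain ⟨k, h4, h5⟩ := hl
    rw [df_unlinked h4 h5, df_unlinked h4 h5]
  have hxy := C.ne_of h1 h2
  rcases C.sym_or_skew hl hT hxy with hs | hs
  · by_cases hsq : IsSquare ((∑ w : X, sz c x y x w * sz c x y w y) ^ 2 +
      16 * ((Fintype.card Y : ℤ) - 1))
    · exact C.df_of_square hT hl hxy hs hsq hgg
    · exfalso
      have h3 := C.even_of_zero hl hT hxy (C.zero_of_not_square hl hT hxy hs hsq)
      exact Nat.not_even_iff_odd.mpr hn h3
  · exfalso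
    have h3 : ∑ w : X, sz c x y x w * sz c x y w y = 0 := by
      have e1 := C.sq_entry hl hT hxy (Ne.symm hxy)
      have e2 : ∑ w : X, sz c x y y w * sz c x y w x = ∑ w : X, sz c x y x w * sz c x y w y := by
        refine Finset.sum_congr rfl (fun w _ => ?_)
        rw [hs y w, hs w x]
        ring
      rw [e2, hs y x, sz_base] at e1
      linarith
    exact Nat.not_even_iff_odd.mpr hn (C.even_of_zero hl hT hxy h3)

/-- **Doubly transitive groups, sums.** -/
theorem Cover.df_height (hn : Fintype.card Y % 4 ≠ 2 ∨ IsSquare (Fintype.card Y - 1)) (x y : X)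
    (g g' : G) (hgg : Subgroup.zpowers g = Subgroup.zpowers g') :
    df c x y g + df c y x g = df c x y g' + df c y x g' := by
  by_cases h1 : y = x
  · rw [h1, df_self C.hc C.hc2 hgg]
  by_cases h2 : y = c • x
  · rw [h2, df_c_right C.hc2, df_c_right C.hc2, df_c_left C.hc C.hc2, df_c_left C.hc C.hc2,
      df_self C.hc C.hc2 hgg]
  have hxy := C.ne_of h1 h2
  by_cases hl : ∃ k : G, k • x = x ∧ k • y = c • y
  · obtain ⟨k, h4, h5⟩ := hl
    -- the pair in the other order is unlinked as well
    obtain ⟨s, s1, s2⟩ := hT _ _ _ _ hxy (Ne.symm hxy)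
    rw [← C.eqv] at s1 s2
    have hl' : ∃ k : G, k • y = y ∧ k • x = c • x := by
      refine ⟨s * k * s⁻¹, ?_, ?_⟩
      · rw [mul_smul, mul_smul]
        rcases C.fib _ _ s1.symm with e | e
        · rw [← e, inv_smul_smul, h4]
        · have e' : y = c • (s • x) := by rw [e, C.cc]
          rw [e', ← C.cg, inv_smul_smul, C.cg, C.cg, C.cg, h4]
      · rw [mul_smul, mul_smul]
        rcases C.fib _ _ s2.symm with e | e
        · rw [← e, inv_smul_smul, h5, C.cg]
        · have e' : x = c • (s • y) := by rw [e, C.cc]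
          rw [e', ← C.cg, inv_smul_smul, C.cg, C.cg, h5, C.cg, C.cg]
    obtain ⟨k', h6, h7⟩ := hl'
    rw [df_unlinked h4 h5, df_unlinked h4 h5, df_unlinked h6 h7, df_unlinked h6 h7]
  rcases C.sym_or_skew hl hT hxy with hs | hs
  · have hgx : ∃ s : G, s • x = y ∧ s • y = x := by
      have h3 := hs x y
      rw [sz_base] at h3
      unfold sz at h3
      by_contra hcon
      rw [if_neg hcon] at h3
      split_ifs at h3
      omega
    obtain ⟨s, s1, s2⟩ := hgx
    have hdf : ∀ g : G, df c y x g = df c x y g := by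
      intro g
      have := df_smul C.hc s x y g
      rw [s1, s2] at this
      exact this
    rw [hdf, hdf]
    by_cases hsq : IsSquare ((∑ w : X, sz c x y x w * sz c x y w y) ^ 2 +
      16 * ((Fintype.card Y : ℤ) - 1))
    · rw [C.df_of_square hT hl hxy hs hsq hgg]
    · exfalso
      have h3 := C.zero_of_not_square hl hT hxy hs hsq
      rw [h3] at hsq
      have hn2 : 2 ≤ Fintype.card Y := by
        have : 1 < Fintype.card Y := Fintype.one_lt_card_iff.mpr ⟨r x, r y, hxy⟩
        omega
      have hnsq : ¬ IsSquare (Fintype.card Y - 1) := by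
        rintro ⟨m, hm⟩
        apply hsq
        refine ⟨4 * m, ?_⟩
        have hm' : (Fintype.card Y : ℤ) - 1 = m * m := by
          have : (Fintype.card Y : ℤ) - 1 = ((Fintype.card Y - 1 : ℕ) : ℤ) := by
            push_cast [Nat.cast_sub (by omega : 1 ≤ Fintype.card Y)]
            ring
          rw [this, hm]
          push_cast
          ring
        rw [hm']
        ring
      have hn3 : 3 ≤ Fintype.card Y := by
        by_contra h4
        have h5 : Fintype.card Y = 2 := by omega
        apply hnsq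
        rw [h5]
        exact ⟨1, rfl⟩
      have h4 := C.mod_four hl hT hxy hs h3 hn3
      rcases hn with h | h
      · exact h h4
      · exact hnsq h
  · -- skew
    have hgx : ∃ s : G, s • x = y ∧ s • y = c • x := by
      have h3 := hs y x
      rw [sz_base] at h3
      unfold sz at h3
      by_contra hcon
      rw [if_neg hcon] at h3
      split_ifs at h3
    obtain ⟨s, s1, s2⟩ := hgx
    have hdf : ∀ g : G, df c x y g + df c y x g = 0 := by
      intro g
      have := df_smul C.hc s x y g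
      rw [s1, s2, df_c_right C.hc2] at this
      linarith
    rw [hdf, hdf]

end final

end Pool.Agent.J4.H53.Col
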