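import Pool.Agent.J4.H53.Col.AltMain

/-!
# The signs of pairs for a doubly transitive group
-/

set_option autoImplicit false

open scoped Classical

namespace Pool.Agent.J4.H53.Col

open Pool.Agent.Q11.CZ Pool.Agent.N770.CP

variable {G : Type} [Group G] {X Y : Type} [MulAction G X] [MulAction G Y] {c : G} {r : X → Y}

/-- double transitivity -/
def TT (G : Type) [Group G] (Y : Type) [MulAction G Y] : Prop :=
  ∀ i j i' j' : Y, i ≠ j → i' ≠ j' → ∃ g : G, g • i = i' ∧ g • j = j'

/-- the sign of the pair `(a, b)` with respect to the orbit of `(x, y)`. -/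
noncomputable def sz (c : G) (x y a b : X) : ℤ :=
  if ∃ g : G, g • x = a ∧ g • y = b then 1 else if ∃ g : G, g • x = a ∧ g • y = c • b then -1 else 0

section

variable (C : Cover c r) {x y : X} (hl : ¬ ∃ k : G, k • x = x ∧ k • y = c • y)

include C hl

lemma Cover.exc (a b : X) (h : ∃ g : G, g • x = a ∧ g • y = b) :
    ¬ ∃ g : G, g • x = a ∧ g • y = c • b := by
  obtain ⟨g, hg1, hg2⟩ := h
  rintro ⟨h, hh1, hh2⟩
  apply hl
  refine ⟨g⁻¹ * h, ?_, ?_⟩
  · rw [mul_smul, hh1, ← hg1, inv_smul_smul]
  · rw [mul_smul, hh2, ← hg2, C.cg, inv_smul_smul]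

lemma Cover.sz_cr (a b : X) : sz c x y a (c • b) = - sz c x y a b := by
  unfold sz
  rw [C.cc]
  by_cases h1 : ∃ g : G, g • x = a ∧ g • y = b
  · have h2 := C.exc hl a b h1
    simp only [if_neg h2, if_pos h1]
  · by_cases h2 : ∃ g : G, g • x = a ∧ g • y = c • b
    · simp only [if_pos h2, if_neg h1, neg_neg]
    · simp only [if_neg h2, if_neg h1, neg_zero]

omit hl in
lemma Cover.sz_g (g : G) (a b : X) : sz c x y (g • a) (g • b) = sz c x y a b := by
  have key : ∀ b : X, (∃ h : G, h • x = g • a ∧ h • y = g • b) ↔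
      ∃ h : G, h • x = a ∧ h • y = b := by
    intro b
    constructor
    · rintro ⟨h, h1, h2⟩
      exact ⟨g⁻¹ * h, by rw [mul_smul, h1, inv_smul_smul], by rw [mul_smul, h2, inv_smul_smul]⟩
    · rintro ⟨h, h1, h2⟩
      exact ⟨g * h, by rw [mul_smul, h1], by rw [mul_smul, h2]⟩
  unfold sz
  rw [← C.cg]
  simp only [key]

lemma Cover.sz_cl (a b : X) : sz c x y (c • a) b = - sz c x y a b := by
  have h1 := C.sz_g (x := x) (y := y) c a (c • b)
  rw [C.cc] at h1
  rw [h1, C.sz_cr hl]

omit hl C [MulAction G Y] in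
lemma sz_base : sz c x y x y = 1 := by
  unfold sz
  rw [if_pos ⟨1, one_smul _ _, one_smul _ _⟩]

omit hl in
lemma Cover.sz_zero (hxy : r x ≠ r y) {a b : X} (h : r a = r b) : sz c x y a b = 0 := by
  unfold sz
  rw [if_neg, if_neg]
  · rintro ⟨g, h1, h2⟩
    have h3 : g • r x = g • r y := by rw [← C.eqv, ← C.eqv, h1, h2, C.rc, h]
    exact hxy (MulAction.injective g h3)
  · rintro ⟨g, h1, h2⟩
    have h3 : g • r x = g • r y := by rw [← C.eqv, ← C.eqv, h1, h2, h]
    exact hxy (MulAction.injective g h3)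

lemma Cover.sz_or (hT : TT G Y) (hxy : r x ≠ r y) {a b : X} (h : r a ≠ r b) :
    sz c x y a b = 1 ∨ sz c x y a b = -1 := by
  obtain ⟨g, g1, g2⟩ := hT _ _ _ _ hxy h
  rw [← C.eqv] at g1 g2
  have h0 := C.sz_g (x := x) (y := y) g x y
  rw [sz_base] at h0
  rcases C.fib _ _ g1.symm with e1 | e1 <;> rcases C.fib _ _ g2.symm with e2 | e2 <;>
    rw [e1, e2] at h0
  · exact Or.inl h0
  · rw [C.sz_cr hl] at h0
    right; linarith
  · rw [C.sz_cl hl] at h0
    right; linarith
  · rw [C.sz_cl hl, C.sz_cr hl] at h0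
    left; linarith

lemma Cover.sz_sq (hT : TT G Y) (hxy : r x ≠ r y) {a b : X} (h : r a ≠ r b) :
    sz c x y a b * sz c x y a b = 1 := by
  rcases C.sz_or hl hT hxy h with e | e <;> rw [e] <;> norm_num

end

section counts

variable (C : Cover c r) {x y : X} (hl : ¬ ∃ k : G, k • x = x ∧ k • y = c • y) [Fintype G] [Fintype X]

include C hl

/-- **The differences in terms of the signs.** -/
lemma Cover.df_eq_sum (g : G) : df c x y g =
    ((Finset.univ.filter fun h : G => h • x = x ∧ h • y = y).card : ℚ) *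
      ((∑ u : X, sz c x y u (g • u) : ℤ) : ℚ) := by
  set S : ℕ := (Finset.univ.filter fun h : G => h • x = x ∧ h • y = y).card with hS
  -- the number of the elements mapping the pair to a given pair
  have horb : ∀ u v : X, ((Finset.univ.filter fun h : G => h • x = u ∧ h • y = v).card : ℤ) =
      if ∃ h : G, h • x = u ∧ h • y = v then (S : ℤ) else 0 := by
    intro u v
    split_ifs with h
    · obtain ⟨k, k1, k2⟩ := h
      rw [hS]
      norm_cast
      refine (Finset.card_bijective (fun h => k * h) (Group.mulLeft_bijective k) (fun h => ?_)).symm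
      simp only [Finset.mem_filter, Finset.mem_univ, true_and, mul_smul]
      rw [← k1, ← k2]
      constructor
      · rintro ⟨h1, h2⟩
        rw [h1, h2]
        exact ⟨rfl, rfl⟩
      · rintro ⟨h1, h2⟩
        exact ⟨MulAction.injective k h1, MulAction.injective k h2⟩
    · rw [Nat.cast_eq_zero, Finset.card_eq_zero, Finset.filter_eq_empty_iff]
      intro k _ hk
      exact h ⟨k, hk⟩
  have hcnt : ∀ w : X, (cnt x w g : ℤ) =
      ∑ u : X, ((Finset.univ.filter fun h : G => h • x = u ∧ g • u = h • w).card : ℤ) := by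
    intro w
    have h1 : (Finset.univ.filter fun h : G => (h⁻¹ * g * h) • x = w) =
        (Finset.univ : Finset G).filter (fun h => g • (h • x) = h • w) := by
      ext h
      simp only [Finset.mem_filter, Finset.mem_univ, true_and]
      rw [mul_assoc, mul_smul, inv_smul_eq_iff, mul_smul]
    unfold cnt
    rw [h1, Finset.card_eq_sum_card_fiberwise (f := fun h : G => h • x) (t := Finset.univ)
      (fun _ _ => Finset.mem_coe.mpr (Finset.mem_univ _))]
    push_cast
    refine Finset.sum_congr rfl (fun u _ => ?_)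
    congr 2
    ext h
    simp only [Finset.mem_filter, Finset.mem_univ, true_and]
    constructor
    · rintro ⟨h2, h3⟩
      exact ⟨h3, by rw [← h3]; exact h2⟩
    · rintro ⟨h2, h3⟩
      exact ⟨by rw [h2]; exact h3, h2⟩
  have hz : (cnt x y g : ℤ) - cnt x (c • y) g = S * ∑ u : X, sz c x y u (g • u) := by
    rw [hcnt, hcnt, ← Finset.sum_sub_distrib, Finset.mul_sum]
    refine Finset.sum_congr rfl (fun u _ => ?_)
    have e1 := horb u (g • u)
    have e2 := horb u (c • (g • u))
    have e3 : (Finset.univ.filter fun h : G => h • x = u ∧ g • u = h • y) =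
        Finset.univ.filter fun h : G => h • x = u ∧ h • y = g • u := by
      ext h
      simp only [Finset.mem_filter, Finset.mem_univ, true_and]
      constructor <;> rintro ⟨h1, h2⟩ <;> exact ⟨h1, h2.symm⟩
    have e4 : (Finset.univ.filter fun h : G => h • x = u ∧ g • u = h • (c • y)) =
        Finset.univ.filter fun h : G => h • x = u ∧ h • y = c • (g • u) := by
      ext h
      simp only [Finset.mem_filter, Finset.mem_univ, true_and]
      constructor
      · rintro ⟨h1, h2⟩
        refine ⟨h1, ?_⟩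
        rw [h2, C.cg, C.cc]
      · rintro ⟨h1, h2⟩
        refine ⟨h1, ?_⟩
        rw [C.cg, h2, C.cc]
    rw [e3, e4, e1, e2]
    unfold sz
    by_cases h1 : ∃ h : G, h • x = u ∧ h • y = g • u
    · have h2 := C.exc hl u (g • u) h1
      rw [if_pos h1, if_neg h2, if_pos h1]
      ring
    · by_cases h2 : ∃ h : G, h • x = u ∧ h • y = c • (g • u)
      · rw [if_neg h1, if_pos h2, if_neg h1, if_pos h2]
        ring
      · rw [if_neg h1, if_neg h2, if_neg h1, if_neg h2]
        ring
  unfold df
  exact_mod_cast hz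

end counts

section mats

variable (C : Cover c r) {x y : X} (hl : ¬ ∃ k : G, k • x = x ∧ k • y = c • y) [Fintype X]

/-- the matrix of the signs. -/
noncomputable def Mz (c : G) (x y : X) : Matrix X X ℤ := Matrix.of fun u v => sz c x y u v

/-- the permutation matrices. -/
noncomputable def Pm (g : G) : Matrix X X ℤ := Matrix.of fun u v => if u = g • v then 1 else 0

omit [Fintype X] in
lemma Pm_one : (Pm (1 : G) : Matrix X X ℤ) = 1 := by
  ext u v
  simp only [Pm, Matrix.of_apply, one_smul, Matrix.one_apply]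

lemma Pm_mul (g h : G) : (Pm g : Matrix X X ℤ) * Pm h = Pm (g * h) := by
  ext u v
  rw [Matrix.mul_apply]
  simp only [Pm, Matrix.of_apply, mul_ite, mul_one, mul_zero]
  rw [Finset.sum_ite_eq']
  simp only [Finset.mem_univ, if_true, mul_smul]

lemma Pm_pow (g : G) (n : ℕ) : (Pm g : Matrix X X ℤ) ^ n = Pm (g ^ n) := by
  induction n with
  | zero => rw [pow_zero, pow_zero, Pm_one]
  | succ n ih => rw [pow_succ, ih, Pm_mul, ← pow_succ]

lemma Mz_mul_Pm (g : G) (u v : X) :
    ((Mz c x y : Matrix X X ℤ) * (Pm g : Matrix X X ℤ)) u v = sz c x y u (g • v) := by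
  rw [Matrix.mul_apply]
  simp only [Mz, Pm, Matrix.of_apply, mul_ite, mul_one, mul_zero]
  rw [Finset.sum_ite_eq']
  simp only [Finset.mem_univ, if_true]

include C in
lemma Cover.Pm_mul_Mz (g : G) (u v : X) :
    ((Pm g : Matrix X X ℤ) * (Mz c x y : Matrix X X ℤ)) u v = sz c x y u (g • v) := by
  rw [Matrix.mul_apply]
  simp only [Mz, Pm, Matrix.of_apply, ite_mul, one_mul, zero_mul]
  have h1 : ∀ w : X, (if u = g • w then sz c x y w v else 0) =
      if w = g⁻¹ • u then sz c x y w v else 0 := by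
    intro w
    by_cases h : u = g • w
    · rw [if_pos h, if_pos (by rw [h, inv_smul_smul])]
    · rw [if_neg h, if_neg (fun h2 => h (by rw [h2, smul_inv_smul]))]
  rw [Finset.sum_congr rfl (fun w _ => h1 w), Finset.sum_ite_eq']
  simp only [Finset.mem_univ, if_true]
  have h2 := C.sz_g (x := x) (y := y) g (g⁻¹ • u) v
  rw [smul_inv_smul] at h2
  exact h2.symm

include C in
lemma Cover.commute (g : G) : Commute (Mz c x y : Matrix X X ℤ) (Pm g) := by
  change (Mz c x y : Matrix X X ℤ) * (Pm g : Matrix X X ℤ) = Pm g * Mz c x y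
  ext u v
  rw [Mz_mul_Pm, C.Pm_mul_Mz]

lemma trace_Mz (g : G) :
    ((Mz c x y : Matrix X X ℤ) * (Pm g : Matrix X X ℤ)).trace = ∑ u : X, sz c x y u (g • u) := by
  rw [Matrix.trace]
  exact Finset.sum_congr rfl (fun u _ => Mz_mul_Pm g u u)

end mats

end Pool.Agent.J4.H53.Col
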